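import Mathlib.Data.Finite.Defs
import Pool.Agent.Lib.helper92.ZF.Defs

/-! The topological notions of the problem, relativised to a transitive model `M`. -/

namespace Pool.Agent.MP_b07c92_gt.Indep

open ZFSet Pool.Agent.ZF92

/-- The set `f` is the graph on `X` of the real function `φ`. -/
def Graph (X f : ZFSet.{0}) (φ : ZFSet.{0} → ℝ) : Prop :=
  ∀ z, z ∈ f ↔ ∃ x ∈ X, z = pair x (cut (φ x))

/-- `f` is a continuous real function on `(X, T)`. -/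
def Cont (X T f : ZFSet.{0}) : Prop :=
  ∃ φ, Graph X f φ ∧ ∀ a b : ℚ, X.sep (fun x => (a : ℝ) < φ x ∧ φ x < (b : ℝ)) ∈ T

/-- In `M`, the pair `(X, T)` is a compact Hausdorff (Tychonoff) space. -/
structure CompactSp (M : Set ZFSet.{0}) (X T : ZFSet.{0}) : Prop where
  sub : ∀ U ∈ T, U ⊆ X
  whole : X ∈ T
  inter : ∀ U ∈ T, ∀ V ∈ T, U ∩ V ∈ T
  unions : ∀ C ∈ M, C ⊆ T → ZFSet.sUnion C ∈ T
  hausdorff : ∀ x ∈ X, ∀ y ∈ X, x ≠ y → ∃ U ∈ T, ∃ V ∈ T, x ∈ U ∧ y ∈ V ∧ U ∩ V = ∅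
  tychonoff : ∀ U ∈ T, ∀ x ∈ U, ∃ f ∈ M, Cont X T f ∧ pair x (cut 0) ∈ f ∧
    ∀ y ∈ X, y ∉ U → pair y (cut 1) ∈ f
  compact : ∀ C ∈ M, C ⊆ T → X ⊆ ZFSet.sUnion C →
    ∃ F ∈ M, F ⊆ C ∧ (F : Set ZFSet).Finite ∧ X ⊆ ZFSet.sUnion F

/-- In `M`, some well order of `X` has closed initial segments. -/
def LeftSeparated (M : Set ZFSet.{0}) (X T : ZFSet.{0}) : Prop :=
  ∃ r ∈ M, WellOrd M r X ∧ ∀ x ∈ X, X.sep (fun y => pair y x ∉ r) ∈ T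

/-- In `M`, every nonempty subspace has an isolated point. -/
def Scattered (M : Set ZFSet.{0}) (X T : ZFSet.{0}) : Prop :=
  ∀ A ∈ M, A ⊆ X → A ≠ ∅ → ∃ x ∈ A, ∃ U ∈ T, U ∩ A = {x}

/-- The real functions `f`, `g` differ by less than `ε` at the points of `E`. -/
def Near (E : ZFSet.{0}) (ε : ℚ) (f g : ZFSet.{0}) : Prop :=
  ∀ x ∈ E, ∀ r s : ℝ, pair x (cut r) ∈ f → pair x (cut s) ∈ g → |r - s| < (ε : ℝ)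

/-- In `M`, the space `(Y, S)` is a continuous image of `C_p(K, T)`. -/
def ImageOfCp (M : Set ZFSet.{0}) (K T Y S : ZFSet.{0}) : Prop :=
  ∃ C ∈ M, ∃ F ∈ M, (∀ f, f ∈ C ↔ f ∈ M ∧ Cont K T f) ∧ IsFunc C Y F ∧
    (∀ y ∈ Y, ∃ f ∈ C, pair f y ∈ F) ∧
    ∀ V ∈ S, ∀ f ∈ C, ∀ y ∈ V, pair f y ∈ F →
      ∃ E ∈ M, E ⊆ K ∧ (E : Set ZFSet).Finite ∧ ∃ ε : ℚ, 0 < ε ∧
        ∀ g ∈ C, Near E ε f g → ∀ z, pair g z ∈ F → z ∈ V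

/-- In `M`, some metric on `Y` induces the topology `S`. -/
def Metrizable (M : Set ZFSet.{0}) (Y S : ZFSet.{0}) : Prop :=
  ∃ d ∈ M, ∃ δ, Graph (prod Y Y) d δ ∧
    (∀ x ∈ Y, ∀ y ∈ Y, δ (pair x y) = 0 ↔ x = y) ∧
    (∀ x ∈ Y, ∀ y ∈ Y, δ (pair x y) = δ (pair y x)) ∧
    (∀ x ∈ Y, ∀ y ∈ Y, ∀ z ∈ Y, δ (pair x z) ≤ δ (pair x y) + δ (pair y z)) ∧
    ∀ V ∈ M, V ⊆ Y →
      (V ∈ S ↔ ∀ y ∈ V, ∃ ε : ℚ, 0 < ε ∧ ∀ z ∈ Y, δ (pair y z) < (ε : ℝ) → z ∈ V)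

end Pool.Agent.MP_b07c92_gt.Indep
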