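import Mathlib.Order.CompletePartialOrder
import Pool.Agent.Lib.helper92.ZF.Cube
import Mathlib.Algebra.Order.Archimedean.Basic
import Mathlib.Data.Set.Finite.Lattice
import Mathlib.Algebra.Ring.CharZero
import Mathlib.Data.W.Cardinal
import Mathlib.Tactic.Monotonicity.Lemmas
import Mathlib.Algebra.Order.Ring.Star
import Mathlib.SetTheory.Cardinal.Continuum
import Pool.Agent.Lib.helper92.Forcing
import Pool.Agent.Lib.helper92.ZF.GenAPI
import Mathlib.Combinatorics.Matroid.Basic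
import Pool.Agent.MP_b07c92_gt.h92.Defs

-- ======== part 0: formerly Pool.Agent.MP_b07c92_gt.h92.Boxes
section MrgPart0

/-! Boxes in `C_p(K)` inside a model, and the closing-off dichotomy. -/

namespace Pool.Agent.MP_b07c92_gt.Indep

open Pool.Agent.ZF92 Function Set
open scoped Classical

set_option linter.unusedSectionVars false

universe u v w

variable {M : Set ZFSet.{0}} [hM : Fact (ZFC M)]
variable {K : Type u} [Srt M K] [Sm M K] [TopologicalSpace K] [DTop M K]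
variable {I : Type v} [Srt M I] [Sm M I] {Z : Type w} [Srt M Z]

/-- The form of the continuum hypothesis that is used. -/
structure Book (M : Set ZFSet.{0}) [Fact (ZFC M)] {I : Type v} [Srt M I] [Sm M I]
    (r : I → I → Prop) (b : I → Fn M ℕ I × PS M ℕ) : Prop where
  wo : MWO M r
  seg : ∀ a, Ctb M (fun c => r c a)
  db : DfF M b
  surj : ∀ t s, ∃ a, b a = (t, s) ∧ ∀ n, r (t.ap n) a
  ne : Nonempty I

abbrev Box (K : Type u) := Finset (K × ℚ × ℚ)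

def In (B : Box K) (f : Cp M K) : Prop :=
  ∀ t ∈ B, (t.2.1 : ℝ) < f.ev t.1 ∧ f.ev t.1 < (t.2.2 : ℝ)

def Sp (B : Box K) (x : K) : Prop := ∃ t ∈ B, t.1 = x

@[fun_prop]
theorem df_In {B : Z → Box K} {f : Z → Cp M K} (hB : DfF M B) (hf : DfF M f) :
    DfF M (fun z => In (B z) (f z)) := by
  simp only [In, all_iff, imp_iff]; fun_prop

@[fun_prop]
theorem df_Sp {B : Z → Box K} {f : Z → K} (hB : DfF M B) (hf : DfF M f) :
    DfF M (fun z => Sp (B z) (f z)) := by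
  simp only [Sp]; fun_prop

theorem sp_finite (B : Box K) : {x | Sp B x}.Finite :=
  (B.finite_toSet.image Prod.fst).subset fun _ ⟨t, ht, e⟩ => ⟨t, ht, e⟩

theorem In.congr {B : Box K} {f g : Cp M K} (h : In B f) (e : ∀ x, Sp B x → g.ev x = f.ev x) :
    In B g := fun t ht => by
  rw [e t.1 ⟨t, ht, rfl⟩]; exact h t ht

theorem exists_box {V : Set (Cp M K)} (hV : IsOpen V) {f : Cp M K} (hf : f ∈ V) :
    ∃ B : Box K, In B f ∧ ∀ g, In B g → g ∈ V := by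
  obtain ⟨V', hV', rfl⟩ := isOpen_induced_iff.1 hV
  obtain ⟨s, u, hu, hI⟩ := isOpen_pi_iff.1 hV' f.ev hf
  have h1 : ∀ x ∈ s, ∃ a b : ℚ, (a : ℝ) < f.ev x ∧ f.ev x < b ∧ Ioo (a : ℝ) b ⊆ u x := by
    intro x hx
    obtain ⟨l, r, ⟨hl, hr⟩, hlr⟩ :=
      mem_nhds_iff_exists_Ioo_subset.1 ((hu x hx).1.mem_nhds (hu x hx).2)
    obtain ⟨a, ha1, ha2⟩ := exists_rat_btwn hl
    obtain ⟨b, hb1, hb2⟩ := exists_rat_btwn hr
    exact ⟨a, b, ha2, hb1, (Ioo_subset_Ioo ha1.le hb2.le).trans hlr⟩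
  choose! a b hab using h1
  refine ⟨s.image fun x => (x, a x, b x), ?_, fun g hg => hI fun x hx => ?_⟩
  · intro t ht
    obtain ⟨x, hx, rfl⟩ := Finset.mem_image.1 ht
    exact ⟨(hab x hx).1, (hab x hx).2.1⟩
  · exact (hab x hx).2.2 (hg _ (Finset.mem_image_of_mem _ hx))

variable [T1Space K] (hK : MTych M K)
include hK

theorem glue {ι : Type*} (u : Finset ι) {W : Box K} {C : ι → Box K} {g0 : Cp M K}
    {g : ι → Cp M K} (h0 : In W g0) (hg : ∀ a ∈ u, In (C a) (g a))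
    (hW : ∀ a ∈ u, ∀ x, Sp W x → ¬ Sp (C a) x)
    (hC : ∀ a ∈ u, ∀ b ∈ u, a ≠ b → ∀ x, Sp (C a) x → ¬ Sp (C b) x) :
    ∃ f : Cp M K, In W f ∧ ∀ a ∈ u, In (C a) f := by
  obtain ⟨f, hf⟩ := hK.exists_eqOn (E := {x | Sp W x} ∪ ⋃ a ∈ u, {x | Sp (C a) x})
    ((sp_finite W).union (u.finite_toSet.biUnion fun a _ => sp_finite _))
    fun x => if h : ∃ a ∈ u, Sp (C a) x then (g h.choose).F.ap x else g0.F.ap x
  refine ⟨f, h0.congr fun x hx => ?_, fun a ha => (hg a ha).congr fun x hx => ?_⟩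
  · rw [hf x (Or.inl hx), dif_neg fun ⟨a, ha, h⟩ => hW a ha x hx h]; rfl
  · have h : ∃ a ∈ u, Sp (C a) x := ⟨a, ha, hx⟩
    have e : h.choose = a := by
      by_contra hne
      exact hC _ h.choose_spec.1 _ ha hne x h.choose_spec.2 hx
    rw [hf x (Or.inr (mem_iUnion₂.2 ⟨a, ha, hx⟩)), dif_pos h, e]; rfl

omit hK in
/-- A labelled pair of boxes over the root `W`. -/
def Good {ι : Type w} (L R : ι → Cp M K → Prop) (W : Box K) (p : ι × Box K × Box K) : Prop :=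
  (∀ f, In W f → In p.2.1 f → L p.1 f) ∧ (∀ f, In W f → In p.2.2 f → R p.1 f) ∧
    (∃ f : Cp M K, In W f ∧ In p.2.1 f) ∧ (∃ f : Cp M K, In W f ∧ In p.2.2 f) ∧
    ∀ x, Sp W x → ¬ (Sp p.2.1 x ∨ Sp p.2.2 x)

theorem dichotomy {r : I → I → Prop} {b : I → Fn M ℕ I × PS M ℕ} (hb : Book M r b) [Sm M Z]
    [Nonempty Z] {L R : Z → Cp M K → Prop} (dL : DfF M (fun p : Z × Cp M K => L p.1 p.2))
    (dR : DfF M (fun p : Z × Cp M K => R p.1 p.2)) :
    (∃ W, ∃ p : I → Z × Box K × Box K, DfF M p ∧ (∀ a, Good L R W (p a)) ∧ ∀ a c, a ≠ c → ∀ x,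
      (Sp (p a).2.1 x ∨ Sp (p a).2.2 x) → ¬ (Sp (p c).2.1 x ∨ Sp (p c).2.2 x)) ∨
    ∃ A : PS M K, Ctb M (fun x => x ∈ A) ∧ ∀ i (B B' : Box K), (∀ f, In B f → L i f) →
      (∀ f, In B' f → R i f) → ∀ f f' h : Cp M K, In B f → In B' f' →
        In (B.filter fun t => t.1 ∈ A) h → In (B'.filter fun t => t.1 ∈ A) h → False := by
  have dG : DfF M (fun q : Box K × (Z × Box K × Box K) => Good L R q.1 q.2) := by
    simp only [Good, all_iff, imp_iff]; fun_prop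
  by_cases h : ∃ W, ∀ A : PS M K, Ctb M (fun x => x ∈ A) → ∃ p, Good L R W p ∧
      ∀ x, (Sp p.2.1 x ∨ Sp p.2.2 x) → x ∉ A
  · obtain ⟨W, h⟩ := h
    have dr := hb.wo.df
    obtain ⟨p, dp, hp⟩ := hb.wo.exists_rec (Y := Z × Box K × Box K)
      (R := fun a F z => Good L R W z ∧ ∀ c, r c a → ∀ x, (Sp z.2.1 x ∨ Sp z.2.2 x) →
        ¬ (Sp (F.ap c).2.1 x ∨ Sp (F.ap c).2.2 x))
      (by simp only [all_iff, imp_iff]; fun_prop) fun a F => by
        have e : ∀ x, x ∈ PS.of M (fun x => ∃ c, r c a ∧ (Sp (F.ap c).2.1 x ∨ Sp (F.ap c).2.2 x)) ↔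
          ∃ c, r c a ∧ (Sp (F.ap c).2.1 x ∨ Sp (F.ap c).2.2 x) := fun x => PS.mem_of (by fun_prop)
        obtain ⟨z, h1, h2⟩ := h _ ((Ctb.biUnion (A := fun c x => Sp (F.ap c).2.1 x ∨ Sp (F.ap c).2.2 x)
          (by fun_prop) (hb.seg a) (by fun_prop) fun c _ =>
          Ctb.of_finite ((sp_finite _).union (sp_finite _))).mono fun x hx => (e x).1 hx)
        exact ⟨z, h1, fun c hc x hx hx' => h2 x hx ((e x).2 ⟨c, hc, hx'⟩)⟩
    refine Or.inl ⟨W, p, dp, fun a => let ⟨_, _, h1⟩ := hp a; h1.1, fun a c hne x h1 h2 => ?_⟩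
    rcases hb.wo.tri a c with h3 | h3 | h3
    · obtain ⟨F, e, h4⟩ := hp c
      exact h4.2 a h3 x h2 (e a h3 ▸ h1)
    · exact hne h3
    · obtain ⟨F, e, h4⟩ := hp a
      exact h4.2 c h3 x h1 (e c h3 ▸ h2)
  · right
    push Not at h
    obtain ⟨a, da, ha⟩ := exists_choice (M := M) (R := fun (W : Box K) (A : PS M K) =>
      Ctb M (fun x => x ∈ A) ∧ ∀ p, Good L R W p → ∃ x, (Sp p.2.1 x ∨ Sp p.2.2 x) ∧ x ∈ A)
      (by simp only [all_iff, imp_iff]; fun_prop) h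
    obtain ⟨A, hA, hcl⟩ := closing_off (M := M)
      (R := fun (s : Finset K) x => ∃ W : Box K, (∀ t ∈ W, t.1 ∈ s ∧ True) ∧ x ∈ a W)
      (by simp only [all_iff, imp_iff]; fun_prop) fun s =>
        Ctb.biUnion (by simp only [all_iff, imp_iff]; fun_prop)
          (Ctb.finset (A := fun t : K × ℚ × ℚ => t.1 ∈ s ∧ True) (by fun_prop)
            (Ctb.prod (B := fun _ => True) (Ctb.of_finite s.finite_toSet)
              ((Ctb.prod (Ctb.rat fun _ => True) (Ctb.rat fun _ => True)).mono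
                fun _ _ => ⟨trivial, trivial⟩))) (by fun_prop) fun W _ => (ha W).1
    refine ⟨A, hA, fun i B B' hL hR f f' h hf hf' h1 h2 => ?_⟩
    set W : Box K := (B ∪ B').filter fun t => t.1 ∈ A with hW
    have hWh : In W h := fun t ht => by
      simp only [hW, Finset.mem_filter, Finset.mem_union] at ht
      exact ht.1.elim (fun h' => h1 t (Finset.mem_filter.2 ⟨h', ht.2⟩))
        fun h' => h2 t (Finset.mem_filter.2 ⟨h', ht.2⟩)
    have hWA : ∀ x, Sp W x → x ∈ A := fun x ⟨t, ht, e⟩ => e ▸ (Finset.mem_filter.1 ht).2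
    have hCA : ∀ (C : Box K) x, Sp (C.filter fun t => t.1 ∉ A) x → x ∉ A :=
      fun C x ⟨t, ht, e⟩ => e ▸ (Finset.mem_filter.1 ht).2
    have hne : ∀ (C : Box K) (g : Cp M K), In C g →
        ∃ g' : Cp M K, In W g' ∧ In (C.filter fun t => t.1 ∉ A) g' := fun C g hg => by
      obtain ⟨g', h3, h4⟩ := glue hK (ι := Unit) {()} (C := fun _ => C.filter fun t => t.1 ∉ A)
        (g := fun _ => g) hWh (fun _ _ t ht => hg t (Finset.mem_filter.1 ht).1)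
        (fun _ _ x hx hx' => hCA C x hx' (hWA x hx)) (by simp)
      exact ⟨g', h3, h4 () (by simp)⟩
    have hin : ∀ (C : Box K) (g : Cp M K), C ⊆ B ∪ B' → In W g →
        In (C.filter fun t => t.1 ∉ A) g → In C g := fun C g hC h3 h4 t ht => by
      by_cases h5 : t.1 ∈ A
      · exact h3 t (Finset.mem_filter.2 ⟨hC ht, h5⟩)
      · exact h4 t (Finset.mem_filter.2 ⟨ht, h5⟩)
    obtain ⟨x, hx, hxa⟩ := (ha W).2 (i, B.filter fun t => t.1 ∉ A, B'.filter fun t => t.1 ∉ A)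
      ⟨fun g h3 h4 => hL g (hin B g Finset.subset_union_left h3 h4),
        fun g h3 h4 => hR g (hin B' g Finset.subset_union_right h3 h4), hne B f hf, hne B' f' hf',
        fun x hx hx' => hx'.elim (fun h' => hCA B x h' (hWA x hx)) fun h' => hCA B' x h' (hWA x hx)⟩
    have hxA : x ∈ A := hcl (W.image Prod.fst) (fun y hy => by
      obtain ⟨t, ht, rfl⟩ := Finset.mem_image.1 hy
      exact hWA _ ⟨t, ht, rfl⟩) x ⟨W, fun t ht => ⟨Finset.mem_image_of_mem _ ht, trivial⟩, hxa⟩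
    exact hx.elim (fun h' => hCA B x h' hxA) fun h' => hCA B' x h' hxA

theorem realize {ι : Type w} {L R : ι → Cp M K → Prop} {W : Box K} {J : Type*}
    {p : J → ι × Box K × Box K} (hp : ∀ a, Good L R W (p a)) (hd : ∀ a c, a ≠ c → ∀ x,
      (Sp (p a).2.1 x ∨ Sp (p a).2.2 x) → ¬ (Sp (p c).2.1 x ∨ Sp (p c).2.2 x)) [Nonempty J]
    (s : J → Prop) (u : Finset J) :
    ∃ f, ∀ a ∈ u, (s a → R (p a).1 f) ∧ (¬ s a → L (p a).1 f) := by
  obtain ⟨g0, h0, -⟩ := (hp (Classical.arbitrary J)).2.2.1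
  have h1 : ∀ a, ∃ g : Cp M K, In (if s a then (p a).2.2 else (p a).2.1) g := fun a => by
    split_ifs
    · exact (hp a).2.2.2.1.imp fun _ h => h.2
    · exact (hp a).2.2.1.imp fun _ h => h.2
  choose g hg using h1
  have h2 : ∀ a x, Sp (if s a then (p a).2.2 else (p a).2.1) x → Sp (p a).2.1 x ∨ Sp (p a).2.2 x :=
    fun a x h => by
      split_ifs at h
      · exact Or.inr h
      · exact Or.inl h
  obtain ⟨f, hf, h3⟩ := glue hK u h0 (fun a _ => hg a)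
    (fun a _ x hx hx' => (hp a).2.2.2.2 x hx (h2 a x hx'))
    fun a _ c _ hne x hx hx' => hd a c hne x (h2 a x hx) (h2 c x hx')
  exact ⟨f, fun a ha => ⟨fun h => (hp a).2.1 f hf (by simpa [h] using h3 a ha),
    fun h => (hp a).1 f hf (by simpa [h] using h3 a ha)⟩⟩

theorem control {r : I → I → Prop} {b : I → Fn M ℕ I × PS M ℕ} (hb : Book M r b)
    {ψ : Cp M K → ℝ} (dψ : DfR M ψ) (hψ : Continuous ψ) (a : ℚ) :
    ∃ A : PS M K, Ctb M (fun x => x ∈ A) ∧ ∀ f g : Cp M K, (∀ x ∈ A, f.ev x = g.ev x) →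
      ψ f < a → ¬ a < ψ g := by
  rcases dichotomy hK hb (Z := ℕ) (L := fun _ f => ψ f < a) (R := fun _ f => a < ψ f)
    (by fun_prop) (by fun_prop) with ⟨W, p, -, hp, hd⟩ | ⟨A, hA, h⟩
  · obtain ⟨c⟩ := hb.ne
    have := hb.ne
    obtain ⟨c', -, hc⟩ := hb.surj ⟨fun _ => c, by fun_prop⟩ (PS.of M fun _ => False)
    have hne : c' ≠ c := fun e => hb.wo.irr c (e ▸ hc 0)
    obtain ⟨f, hf⟩ := realize hK hp hd (fun x => x = c) {c, c'}
    exact absurd ((hf c (by simp)).1 rfl) ((hf c' (by simp)).2 hne).not_gt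
  · refine ⟨A, hA, fun f g e hf hg => ?_⟩
    obtain ⟨B, hB, hBV⟩ := exists_box (isOpen_lt hψ continuous_const) hf
    obtain ⟨B', hB', hBV'⟩ := exists_box (isOpen_lt continuous_const hψ) hg
    refine h 0 B B' hBV hBV' f g f hB hB' (fun t ht => hB t (Finset.mem_filter.1 ht).1)
      fun t ht => ?_
    rw [e _ (Finset.mem_filter.1 ht).2]
    exact hB' t (Finset.mem_filter.1 ht).1

end Pool.Agent.MP_b07c92_gt.Indep

end MrgPart0

-- ======== part 1: formerly Pool.Agent.MP_b07c92_gt.h92.Mrowka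
section MrgPart1

/-! The one point compactification of the space of an almost disjoint family, inside a model. -/

namespace Pool.Agent.MP_b07c92_gt.Indep

open Pool.Agent.ZF92 Function Set
open scoped Classical

set_option linter.unusedSectionVars false

universe u v w

variable {M : Set ZFSet.{0}} [hM : Fact (ZFC M)]
variable {D : Type u} {L : Type v} {Z : Type w}

inductive Mr (A : L → D → Prop) : Type (max u v)
  | oo : Mr A
  | pp : L → Mr A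
  | dd : D → Mr A

open Mr

variable {A : L → D → Prop}

instance : TopologicalSpace (Mr A) where
  IsOpen s := (∀ ξ, pp ξ ∈ s → {d | A ξ d ∧ dd d ∉ s}.Finite) ∧
    (oo ∈ s → {ξ | pp ξ ∉ s}.Finite ∧ ∃ F : Finset L, {d | dd d ∉ s ∧ ∀ ξ ∈ F, ¬ A ξ d}.Finite)
  isOpen_univ := by simp
  isOpen_inter s t hs ht := by
    refine ⟨fun ξ h => ((hs.1 ξ h.1).union (ht.1 ξ h.2)).subset fun d hd => ?_, fun h => ?_⟩
    · simp only [mem_ofPred_eq, mem_inter_iff, mem_union] at hd ⊢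
      tauto
    · obtain ⟨h1, F, h2⟩ := hs.2 h.1
      obtain ⟨h3, G, h4⟩ := ht.2 h.2
      refine ⟨(h1.union h3).subset fun d hd => ?_, F ∪ G, (h2.union h4).subset fun d hd => ?_⟩
      · simp only [mem_ofPred_eq, mem_inter_iff, mem_union] at hd ⊢
        tauto
      · simp only [mem_ofPred_eq, mem_inter_iff, mem_union, Finset.mem_union, or_imp,
          forall_and] at hd ⊢
        tauto
  isOpen_sUnion S hS := by
    refine ⟨fun ξ ⟨s, hs, h⟩ => ((hS s hs).1 ξ h).subset fun d hd =>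
      ⟨hd.1, fun h' => hd.2 ⟨s, hs, h'⟩⟩, fun ⟨s, hs, h⟩ => ?_⟩
    obtain ⟨h1, F, h2⟩ := (hS s hs).2 h
    exact ⟨h1.subset fun d hd h' => hd ⟨s, hs, h'⟩, F,
      h2.subset fun d hd => ⟨fun h' => hd.1 ⟨s, hs, h'⟩, hd.2⟩⟩

theorem mr_open {s : Set (Mr A)} : IsOpen s ↔ (∀ ξ, pp ξ ∈ s → {d | A ξ d ∧ dd d ∉ s}.Finite) ∧
    (oo ∈ s → {ξ | pp ξ ∉ s}.Finite ∧ ∃ F : Finset L, {d | dd d ∉ s ∧ ∀ ξ ∈ F, ¬ A ξ d}.Finite) :=
  Iff.rfl

def Kx (A : L → D → Prop) (ξ : L) (x : Mr A) : Prop := x = pp ξ ∨ ∃ d, x = dd d ∧ A ξ d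

theorem clopen_K (ad : ∀ ξ η, ξ ≠ η → {d | A ξ d ∧ A η d}.Finite) (ξ : L) :
    IsClopen {x | Kx A ξ x} := by
  refine ⟨⟨mr_open.2 ⟨fun η h => (ad η ξ ?_).subset fun d hd => ?_, fun _ =>
    ⟨(finite_singleton ξ).subset fun η h => ?_, {ξ}, finite_empty.subset fun d hd => ?_⟩⟩⟩,
    mr_open.2 ⟨fun η h => finite_empty.subset fun d hd => ?_, by simp [Kx]⟩⟩
  · simpa [Kx] using h
  · simpa [Kx] using hd
  · simpa [Kx] using h
  · simp [Kx] at hd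
  · obtain rfl : η = ξ := by simpa [Kx] using h
    simp [Kx] at hd

theorem clopen_dd {E : Set D} (hE : E.Finite) : IsClopen (dd '' E : Set (Mr A)) :=
  ⟨⟨mr_open.2 ⟨fun _ _ => hE.subset fun d hd => by simpa using hd.2, fun _ =>
    ⟨by simp, ∅, hE.subset fun d hd => by simpa using hd⟩⟩⟩, mr_open.2 ⟨by simp, by simp⟩⟩

instance : T1Space (Mr A) := ⟨fun x => ⟨mr_open.2 ⟨fun _ _ =>
  ((finite_singleton x).preimage (f := dd) fun _ _ _ _ h => by simpa using h).subset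
    fun d hd => by simpa using hd.2, fun _ =>
  ⟨((finite_singleton x).preimage (f := pp) fun _ _ _ _ h => by simpa using h).subset
    fun d hd => by simpa using hd, ∅,
  ((finite_singleton x).preimage (f := dd) fun _ _ _ _ h => by simpa using h).subset
    fun d hd => by simpa using hd⟩⟩⟩⟩

instance : CompactSpace (Mr A) := by
  refine ⟨isCompact_of_finite_subcover fun {ι} U hU hc => ?_⟩
  choose c hc using fun x => mem_iUnion.1 (hc (mem_univ x))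
  obtain ⟨h1, F, h2⟩ := (mr_open.1 (hU (c oo))).2 (hc oo)
  have h3 : (⋃ ξ ∈ F, {d | A ξ d ∧ dd d ∉ U (c (pp ξ))}).Finite :=
    F.finite_toSet.biUnion fun ξ _ => (mr_open.1 (hU _)).1 ξ (hc _)
  have h4 := ((((h1.union F.finite_toSet).image (pp (A := A))).union
    ((h2.union h3).image dd)).insert oo).image c
  refine ⟨h4.toFinset, fun x _ => ?_⟩
  simp only [mem_iUnion, Finite.mem_toFinset, exists_prop]
  by_cases hx : x ∈ U (c oo)
  · exact ⟨_, ⟨oo, Or.inl rfl, rfl⟩, hx⟩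
  rcases x with _ | ξ | d
  · exact absurd (hc _) hx
  · exact ⟨_, ⟨_, Or.inr (Or.inl ⟨ξ, Or.inl hx, rfl⟩), rfl⟩, hc _⟩
  · by_cases hd : ∃ ξ ∈ F, A ξ d
    · obtain ⟨ξ, h5, h6⟩ := hd
      by_cases h7 : dd d ∈ U (c (pp ξ))
      · exact ⟨_, ⟨_, Or.inr (Or.inl ⟨ξ, Or.inr h5, rfl⟩), rfl⟩, h7⟩
      · exact ⟨_, ⟨_, Or.inr (Or.inr ⟨d, Or.inr (mem_biUnion h5 ⟨h6, h7⟩), rfl⟩), rfl⟩, hc _⟩
    · exact ⟨_, ⟨_, Or.inr (Or.inr ⟨d, Or.inl ⟨hx, fun ξ h h' => hd ⟨ξ, h, h'⟩⟩, rfl⟩), rfl⟩, hc _⟩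

theorem mr_scattered (ad : ∀ ξ η, ξ ≠ η → {d | A ξ d ∧ A η d}.Finite) (s : Set (Mr A))
    (hs : s.Nonempty) : ∃ x ∈ s, ∃ U, IsOpen U ∧ x ∈ U ∧ ∀ y ∈ U, y ∈ s → y = x := by
  by_cases h1 : ∃ d, dd d ∈ s
  · obtain ⟨d, hd⟩ := h1
    exact ⟨_, hd, _, (clopen_dd (finite_singleton d)).2, by simp, by simp⟩
  by_cases h2 : ∃ ξ, pp ξ ∈ s
  · obtain ⟨ξ, h⟩ := h2
    exact ⟨_, h, _, (clopen_K ad ξ).2, Or.inl rfl, fun y hy hy' =>
      hy.resolve_right fun ⟨d, e, _⟩ => h1 ⟨d, e ▸ hy'⟩⟩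
  have h3 : ∀ y ∈ s, y = oo := by
    rintro (_ | ξ | d) h
    · rfl
    · exact absurd ⟨_, h⟩ h2
    · exact absurd ⟨_, h⟩ h1
  obtain ⟨x, hx⟩ := hs
  exact ⟨x, hx, univ, isOpen_univ, trivial, fun y _ hy => (h3 y hy).trans (h3 x hx).symm⟩

theorem mr_finite {f : Mr A → ℝ} (hf : Continuous f) {a b : ℝ} (hab : a < b) {S : Set D}
    (hS : ∀ d ∈ S, f (dd d) ≤ a) (h1 : ∀ ξ, {d | A ξ d ∧ d ∈ S}.Infinite)
    (h2 : ∀ F : Finset L, {d | d ∈ S ∧ ∀ ξ ∈ F, ¬ A ξ d}.Infinite) :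
    {d | b ≤ f (dd d)}.Finite := by
  have h3 := mr_open.1 (isOpen_lt (continuous_const (y := a)) hf)
  have h4 := mr_open.1 (isOpen_lt hf (continuous_const (y := b)))
  have h5 : ∀ ξ, f (pp ξ) < b := fun ξ => lt_of_le_of_lt (not_lt.1 fun h =>
    h1 ξ ((h3.1 ξ h).subset fun d hd => ⟨hd.1, (hS d hd.2).not_gt⟩)) hab
  obtain ⟨-, F, h6⟩ := h4.2 (lt_of_le_of_lt (not_lt.1 fun h => by
    obtain ⟨-, F, h6⟩ := h3.2 h
    exact h2 F (h6.subset fun d hd => ⟨(hS d hd.1).not_gt, hd.2⟩)) hab)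
  refine (h6.union (F.finite_toSet.biUnion fun ξ _ => h4.1 ξ (h5 ξ))).subset fun d hd => ?_
  by_cases h : ∃ ξ ∈ F, A ξ d
  · obtain ⟨ξ, h7, h8⟩ := h
    exact Or.inr (mem_biUnion h7 ⟨h8, (show b ≤ f (dd d) from hd).not_gt⟩)
  · exact Or.inl ⟨(show b ≤ f (dd d) from hd).not_gt, fun ξ h7 h8 => h ⟨ξ, h7, h8⟩⟩

def Mr.cd : Mr A → Option (D ⊕ L)
  | oo => none
  | pp ξ => some (.inr ξ)
  | dd d => some (.inl d)

def Mr.rk : Mr A → ℕ
  | oo => 0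
  | pp _ => 1
  | dd _ => 2

variable [Srt M D] [Srt M L] [Srt M Z]

instance : Srt M (Mr A) :=
  Srt.ofInj Mr.cd (by rintro (_ | _ | _) (_ | _ | _) h <;> simp_all [Mr.cd])
    ((DfF.const True).congr fun p => by
      rcases p with _ | d | ξ
      · exact iff_true_intro ⟨oo, rfl⟩
      · exact iff_true_intro ⟨dd d, rfl⟩
      · exact iff_true_intro ⟨pp ξ, rfl⟩)

@[fun_prop]
theorem df_pp {f : Z → L} (hf : DfF M f) : DfF M (fun z => (pp (f z) : Mr A)) :=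
  DfF.of_comp_cd_eq (c := Mr.cd) (fun _ => rfl) (by simp only [Mr.cd]; fun_prop)

@[fun_prop]
theorem df_dd {f : Z → D} (hf : DfF M f) : DfF M (fun z => (dd (f z) : Mr A)) :=
  DfF.of_comp_cd_eq (c := Mr.cd) (fun _ => rfl) (by simp only [Mr.cd]; fun_prop)

variable [Sm M D] [Sm M L]

instance : Sm M (Mr A) := sm_of_subset (un_mem (X := Option (D ⊕ L))) fun _ => mem_un.2 ⟨_, rfl⟩

theorem mr_left : ∃ r : Mr A → Mr A → Prop, MWO M r ∧ ∀ x, IsClosed {y | r y x} := by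
  obtain ⟨r, hr⟩ := exists_mwo (M := M) (Mr A)
  have hd := hr.df
  have dk : DfF M (rk : Mr A → ℕ) := DfF.of_rel (P := fun x n => (x = oo ∧ n = 0) ∨
    ((∃ ξ, x = pp ξ) ∧ n = 1) ∨ ((∃ d, x = dd d) ∧ n = 2)) (by fun_prop) fun x n => by
      rcases x with _ | _ | _ <;> simp [rk, eq_comm]
  refine ⟨fun x y => x.rk < y.rk ∨ (x.rk = y.rk ∧ r x y), ⟨by fun_prop, fun x => by simp [hr.irr],
    fun x y z h1 h2 => ?_, fun x y => ?_, fun P dP ⟨x, hx⟩ => ?_⟩, fun x => ⟨mr_open.2 ⟨fun ξ h =>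
      finite_empty.subset fun d hd => ?_, fun h => ?_⟩⟩⟩
  · rcases h1 with h1 | ⟨h1, h3⟩ <;> rcases h2 with h2 | ⟨h2, h4⟩
    · exact Or.inl (h1.trans h2)
    · exact Or.inl (h2 ▸ h1)
    · exact Or.inl (h1 ▸ h2)
    · exact Or.inr ⟨h1.trans h2, hr.trans _ _ _ h3 h4⟩
  · rcases lt_trichotomy x.rk y.rk with h | h | h
    · exact Or.inl (Or.inl h)
    · exact (hr.tri x y).imp (fun h' => Or.inr ⟨h, h'⟩) (Or.imp_right fun h' => Or.inr ⟨h.symm, h'⟩)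
    · exact Or.inr (Or.inr (Or.inl h))
  · have h1 : ∃ n, ∃ x, P x ∧ x.rk = n := ⟨_, x, hx, rfl⟩
    obtain ⟨y, ⟨h2, h3⟩, h4⟩ := hr.min (fun x => P x ∧ x.rk = Nat.find h1) (by fun_prop)
      (Nat.find_spec h1)
    refine ⟨y, h2, fun z hz h5 => h5.elim (fun h6 => Nat.find_min h1 (h3 ▸ h6) ⟨z, hz, rfl⟩)
      fun h6 => h4 z ⟨hz, h6.1.trans h3⟩ h6.2⟩
  · rcases x with _ | _ | _ <;> simp [rk] at h hd
  · rcases x with _ | _ | _ <;> simp [rk] at h ⊢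

theorem mr_basis (dA : DfF M fun p : L × D => A p.1 p.2)
    (ad : ∀ ξ η, ξ ≠ η → {d | A ξ d ∧ A η d}.Finite) {s : Set (Mr A)} (hs : IsOpen s) {x : Mr A}
    (hx : x ∈ s) : ∃ P : Mr A → Prop, DfF M P ∧ IsClopen {y | P y} ∧ P x ∧ ∀ y, P y → y ∈ s := by
  rcases x with _ | ξ | d
  · obtain ⟨h1, F, h2⟩ := (mr_open.1 hs).2 hx
    have h3 := DfF.mem_finite (M := M) (h1.union F.finite_toSet)
    have h4 := DfF.mem_finite (M := M) (h2.image (dd (A := A)))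
    refine ⟨fun y => ¬ (∃ ξ, ξ ∈ {ξ | pp ξ ∉ s} ∪ F ∧ Kx A ξ y) ∧
      y ∉ dd '' {d | dd d ∉ s ∧ ∀ ξ ∈ F, ¬ A ξ d}, DfF.and (DfF.not (DfF.ex
      (DfF.and (h3.comp DfF.id.snd) (by simp only [Kx]; fun_prop)))) h4.not,
      IsClopen.inter (IsClopen.compl ?_) (clopen_dd h2).compl, by simp [Kx], ?_⟩
    · convert (h1.union F.finite_toSet).isClopen_biUnion fun ξ _ => clopen_K ad ξ using 1
      ext y; rw [mem_iUnion₂]; simp only [exists_prop]; rfl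
    · rintro (_ | ξ | d) ⟨h5, h6⟩
      · exact hx
      · exact not_not.1 fun h => h5 ⟨ξ, Or.inl h, Or.inl rfl⟩
      · exact not_not.1 fun h => h6 ⟨d, ⟨h, fun ξ h7 h8 =>
          h5 ⟨ξ, Or.inr h7, Or.inr ⟨d, rfl, h8⟩⟩⟩, rfl⟩
  · have h1 := (mr_open.1 hs).1 ξ hx
    refine ⟨fun y => Kx A ξ y ∧ y ∉ dd '' {d | A ξ d ∧ dd d ∉ s}, DfF.and (P := Kx A ξ)
      (by unfold Kx; fun_prop) (DfF.mem_finite (h1.image _)).not,
      (clopen_K ad ξ).inter (clopen_dd h1).compl, by simp [Kx], ?_⟩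
    rintro y ⟨rfl | ⟨d, rfl, h2⟩, h3⟩
    · exact hx
    · exact not_not.1 fun h => h3 ⟨d, ⟨h2, h⟩, rfl⟩
  · refine ⟨fun y => y = dd d, by fun_prop, ?_, rfl, fun y h => h ▸ hx⟩
    simpa using clopen_dd (A := A) (finite_singleton d)

theorem mr_dtop (dA : DfF M fun p : L × D => A p.1 p.2)
    (ad : ∀ ξ η, ξ ≠ η → {d | A ξ d ∧ A η d}.Finite) : DTop M (Mr A) :=
  DTop.of_nhds (DfF.congr (P := fun s : PS M (Mr A) =>
    (∀ ξ, pp ξ ∈ s → {d | A ξ d ∧ dd d ∉ s}.Finite) ∧ (oo ∈ s → {ξ | pp ξ ∉ s}.Finite ∧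
      ∃ F : Finset L, {d | dd d ∉ s ∧ ∀ ξ ∈ F, ¬ A ξ d}.Finite))
    (by simp only [all_iff, imp_iff]; fun_prop) fun _ => mr_open) fun _ hs _ hx =>
    let ⟨P, h1, h2, h3⟩ := mr_basis dA ad hs hx; ⟨P, h1, h2.2, h3⟩

theorem exists_cp_ind {X : Type u} [Srt M X] [Sm M X] [TopologicalSpace X] [DTop M X]
    {P : X → Prop} (dP : DfF M P) (hP : IsClopen {y | P y}) (a b : ℝ) [MR M a] [MR M b] :
    ∃ f : Cp M X, ∀ x, f.ev x = if P x then a else b :=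
  exists_cp (by fun_prop) (continuous_const.if (fun x hx => by
    rw [hP.frontier_eq] at hx; exact hx.elim) continuous_const)

theorem mcpt_of_compact {X : Type u} [Srt M X] [Sm M X] [TopologicalSpace X] [CompactSpace X] :
    MCpt M X := by
  intro C h1 h2
  obtain ⟨t, ht⟩ := isCompact_univ.elim_finite_subcover (fun U : {U // U ∈ C} => (U.1 : Set X))
    (fun U => h1 U.1 U.2) fun x _ => let ⟨U, h3, h4⟩ := h2 x; mem_iUnion.2 ⟨⟨U, h3⟩, h4⟩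
  refine ⟨t.image Subtype.val, fun U hU => ?_, fun x => ?_⟩
  · obtain ⟨V, -, rfl⟩ := Finset.mem_image.1 hU
    exact V.2
  · obtain ⟨U, h3, h4⟩ := mem_iUnion₂.1 (ht (mem_univ x))
    exact ⟨U.1, Finset.mem_image_of_mem _ h3, h4⟩

theorem mr_tych (dA : DfF M fun p : L × D => A p.1 p.2)
    (ad : ∀ ξ η, ξ ≠ η → {d | A ξ d ∧ A η d}.Finite) : MTych M (Mr A) := by
  have := mr_dtop dA ad
  intro U hU x hx
  obtain ⟨P, h1, h2, h3, h4⟩ := mr_basis dA ad hU hx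
  obtain ⟨f, hf⟩ := exists_cp_ind h1 h2 0 1
  exact ⟨f, by rw [hf, if_pos h3], fun y hy => by rw [hf, if_neg fun h => hy (h4 y h)]⟩

theorem mr_t2 (dA : DfF M fun p : L × D => A p.1 p.2)
    (ad : ∀ ξ η, ξ ≠ η → {d | A ξ d ∧ A η d}.Finite) : T2Space (Mr A) := ⟨fun x y h => by
  obtain ⟨P, -, h2, h3, h4⟩ := mr_basis dA ad (isClosed_singleton (x := y)).isOpen_compl h
  exact ⟨_, _, h2.2, h2.1.isOpen_compl, h3, fun h => h4 y h rfl, disjoint_compl_right⟩⟩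

end Pool.Agent.MP_b07c92_gt.Indep

end MrgPart1

-- ======== part 2: formerly Pool.Agent.MP_b07c92_gt.h92.Poset
section MrgPart2

/-! A poset that adds many strongly almost disjoint functions. -/

namespace Pool.Agent.MP_b07c92_gt.Indep

open Pool.Agent.Forcing92 Function Set
open scoped Classical

variable {L I : Type}

structure Cd (L I : Type) where
  F : Set L
  S : Set I
  e : L → I → ℕ
  F' : Set L
  a : Set I
  m : L → I → ℕ
  cF : F.Countable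
  cS : S.Countable
  fF : F'.Finite
  fa : a.Finite
  sF : F' ⊆ F
  sa : a ⊆ S

structure L1 (q p : Cd L I) : Prop where
  hF : p.F ⊆ q.F
  hS : p.S ⊆ q.S
  he : ∀ ξ ∈ p.F, ∀ α ∈ p.S, q.e ξ α = p.e ξ α
  hd : ∀ ξ ∈ p.F, ∀ η ∈ p.F, ξ ≠ η → ∀ α ∈ q.S, α ∉ p.S → q.e ξ α ≠ q.e η α

structure L2 (q : Cd L I) (F : Set L) (a : Set I) (m : L → I → ℕ) : Prop where
  hF : F ⊆ q.F'
  ha : a ⊆ q.a
  hm : ∀ ξ ∈ F, ∀ α ∈ a, q.m ξ α = m ξ α
  hd : ∀ ξ ∈ F, ∀ η ∈ F, ξ ≠ η → ∀ α ∈ q.a, α ∉ a → q.e ξ α = q.e η α → q.m ξ α ≠ q.m η α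

def le2 (q p : Cd L I) : Prop := L1 q p ∧ L2 q p.F' p.a p.m

theorem L1.refl (p : Cd L I) : L1 p p :=
  ⟨Subset.rfl, Subset.rfl, fun _ _ _ _ => rfl, fun _ _ _ _ _ _ h h' => absurd h h'⟩

theorem L1.trans {p q r : Cd L I} (h : L1 r q) (h' : L1 q p) : L1 r p := by
  refine ⟨h'.hF.trans h.hF, h'.hS.trans h.hS, fun ξ h1 α h2 =>
    (h.he ξ (h'.hF h1) α (h'.hS h2)).trans (h'.he ξ h1 α h2), fun ξ h1 η h2 h3 α h4 h5 => ?_⟩
  by_cases h6 : α ∈ q.S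
  · rw [h.he ξ (h'.hF h1) α h6, h.he η (h'.hF h2) α h6]
    exact h'.hd ξ h1 η h2 h3 α h6 h5
  · exact h.hd ξ (h'.hF h1) η (h'.hF h2) h3 α h4 h6

instance : Pre (le2 (L := L) (I := I)) where
  refl p := ⟨L1.refl p, Subset.rfl, Subset.rfl, fun _ _ _ _ => rfl,
    fun _ _ _ _ _ _ h h' => absurd h h'⟩
  trans := by
    rintro r q p ⟨g, h⟩ ⟨g', h'⟩
    refine ⟨g.trans g', h'.hF.trans h.hF, h'.ha.trans h.ha, fun ξ h1 α h2 =>
      (h.hm ξ (h'.hF h1) α (h'.ha h2)).trans (h'.hm ξ h1 α h2), fun ξ h1 η h2 h3 α h4 h5 => ?_⟩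
    by_cases h6 : α ∈ q.a
    · rw [h.hm ξ (h'.hF h1) α h6, h.hm η (h'.hF h2) α h6, g.he ξ (q.sF (h'.hF h1)) α (q.sa h6),
        g.he η (q.sF (h'.hF h2)) α (q.sa h6)]
      exact h'.hd ξ h1 η h2 h3 α h6 h5
    · exact h.hd ξ (h'.hF h1) η (h'.hF h2) h3 α h4 h6

theorem amalg {r p q : Cd L I} (h1 : L1 r p) (h2 : L1 r q)
    (hm : ∀ ξ ∈ p.F', ξ ∈ q.F' → ∀ α ∈ p.a, α ∈ q.a → p.m ξ α = q.m ξ α)
    (hq : ∀ ξ ∈ p.F' ∩ q.F', ∀ η ∈ p.F' ∩ q.F', ξ ≠ η → ∀ α ∈ q.a, α ∉ p.a →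
      r.e ξ α = r.e η α → q.m ξ α ≠ q.m η α)
    (hp : ∀ ξ ∈ p.F' ∩ q.F', ∀ η ∈ p.F' ∩ q.F', ξ ≠ η → ∀ α ∈ p.a, α ∉ q.a →
      r.e ξ α = r.e η α → p.m ξ α ≠ p.m η α) : ∃ s, le2 s p ∧ le2 s q := by
  obtain ⟨c, hc⟩ := countable_iff_exists_injOn.1 r.cF
  obtain ⟨n, hn⟩ := (((p.fF.prod p.fa).image (uncurry p.m)).union
    ((q.fF.prod q.fa).image (uncurry q.m))).bddAbove
  have n1 : ∀ ξ ∈ p.F', ∀ α ∈ p.a, p.m ξ α ≤ n := fun ξ h α h' => hn (Or.inl ⟨(ξ, α), ⟨h, h'⟩, rfl⟩)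
  have n2 : ∀ ξ ∈ q.F', ∀ α ∈ q.a, q.m ξ α ≤ n := fun ξ h α h' => hn (Or.inr ⟨(ξ, α), ⟨h, h'⟩, rfl⟩)
  refine ⟨⟨r.F, r.S, r.e, p.F' ∪ q.F', p.a ∪ q.a, fun ξ α => if ξ ∈ p.F' ∧ α ∈ p.a then p.m ξ α
    else if ξ ∈ q.F' ∧ α ∈ q.a then q.m ξ α else n + 1 + c ξ, r.cF, r.cS, p.fF.union q.fF,
    p.fa.union q.fa, union_subset (p.sF.trans h1.hF) (q.sF.trans h2.hF),
    union_subset (p.sa.trans h1.hS) (q.sa.trans h2.hS)⟩,
    ⟨⟨h1.hF, h1.hS, h1.he, h1.hd⟩, subset_union_left, subset_union_left,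
      fun ξ h α h' => if_pos ⟨h, h'⟩, fun ξ h3 η h4 h5 α h6 h7 h8 => ?_⟩,
    ⟨h2.hF, h2.hS, h2.he, h2.hd⟩, subset_union_right, subset_union_right,
      fun ξ h α h' => ?_, fun ξ h3 η h4 h5 α h6 h7 h8 => ?_⟩
  · have h9 := h6.resolve_left h7
    have h10 := (hc (h1.hF (p.sF h3)) (h1.hF (p.sF h4))).mt h5
    simp only [h7, h9, and_false, if_false, and_true]
    split_ifs with g1 g2 g2
    · exact hq ξ ⟨h3, g1⟩ η ⟨h4, g2⟩ h5 α h9 h7 h8
    · have := n2 ξ g1 α h9; omega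
    · have := n2 η g2 α h9; omega
    · omega
  · simp only [h, h', and_self, if_true]
    split_ifs with g
    · exact hm ξ g.1 h α g.2 h'
    · rfl
  · have h9 := h6.resolve_right h7
    have h10 := (hc (h2.hF (q.sF h3)) (h2.hF (q.sF h4))).mt h5
    simp only [h7, h9, and_false, if_false, and_true]
    split_ifs with g1 g2 g2
    · exact hp ξ ⟨g1, h3⟩ η ⟨g2, h4⟩ h5 α h9 h7 h8
    · have := n1 ξ g1 α h9; omega
    · have := n1 η g2 α h9; omega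
    · omega

theorem exists_ext (p : Cd L I) (ξ : L) (α : I) : ∃ s, le2 s p ∧ ξ ∈ s.F' ∧ α ∈ s.a := by
  obtain ⟨c, hc⟩ := countable_iff_exists_injOn.1 p.cF
  let q : Cd L I := ⟨insert ξ p.F, insert α p.S, fun η β => if β ∈ p.S then p.e η β else c η,
    {ξ}, {α}, p.m, p.cF.insert _, p.cS.insert _, finite_singleton _, finite_singleton _,
    by simp, by simp⟩
  obtain ⟨s, h1, h2⟩ := amalg (r := q) (p := p) (q := q) ⟨subset_insert _ _, subset_insert _ _,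
    fun _ _ _ h => if_pos h, fun ξ h1 η h2 h3 β _ h4 => by
      simpa only [q, h4, if_false] using (hc h1 h2).mt h3⟩ (L1.refl q) (fun _ _ _ _ _ _ => rfl)
    (fun _ h1 _ h2 h3 => absurd (h1.2.trans h2.2.symm) h3)
    fun _ h1 _ h2 h3 => absurd (h1.2.trans h2.2.symm) h3
  exact ⟨s, h1, h2.2.hF rfl, h2.2.ha rfl⟩

theorem exists_lower {s : ℕ → Cd L I} (hs : ∀ n, L1 (s (n + 1)) (s n)) :
    ∃ q : Cd L I, (∀ n, L1 q (s n)) ∧ (∀ A : Set L, A.Finite → A ⊆ q.F → ∃ n, ∀ k, n ≤ k → A ⊆ (s k).F) ∧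
      ∀ A : Set I, A.Finite → A ⊆ q.S → ∃ n, ∀ k, n ≤ k → A ⊆ (s k).S := by
  have h1 : ∀ m n, m ≤ n → L1 (s n) (s m) := fun m n h => by
    induction h with
    | refl => exact L1.refl _
    | step _ ih => exact (hs _).trans ih
  let e : L → I → ℕ := fun ξ α =>
    if h : ∃ n, ξ ∈ (s n).F ∧ α ∈ (s n).S then (s h.choose).e ξ α else 0
  have h2 : ∀ n, ∀ ξ ∈ (s n).F, ∀ α ∈ (s n).S, e ξ α = (s n).e ξ α := fun n ξ h3 α h4 => by
    have h5 : ∃ n, ξ ∈ (s n).F ∧ α ∈ (s n).S := ⟨n, h3, h4⟩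
    simp only [e, dif_pos h5]
    rw [← (h1 _ _ (le_max_left n h5.choose)).he ξ h3 α h4,
      (h1 _ _ (le_max_right n h5.choose)).he ξ h5.choose_spec.1 α h5.choose_spec.2]
  have h3 : ∀ {X : Type} (B : ℕ → Set X), Monotone B → ∀ A : Set X, A.Finite → A ⊆ ⋃ n, B n →
      ∃ n, ∀ k, n ≤ k → A ⊆ B k := fun B hB A hA h => by
    choose! f hf using fun x hx => mem_iUnion.1 (h (a := x) hx)
    obtain ⟨n, hn⟩ := (hA.image f).bddAbove
    exact ⟨n, fun k hk x hx => hB ((hn ⟨x, hx, rfl⟩).trans hk) (hf x hx)⟩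
  refine ⟨⟨⋃ n, (s n).F, ⋃ n, (s n).S, e, ∅, ∅, e, countable_iUnion fun n => (s n).cF,
    countable_iUnion fun n => (s n).cS, finite_empty, finite_empty, empty_subset _, empty_subset _⟩,
    fun n => ⟨subset_iUnion (fun n => (s n).F) n, subset_iUnion (fun n => (s n).S) n, h2 n,
      fun ξ h4 η h5 h6 α h7 h8 => ?_⟩, h3 _ fun m n h => (h1 m n h).hF, h3 _ fun m n h => (h1 m n h).hS⟩
  obtain ⟨k, hk⟩ := mem_iUnion.1 h7
  have h9 := h1 _ _ (le_max_left n k)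
  have h10 := (h1 _ _ (le_max_right n k)).hS hk
  show e ξ α ≠ e η α
  rw [h2 _ ξ (h9.hF h4) α h10, h2 _ η (h9.hF h5) α h10]
  exact h9.hd ξ h4 η h5 h6 α h10 h8

noncomputable def dec (u : Finset (L × I × ℕ)) (ξ : L) (α : I) : ℕ :=
  if h : ∃ n, (ξ, α, n) ∈ u then h.choose else 0

def TT (q : Cd L I) : Set (Finset L × Finset I × Finset (L × I × ℕ)) :=
  {t : Finset L | ↑t ⊆ q.F} ×ˢ {t : Finset I | ↑t ⊆ q.S} ×ˢ
    {t : Finset (L × I × ℕ) | ↑t ⊆ q.F ×ˢ q.S ×ˢ (univ : Set ℕ)}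

theorem TT_countable (q : Cd L I) : (TT q).Countable := by
  have h : ∀ {X : Type} {s : Set X}, s.Countable → {t : Finset X | ↑t ⊆ s}.Countable := fun hs =>
    ((countable_ofPred_finite_subset hs).preimage Finset.coe_injective).mono
      fun t ht => And.intro t.finite_toSet ht
  exact (h q.cF).prod ((h q.cS).prod (h (q.cF.prod (q.cS.prod countable_univ))))

theorem exists_round {D : ℕ → Cd L I → Prop} (hD : ∀ n p, ∃ q, le2 q p ∧ D n q) (q : Cd L I) :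
    ∃ q', L1 q' q ∧ ∃ C : Set (Cd L I), C.Countable ∧ ∀ t ∈ TT q, ∀ k, ∃ r ∈ C, D k r ∧ L1 q' r ∧
      L2 r t.1 t.2.1 (dec t.2.2) := by
  obtain ⟨c, hc⟩ := countable_iff_exists_subset_range.1
    ((TT_countable q).prod (countable_univ (α := ℕ)))
  choose F h1 h2 using hD
  let mk : Cd L I → ℕ → Cd L I := fun p n => ⟨p.F, p.S, p.e, ↑(c n).1.1 ∩ p.F, ↑(c n).1.2.1 ∩ p.S,
    dec (c n).1.2.2, p.cF, p.cS, (Finset.finite_toSet _).inter_of_left _,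
    (Finset.finite_toSet _).inter_of_left _, inter_subset_right, inter_subset_right⟩
  let s : ℕ → Cd L I := fun n => Nat.rec q (fun n p => F (c n).2 (mk p n)) n
  have h3 : ∀ n, L1 (s (n + 1)) (s n) := fun n =>
    let h := (h1 (c n).2 (mk (s n) n)).1; ⟨h.hF, h.hS, h.he, h.hd⟩
  have h4 : ∀ n, L1 (s n) q := fun n => by
    induction n with
    | zero => exact L1.refl _
    | succ n ih => exact (h3 n).trans ih
  obtain ⟨q', h5, -⟩ := exists_lower h3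
  refine ⟨q', h5 0, range s, countable_range s, fun t ht k => ?_⟩
  obtain ⟨n, hn⟩ := hc (a := (t, k)) ⟨ht, trivial⟩
  have h6 := (h1 (c n).2 (mk (s n) n)).2
  have h7 := h2 (c n).2 (mk (s n) n)
  simp only [mk, hn, inter_eq_left.2 (ht.1.trans (h4 n).hF),
    inter_eq_left.2 (ht.2.1.trans (h4 n).hS)] at h6
  refine ⟨s (n + 1), ⟨n + 1, rfl⟩, by simpa only [s, hn] using h7, h5 (n + 1), ?_⟩
  simpa only [s, mk, hn, inter_eq_left.2 (ht.1.trans (h4 n).hF),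
    inter_eq_left.2 (ht.2.1.trans (h4 n).hS)] using h6

theorem proper {D : ℕ → Cd L I → Prop} (hD : ∀ n p, ∃ q, le2 q p ∧ D n q) (p : Cd L I) :
    ∃ q, le2 q p ∧ ∃ C : Set (Cd L I), C.Countable ∧ ∀ k r, le2 r q → ∃ r' ∈ C, D k r' ∧
      ∃ s, le2 s r ∧ le2 s r' := by
  choose F h1 C h2 h3 using exists_round hD
  let s : ℕ → Cd L I := fun n => F^[n] p
  have hs : ∀ n, s (n + 1) = F (s n) := fun n => iterate_succ_apply' F n p
  obtain ⟨q, h4, h5, h6⟩ := exists_lower (s := s) fun n => hs n ▸ h1 _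
  refine ⟨⟨q.F, q.S, q.e, p.F', p.a, p.m, q.cF, q.cS, p.fF, p.fa, p.sF.trans (h4 0).hF,
    p.sa.trans (h4 0).hS⟩, ⟨⟨(h4 0).hF, (h4 0).hS, (h4 0).he, (h4 0).hd⟩, Subset.rfl, Subset.rfl,
      fun _ _ _ _ => rfl, fun _ _ _ _ _ _ h h' => absurd h h'⟩, ⋃ n, C (s n),
    countable_iUnion fun n => h2 _, fun k r hr => ?_⟩
  have h7 : L1 r q := ⟨hr.1.hF, hr.1.hS, hr.1.he, hr.1.hd⟩
  have f1 := r.fF.inter_of_left q.F
  have f2 := r.fa.inter_of_left q.S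
  have f3 := (f1.prod f2).image fun x => (x.1, x.2, r.m x.1 x.2)
  obtain ⟨n, hn⟩ := h5 _ f1 inter_subset_right
  obtain ⟨n', hn'⟩ := h6 _ f2 inter_subset_right
  have g1 := hn _ (le_max_left n n')
  have g2 := hn' _ (le_max_right n n')
  obtain ⟨r', h8, h9, h10, h11⟩ := h3 (s (max n n')) (f1.toFinset, f2.toFinset, f3.toFinset)
    ⟨by simpa using g1, by simpa using g2, by
      simp only [mem_ofPred_eq, Finite.coe_toFinset]
      rintro _ ⟨x, hx, rfl⟩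
      exact ⟨g1 hx.1, g2 hx.2, trivial⟩⟩ k
  simp only [Finite.coe_toFinset] at h11
  have h12 : L1 q r' := (h4 (max n n' + 1)).trans (hs _ ▸ h10)
  have h13 := h7.trans h12
  refine ⟨r', mem_iUnion.2 ⟨_, h8⟩, h9, amalg (L1.refl r) h13 (fun ξ g3 g4 α g5 g6 => ?_)
    (fun ξ g3 η g4 g5 α g6 g7 g8 => ?_) fun ξ g3 η g4 g5 α g6 g7 g8 => ?_⟩
  · have g7 : ξ ∈ r.F' ∩ q.F := ⟨g3, h12.hF (r'.sF g4)⟩
    have g8 : α ∈ r.a ∩ q.S := ⟨g5, h12.hS (r'.sa g6)⟩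
    have g9 : ∃ n, (ξ, α, n) ∈ f3.toFinset := ⟨_, f3.mem_toFinset.2 ⟨(ξ, α), ⟨g7, g8⟩, rfl⟩⟩
    rw [h11.hm ξ g7 α g8, dec, dif_pos g9]
    obtain ⟨x, -, e⟩ := f3.mem_toFinset.1 g9.choose_spec
    simp only [Prod.mk.injEq] at e
    rw [← e.2.2, e.1, e.2.1]
  · refine h11.hd ξ ⟨g3.1, h12.hF (r'.sF g3.2)⟩ η ⟨g4.1, h12.hF (r'.sF g4.2)⟩ g5 α g6
      (fun h => g7 h.1) ?_
    rwa [← h13.he ξ (r'.sF g3.2) α (r'.sa g6), ← h13.he η (r'.sF g4.2) α (r'.sa g6)]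
  · exact absurd g8 (h7.hd ξ (h12.hF (r'.sF g3.2)) η (h12.hF (r'.sF g4.2)) g5 α (r.sa g6)
      fun h => g7 (h11.ha ⟨g6, h⟩))

theorem compat {p q : Cd L I} (h1 : p.S = q.S) (h2 : p.a = q.a)
    (h3 : ∀ ξ ∈ p.F, ξ ∈ q.F → ∀ α ∈ p.S, p.e ξ α = q.e ξ α ∧ p.m ξ α = q.m ξ α) :
    ∃ s, le2 s p ∧ le2 s q :=
  amalg (r := ⟨p.F ∪ q.F, p.S, fun ξ α => if ξ ∈ p.F then p.e ξ α else q.e ξ α, ∅, ∅, p.m,
      p.cF.union q.cF, p.cS, finite_empty, finite_empty, empty_subset _, empty_subset _⟩)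
    ⟨subset_union_left, Subset.rfl, fun _ h _ _ => if_pos h, fun _ _ _ _ _ _ h h' => absurd h h'⟩
    ⟨subset_union_right, h1.ge, fun ξ h α h' => by
      show ite _ _ _ = _
      split_ifs with g
      · exact (h3 ξ g h α (h1 ▸ h')).1
      · rfl, fun _ _ _ _ _ _ h h' => absurd (h1 ▸ h) h'⟩
    (fun ξ h h' α g _ => (h3 ξ (p.sF h) (q.sF h') α (p.sa g)).2)
    (fun _ _ _ _ _ _ h h' => absurd (h2 ▸ h) h') fun _ _ _ _ _ _ h h' => absurd (h2 ▸ h) h'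

noncomputable def en {X : Type} [Nonempty X] (s : Set X) : ℕ → X :=
  if h : s.Countable then (countable_iff_exists_subset_range.1 h).choose else
    fun _ => Classical.arbitrary X

theorem en_spec {X : Type} [Nonempty X] {s : Set X} (h : s.Countable) {x : X} (hx : x ∈ s) :
    ∃ n, en s n = x := by
  rw [en, dif_pos h]
  exact (countable_iff_exists_subset_range.1 h).choose_spec hx

theorem en_ext {X : Type} [Nonempty X] {s t a b : Set X} (hs : s.Countable) (ht : t.Countable)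
    (h : en s = en t) (ha : a ⊆ s) (hb : b ⊆ t) (e : {j | en s j ∈ a} = {j | en t j ∈ b}) :
    a = b := by
  ext x
  refine ⟨fun hx => ?_, fun hx => ?_⟩
  · obtain ⟨n, rfl⟩ := en_spec hs (ha hx)
    exact h ▸ e.le hx
  · obtain ⟨n, rfl⟩ := en_spec ht (hb hx)
    exact h ▸ e.ge hx

abbrev Lc (I : Type) := (ℕ → I) × Set ℕ × Set ℕ × (ℕ → ℕ → ℕ) × (ℕ → ℕ → ℕ)

variable [Nonempty L] [Nonempty I]

noncomputable def code (σ : ℕ → L) (p : Cd L I) : Lc I :=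
  (en p.S, {j | en p.S j ∈ p.S}, {j | en p.S j ∈ p.a}, fun i j => p.e (σ i) (en p.S j),
    fun i j => p.m (σ i) (en p.S j))

omit [Nonempty L] in
theorem code_eq {σ : ℕ → L} {p q : Cd L I} (h : code σ p = code σ q) : p.S = q.S ∧ p.a = q.a ∧
    ∀ i, ∀ α ∈ p.S, p.e (σ i) α = q.e (σ i) α ∧ p.m (σ i) α = q.m (σ i) α := by
  simp only [code, Prod.mk.injEq] at h
  obtain ⟨h1, h2, h3, h4, h5⟩ := h
  refine ⟨en_ext p.cS q.cS h1 Subset.rfl Subset.rfl h2, en_ext p.cS q.cS h1 p.sa q.sa h3,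
    fun i α hα => ?_⟩
  obtain ⟨n, rfl⟩ := en_spec p.cS hα
  exact ⟨(congrFun (congrFun h4 i) n).trans (h1 ▸ rfl), (congrFun (congrFun h5 i) n).trans (h1 ▸ rfl)⟩

noncomputable def full (p : Cd L I) : (ℕ → L) × Set ℕ × Set ℕ × Lc I :=
  (en p.F, {j | en p.F j ∈ p.F}, {j | en p.F j ∈ p.F'}, code (en p.F) p)

theorem full_eq {p q : Cd L I} (h : full p = full q) : le2 p q := by
  simp only [full, Prod.mk.injEq] at h
  obtain ⟨h1, h2, h3, h4⟩ := h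
  obtain ⟨h5, h6, h7⟩ := code_eq (h4.trans (show _ = code (en p.F) q by rw [h1]))
  have h8 : ∀ ξ ∈ q.F, ∀ α ∈ q.S, p.e ξ α = q.e ξ α ∧ p.m ξ α = q.m ξ α := fun ξ g α g' => by
    obtain ⟨n, rfl⟩ := en_spec q.cF g
    exact h1 ▸ h7 n α (h5 ▸ g')
  exact ⟨⟨(en_ext p.cF q.cF h1 Subset.rfl Subset.rfl h2).ge, h5.ge, fun ξ g α g' => (h8 ξ g α g').1,
    fun _ _ _ _ _ _ g g' => absurd (h5 ▸ g) g'⟩, (en_ext p.cF q.cF h1 p.sF q.sF h3).ge, h6.ge,
    fun ξ g α g' => (h8 ξ (q.sF g) α (q.sa g')).2, fun _ _ _ _ _ _ g g' => absurd (h6 ▸ g) g'⟩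

abbrev WW (I : Type) := WType fun o : Option (Lc I × ℕ) => {_n : ℕ // o.isSome}

theorem chain_cond (U : Set (Cd L I)) : ∃ c : (ℕ → WW I) × Lc I → Option (Cd L I),
    (∀ i p, c i = some p → p ∈ U) ∧ ∀ p ∈ U, ∃ i p', c i = some p' ∧ ∃ s, le2 s p ∧ le2 s p' := by
  let pick : (ℕ → L) → Lc I → Option (Cd L I) := fun σ l =>
    if h : ∃ p ∈ U, code σ p = l then some h.choose else none
  let ev : WW I → L := WType.elim L fun x => if h : x.1.isSome then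
    (pick (fun n => x.2 ⟨n, h⟩) (x.1.get h).1).elim (Classical.arbitrary L)
      fun p => en p.F (x.1.get h).2 else Classical.arbitrary L
  have : Nonempty (WW I) := ⟨WType.mk none fun x => absurd x.2 (by simp)⟩
  refine ⟨fun i => pick (ev ∘ i.1) i.2, fun i p h => ?_, fun p hp => ?_⟩
  · simp only [pick] at h
    split_ifs at h with g
    exact Option.some.inj h ▸ g.choose_spec.1
  · obtain ⟨σ, hσ⟩ := countable_iff_exists_subset_range.1 (p.cF.mono (inter_subset_left (t := range ev)))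
    have h1 : ∀ n, ∃ w, σ n ∈ range ev → ev w = σ n := fun n => by
      by_cases h : σ n ∈ range ev
      · exact h.imp fun _ e _ => e
      · exact ⟨Classical.arbitrary _, fun g => absurd g h⟩
    choose f hf using h1
    have h2 : ∃ q ∈ U, code (ev ∘ f) q = code (ev ∘ f) p := ⟨p, hp, rfl⟩
    have h3 : pick (ev ∘ f) (code (ev ∘ f) p) = some h2.choose := dif_pos h2
    obtain ⟨h4, h5, h6⟩ := code_eq h2.choose_spec.2.symm
    refine ⟨(f, code (ev ∘ f) p), _, h3, compat h4 h5 fun ξ g g' α hα => ?_⟩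
    obtain ⟨k, hk⟩ := en_spec h2.choose.cF g'
    have h7 : ξ ∈ range ev := ⟨WType.mk (some (code (ev ∘ f) p, k)) fun n => f n.1, by
      show (pick (ev ∘ f) (code (ev ∘ f) p)).elim _ (fun p => en p.F k) = ξ
      rw [h3]; exact hk⟩
    obtain ⟨n, rfl⟩ := hσ ⟨g, h7⟩
    have := h6 n α hα
    rwa [comp_apply, hf n h7] at this

open Cardinal in
theorem exists_nu : ∃ ν : Set (Set ℕ) → (Set ℕ × ℕ) → (ℕ → WW (Set ℕ × ℕ)) × Lc (Set ℕ × ℕ) →
    Option ((ℕ → Set (Set ℕ)) × Set ℕ × Set ℕ × Lc (Set ℕ × ℕ)), Surjective ν := by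
  have h1 : #(Lc (Set ℕ × ℕ)) = continuum := by simp
  have h2 : #(WW (Set ℕ × ℕ)) ≤ continuum := WType.cardinalMk_le_of_le (by
    refine (sum_le_sum _ (fun _ => continuum) fun o => ?_).trans (by simp [h1, add_one_eq aleph0_le_continuum])
    exact (power_le_power_left continuum_ne_zero mk_le_aleph0).trans_eq continuum_power_aleph0)
  have h3 : #((ℕ → WW (Set ℕ × ℕ)) × Lc (Set ℕ × ℕ)) ≤ continuum := by
    rw [mk_prod, lift_id, lift_id, h1, ← power_def, mk_nat]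
    exact (mul_le_mul_left ((power_le_power_right h2).trans_eq continuum_power_aleph0) _).trans_eq
      continuum_mul_self
  have h4 : #(Option ((ℕ → Set (Set ℕ)) × Set ℕ × Set ℕ × Lc (Set ℕ × ℕ))) ≤ 2 ^ continuum := by
    have h5 : continuum ≤ (2 : Cardinal.{0}) ^ continuum := (cantor _).le
    have h6 := aleph0_le_continuum.trans h5
    simp only [mk_option, mk_prod, lift_id, h1, ← power_def, mk_set, mk_nat, two_power_aleph0,
      ← power_mul, continuum_mul_aleph0, continuum_mul_self]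
    rw [mul_eq_left h6 h5 continuum_ne_zero, add_one_eq h6]
  have h5 : #((Set ℕ × ℕ) → (ℕ → WW (Set ℕ × ℕ)) × Lc (Set ℕ × ℕ) →
      Option ((ℕ → Set (Set ℕ)) × Set ℕ × Set ℕ × Lc (Set ℕ × ℕ))) ≤ #(Set (Set ℕ)) := by
    rw [← power_def, ← power_def, ← power_mul]
    refine (power_le_power_right h4).trans ?_
    rw [← power_mul, mk_set, mk_set, mk_nat, two_power_aleph0]
    refine power_le_power_left two_ne_zero ((mul_le_mul_right (mul_le_mul_left h3 _) _).trans ?_)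
    simp
  obtain ⟨f⟩ := (le_def _ _).1 h5
  exact ⟨invFun f, invFun_surjective f.injective⟩

end Pool.Agent.MP_b07c92_gt.Indep

end MrgPart2

-- ======== part 3: formerly Pool.Agent.MP_b07c92_gt.h92.Force1
section MrgPart3

/-! A transitive model of ZFC with the continuum hypothesis in the form `Book`. -/

namespace Pool.Agent.MP_b07c92_gt.Indep

open Pool.Agent.ZF92 Pool.Agent.Forcing92 Function Set
open scoped Classical

set_option linter.unusedSectionVars false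

variable {I : Type} [LinearOrder I]

def le1 (q p : I × (I → ℕ × ℕ → I)) : Prop := p.1 ≤ q.1 ∧ ∀ a < p.1, q.2 a = p.2 a

instance : Pre (le1 (I := I)) where
  refl _ := ⟨le_rfl, fun _ _ => rfl⟩
  trans h h' := ⟨h'.1.trans h.1, fun a ha => (h.2 a (ha.trans_le h'.1)).trans (h'.2 a ha)⟩

theorem le1_dense (hb : ∀ f : ℕ → I, ∃ b, ∀ n, f n < b) {A : ℕ × ℕ → I → I × (I → ℕ × ℕ → I) → Prop}
    (hA : ∀ k b q r, le1 r q → A k b q → A k b r) {p : I × (I → ℕ × ℕ → I)}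
    (h : ∀ k q, le1 q p → ∃ r, le1 r q ∧ ∃ b, A k b r) :
    ∃ q, le1 q p ∧ ∃ a < q.1, ∀ k, q.2 a k < a ∧ A k (q.2 a k) q := by
  have : Nonempty I := ⟨p.1⟩
  choose! F h1 B h2 using h
  let s : ℕ → I × (I → ℕ × ℕ → I) := fun n => Nat.rec p (fun n q => F n.unpair q) n
  have h3 : ∀ n, le1 (s n) p := fun n => by
    induction n with
    | zero => exact lrefl _
    | succ n ih => exact ltrans (h1 _ _ ih) ih
  have h4 : ∀ m n, m ≤ n → le1 (s n) (s m) := fun m n h => by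
    induction h with
    | refl => exact lrefl _
    | step _ ih => exact ltrans (h1 _ _ (h3 _)) ih
  obtain ⟨a, ha⟩ := hb fun n => max (s n).1 (B n.unpair (s n))
  obtain ⟨a', ha'⟩ := hb fun _ => a
  let q : I × (I → ℕ × ℕ → I) := (a', fun x => if h : ∃ n, x < (s n).1 then (s h.choose).2 x else
    fun k => B k (s (Nat.pair k.1 k.2)))
  have h5 : ∀ n, le1 q (s n) := fun n => ⟨((le_max_left _ _).trans (ha n).le).trans (ha' 0).le,
    fun x hx => by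
      have h6 : ∃ n, x < (s n).1 := ⟨n, hx⟩
      simp only [q, dif_pos h6]
      rw [← (h4 _ _ (le_max_left n h6.choose)).2 x hx,
        (h4 _ _ (le_max_right n h6.choose)).2 x h6.choose_spec]⟩
  refine ⟨q, h5 0, a, ha' 0, fun k => ?_⟩
  have h6 : q.2 a k = B k (s (Nat.pair k.1 k.2)) := by
    simp only [q]
    rw [dif_neg fun ⟨n, hn⟩ => hn.not_gt ((le_max_left _ _).trans_lt (ha n))]
  have h7 := h2 k _ (h3 (Nat.pair k.1 k.2))
  have h8 := (le_max_right _ _).trans_lt (ha (Nat.pair k.1 k.2))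
  have h9 := h5 (Nat.pair k.1 k.2 + 1)
  simp only [s, Nat.unpair_pair] at h8 h9
  rw [h6]
  exact ⟨h8, hA _ _ _ _ h9 h7⟩

def R1 (t : I × (I → ℕ × ℕ → I)) (c : I → I → ℕ) (i : I) : ℕ × ℕ × ℕ →
    (ℕ → Name (I × (I → ℕ × ℕ → I))) → Name (I × (I → ℕ × ℕ → I)) → I × (I → ℕ × ℕ → I) → Prop
  | (0, _), _, x, _ => x = relN (chk t : I → _) fun _ _ => True
  | (1, _), _, x, _ => x = relN (prodN t (chk t : I → _) (chk t : I → _)) fun a _ => a.1 < a.2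
  | (2, _), _, x, _ => x = relN (prodN t (prodN t (chk t) (chk t)) (natName t))
      fun a _ => c a.1.1 a.1.2 = a.2
  | (3, _), _, x, _ => x = relN (prodN t (prodN t (chk t) (prodN t (natName t) (natName t))) (chk t))
      fun a p => a.1.1 < p.1 ∧ p.2 a.1.1 a.1.2 = a.2
  | (4, _), _, x, _ => x = chk t t.1
  | (5, _), _, x, _ => x = chk t i
  | (6, k), w, x, p => ∃ a, w 0 = chk t a ∧ a < p.1 ∧ x = chk t (p.2 a k)
  | (_ + 7, _), w, x, p => (∃ k, ∀ r, le1 r p → ∀ b : I,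
      ¬ fMem le1 (prodN t (prodN t (natName t) (natName t)) (chk t) (k, b)) (w 0) r) ∨
      ∃ a, x = chk t a ∧ a < p.1 ∧ ∀ k, p.2 a k < a ∧
        fMem le1 (prodN t (prodN t (natName t) (natName t)) (chk t) (k, p.2 a k)) (w 0) p

theorem exists_book : ∃ (M : Set ZFSet.{0}) (_ : Fact (ZFC M)) (I : Type) (_ : Srt M I) (_ : Sm M I)
    (r : I → I → Prop) (b : I → Fn M ℕ I × PS M ℕ), Book M r b := by
  obtain ⟨I, _, _, _, hc, hb⟩ := exists_omega1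
  choose c hc using fun a => countable_iff_exists_injOn.1 (hc a)
  obtain ⟨i, hi⟩ := hb fun _ => ⊥
  let t : I × (I → ℕ × ℕ → I) := (⊥, fun _ _ => ⊥)
  have ht : ∀ p, le1 p t := fun p => ⟨bot_le, fun a ha => absurd ha not_lt_bot⟩
  obtain ⟨N, G, -, h, h'⟩ := exists_gen_zfc le1 t (R1 t c i) t
  have hM : Fact (ZFC (val N G '' N)) := ⟨h.zfc ht⟩
  have e0 := fin'_emp h.emp_mem
  obtain ⟨_, _, hI⟩ := h.exists_srt (h.vi_chk ht I) (h'.op (0, 0, 0) e0 fun _ _ => Iff.rfl)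
  have hN := h.emb_nat ht
  have vI := h.vi_chk ht I
  have vN := h.vi_nat ht
  have d1 := h.df_ground (h.emb_prod ht hI hI) (h.vi_prod ht vI vI)
    (h'.op (1, 0, 0) e0 fun _ _ => Iff.rfl)
  have d2 := h.df_ground (h.emb_prod ht (h.emb_prod ht hI hI) hN)
    (h.vi_prod ht (h.vi_prod ht vI vI) vN) (h'.op (2, 0, 0) e0 fun _ _ => Iff.rfl)
  have d3 := (h.emb_prod ht (h.emb_prod ht hI (h.emb_prod ht hN hN)) hI).df
    (h.vi_prod ht (h.vi_prod ht vI (h.vi_prod ht vN vN)) vI) (h'.op (3, 0, 0) e0 fun _ _ => Iff.rfl)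
  let i0 : Sub N (chk t : I → _) := ⟨⊥, h'.op (4, 0, 0) e0 fun _ _ => Iff.rfl⟩
  let i1 : Sub N (chk t : I → _) := ⟨i, h'.op (5, 0, 0) e0 fun _ _ => Iff.rfl⟩
  have hne : i0 ≠ i1 := fun e => (hi 0).ne (congrArg Sub.a e)
  obtain ⟨β, dβ, hβ⟩ := exists_choice (R := fun (x : Sub N (chk t : I → _) × ℕ × ℕ)
    (y : Sub N (chk t : I → _)) => ∃ p ∈ G, x.1.a < p.1 ∧ p.2 x.1.a x.2 = y.a) d3 fun x => by
    obtain ⟨r, hr, _, hx, a, h1, h2, rfl⟩ := h'.dense (6, x.2) (h.env1 x.1.mem) (h.top_mem ht)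
      fun q _ => by
        obtain ⟨b, hb⟩ := hb fun n => if n = 0 then q.1 else x.1.a
        exact ⟨(b, q.2), ⟨(hb 0).le, fun _ _ => rfl⟩, _, x.1.a, rfl, hb 1, rfl⟩
    obtain rfl := chk_inj ht h1
    exact ⟨⟨_, hx⟩, r, hr, h2, rfl⟩
  obtain ⟨F, dF, hF⟩ := exists_lam (f := fun a (n : ℕ) => β (a, 0, n)) (by fun_prop)
  refine ⟨_, hM, Sub N (chk t : I → _), inferInstance, inferInstance, fun x y => x.a < y.a,
    fun a => (F a, PS.of _ fun n => β (a, 1, n) = i1), ⟨d1, fun x => lt_irrefl _,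
      fun _ _ _ => lt_trans, fun x y => (lt_trichotomy x.a y.a).imp_right (Or.imp_left Sub.ext),
      fun P _ hP => ?_⟩, fun a => ⟨⟨fun x => c a.a x.a, ?_⟩, fun x y hx hy e => Sub.ext (hc _ hx hy e)⟩,
    by fun_prop, fun u s => ?_, ⟨i0⟩⟩
  · exact (InvImage.wf Sub.a wellFounded_lt).has_min {x | P x} hP
  · exact (DfF.of_graph (f := fun p : Sub N (chk t : I → _) × Sub N (chk t : I → _) =>
      c p.1.a p.2.a) d2).comp (g := fun x => (a, x)) (by fun_prop)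
  · let v : Fn (val N G '' N) (ℕ × ℕ) (Sub N (chk t : I → _)) :=
      ⟨fun k => if k.1 = 0 then u.ap k.2 else if k.2 ∈ s then i1 else i0, by fun_prop⟩
    obtain ⟨τ, hτ, e⟩ := h.exists_name_ps (h.emb_prod ht (h.emb_prod ht hN hN) hI) v.gr
    obtain ⟨r, hr, x, hx, h1⟩ := h'.dense (7, 0, 0) (h.env1 hτ) (h.top_mem ht) fun q _ => by
      by_cases h1 : ∃ r, le1 r q ∧ ∃ k, ∀ r', le1 r' r → ∀ b : I,
        ¬ fMem le1 (prodN t (prodN t (natName t) (natName t)) (chk t) (k, b)) τ r'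
      · obtain ⟨r, h1, h2⟩ := h1
        exact ⟨r, h1, emp, Or.inl h2⟩
      · push Not at h1
        obtain ⟨r, h2, a, h3⟩ := le1_dense hb (A := fun k b => fMem le1
          (prodN t (prodN t (natName t) (natName t)) (chk t) (k, b)) τ)
          (fun k b q r h => fMem_mono h) fun k r h => h1 r h k
        exact ⟨r, h2, _, Or.inr ⟨a, rfl, h3⟩⟩
    rcases h1 with ⟨k, h1⟩ | ⟨a, rfl, h1, h2⟩
    · obtain ⟨p, hp, h2⟩ := (e (k, v.ap k)).1 (Fn.mem_gr.2 rfl)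
      obtain ⟨q, -, h3, h4⟩ := h.dir hr hp
      exact absurd (fMem_mono h4 h2) (h1 q h3 _)
    have h3 : ∀ k, r.2 a k = (β (⟨a, hx⟩, k)).a := fun k => by
      obtain ⟨p, hp, h4, h5⟩ := hβ (⟨a, hx⟩, k)
      obtain ⟨q, -, h6, h7⟩ := h.dir hr hp
      rw [← h5, ← h6.2 a h1, h7.2 a h4]
    have h4 : ∀ k, v.ap k = β (⟨a, hx⟩, k) := fun k =>
      (Fn.mem_gr (p := (k, _))).1 ((e _).2 ⟨r, hr, h3 k ▸ (h2 k).2⟩)
    refine ⟨⟨a, hx⟩, Prod.ext (Fn.ext fun n => ?_) (PS.ext fun n => ?_), fun n => ?_⟩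
    · exact (hF _ n).trans (h4 (0, n)).symm
    · rw [PS.mem_of (by fun_prop), ← h4]
      simp [v, hne]
    · have := (h2 (0, n)).1
      rwa [h3, ← h4] at this

end Pool.Agent.MP_b07c92_gt.Indep

end MrgPart3

-- ======== part 4: formerly Pool.Agent.MP_b07c92_gt.h92.Main
section MrgPart4

-- ======== part 0: formerly Pool.Agent.MP_b07c92_gt.h92.Pos
section MrgPart0

/-! Under the continuum hypothesis compact images of `C_p(K)`, `K` left-separated, are metrizable. -/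

namespace Pool.Agent.MP_b07c92_gt.Indep

open Pool.Agent.ZF92 Function Set
open scoped Classical

set_option linter.unusedSectionVars false

universe u v w

variable {M : Set ZFSet.{0}} [hM : Fact (ZFC M)]
variable {K : Type u} [Srt M K] [Sm M K] [TopologicalSpace K] [DTop M K] [T2Space K]
variable {I : Type v} [Srt M I] [Sm M I]
variable {Y : Type w} [Srt M Y] [Sm M Y] [TopologicalSpace Y] [DTop M Y]

theorem closed_of_cluster {rK : K → K → Prop} (hr : MWO M rK) (hcl : ∀ x, IsClosed {y | rK y x})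
    {A : K → Prop} (dA : DfF M A) (h : ∀ u : ℕ → K, DfF M u → (∀ n, A (u n)) →
      ∃ z, A z ∧ ∀ N, z ∈ closure {x | ∃ n, N ≤ n ∧ u n = x}) : IsClosed {x | A x} := by
  refine closure_subset_iff_isClosed.1 fun x hx => by_contra fun hn => ?_
  have : Nonempty K := ⟨x⟩
  have dr := hr.df
  obtain ⟨am, dam, ham⟩ := exists_choice' (M := M) (R := fun (U : PS M K) a =>
    (a ∈ closure {z | z ∈ U} ∧ A a) ∧ ∀ y, y ∈ closure {z | z ∈ U} ∧ A y → ¬ rK y a)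
    (by simp only [all_iff, imp_iff]; fun_prop)
  have ham' : ∀ U : PS M K, IsOpen (U : Set K) → x ∈ U → (am U ∈ closure {z | z ∈ U} ∧ A (am U)) ∧
      ∀ y, y ∈ closure {z | z ∈ U} ∧ A y → ¬ rK y (am U) := fun U hU hxU => by
    obtain ⟨y, h1, h2⟩ := mem_closure_iff.1 hx _ hU hxU
    obtain ⟨a, ha⟩ := hr.min (fun a => a ∈ closure {z | z ∈ U} ∧ A a) (by fun_prop)
      ⟨y, subset_closure h1, h2⟩
    exact ham U a ha
  obtain ⟨nx, dnx, hnx⟩ := exists_choice (M := M) (R := fun (U U' : PS M K) =>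
    IsOpen (U : Set K) ∧ x ∈ U → (IsOpen (U' : Set K) ∧ x ∈ U') ∧ (∀ y ∈ U', y ∈ U) ∧
      am U ∉ closure {z | z ∈ U'}) (by simp only [all_iff, imp_iff]; fun_prop) fun U => by
    by_cases hU : IsOpen (U : Set K) ∧ x ∈ U
    · obtain ⟨u, v, hu, hv, h1, h2, h3⟩ := t2_separation
        (show x ≠ am U from fun e => hn (e ▸ (ham' U hU.1 hU.2).1.2))
      obtain ⟨U', h4, h5, h6⟩ := exists_ps_nhds (M := M) (hu.inter hU.1) ⟨h1, hU.2⟩
      refine ⟨U', fun _ => ⟨⟨h4, h5⟩, fun y hy => (h6 y hy).2, fun h7 => ?_⟩⟩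
      obtain ⟨y, h8, h9⟩ := mem_closure_iff.1 h7 v hv h2
      exact disjoint_left.1 h3 (h6 y h9).1 h8
    · exact ⟨U, fun h' => absurd h' hU⟩
  obtain ⟨U0, h0, h0', -⟩ := exists_ps_nhds (M := M) isOpen_univ (mem_univ x)
  let U : ℕ → PS M K := fun n => nx^[n] U0
  have dU : DfF M U := dnx.iterate _
  have hU : ∀ n, U (n + 1) = nx (U n) := fun n => iterate_succ_apply' nx n _
  have hO : ∀ n, IsOpen (U n : Set K) ∧ x ∈ U n := by
    intro n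
    induction n with
    | zero => exact ⟨h0, h0'⟩
    | succ n ih => rw [hU]; exact (hnx _ ih).1
  have hm : ∀ m n, m ≤ n → ∀ y ∈ U n, y ∈ U m := by
    intro m n h
    induction h with
    | refl => exact fun _ h => h
    | step _ ih => exact fun y hy => ih y ((hnx _ (hO _)).2.1 y (hU _ ▸ hy))
  obtain ⟨z, hz, hzc⟩ := h (fun n => am (U n)) (by fun_prop)
    fun n => (ham' _ (hO n).1 (hO n).2).1.2
  have h1 : ∀ n, z ∈ closure {y | y ∈ U n} := fun n =>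
    closure_minimal (by
      rintro _ ⟨m, hm', rfl⟩
      exact closure_mono (hm n m hm') (ham' _ (hO m).1 (hO m).2).1.1) isClosed_closure (hzc n)
  have h2 : ∀ n, rK (am (U n)) z := fun n => by
    rcases hr.tri (am (U n)) z with h3 | h3 | h3
    · exact h3
    · exact absurd (h3 ▸ hU n ▸ h1 (n + 1)) (hnx _ (hO n)).2.2
    · exact absurd h3 ((ham' _ (hO n).1 (hO n).2).2 z ⟨h1 n, hz⟩)
  exact hr.irr z (closure_minimal (by rintro _ ⟨m, -, rfl⟩; exact h2 m) (hcl z) (hzc 0))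

theorem exists_enum_closed {r : I → I → Prop} {b : I → Fn M ℕ I × PS M ℕ} (hb : Book M r b)
    (hK : MCpt M K) [Nonempty K] {rK : K → K → Prop} (hr : MWO M rK)
    (hcl : ∀ x, IsClosed {y | rK y x}) {A : I → PS M K} (dA : DfF M A)
    (hA : ∀ a, Ctb M (fun x => x ∈ A a)) : ∃ e : I → K, DfF M e ∧
      (∀ a, ∀ x ∈ A a, ∃ c, e c = x) ∧ IsClosed {x | ∃ c, e c = x} := by
  have db := hb.db
  obtain ⟨c, dc, hc⟩ := exists_choice (M := M) (R := fun a (c : Fn M K ℕ) =>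
    ∀ x y, x ∈ A a → y ∈ A a → c.ap x = c.ap y → x = y)
    (by simp only [all_iff, imp_iff]; fun_prop) hA
  obtain ⟨e, de, he⟩ := hb.wo.exists_rec (Y := K) (R := fun a F z =>
    ((∀ n, n ∉ (b a).2) → ∀ N, z ∈ closure {x | ∃ n, N ≤ n ∧ F.ap ((b a).1.ap n) = x}) ∧
      ∀ x ∈ A ((b a).1.ap 0), (∀ n, n ∈ (b a).2 ↔ n = (c ((b a).1.ap 0)).ap x) → z = x)
    (by simp only [all_iff, imp_iff]; fun_prop) fun a F => by
      by_cases h : ∃ x ∈ A ((b a).1.ap 0), ∀ n, n ∈ (b a).2 ↔ n = (c ((b a).1.ap 0)).ap x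
      · obtain ⟨x, hx, h⟩ := h
        exact ⟨x, fun h' => absurd ((h _).2 rfl) (h' _), fun y hy h' =>
          hc _ _ _ hx hy ((h' _).1 ((h _).2 rfl))⟩
      · obtain ⟨z, hz⟩ := hK.exists_cluster (u := fun n => F.ap ((b a).1.ap n)) (by fun_prop)
        exact ⟨z, fun _ => hz, fun x hx h' => absurd ⟨x, hx, h'⟩ h⟩
  refine ⟨e, de, fun a x hx => ?_, closed_of_cluster hr hcl (by fun_prop) fun u du hu => ?_⟩
  · obtain ⟨a', ha', -⟩ := hb.surj ⟨fun _ => a, by fun_prop⟩ (PS.of M fun n => n = (c a).ap x)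
    obtain ⟨F, -, -, h⟩ := he a'
    rw [ha'] at h
    exact ⟨a', h x hx fun n => PS.mem_of (by fun_prop)⟩
  · obtain ⟨t, dt, ht⟩ := exists_choice (M := M) (R := fun n c => e c = u n) (by fun_prop) hu
    obtain ⟨a', ha', hlt⟩ := hb.surj ⟨t, dt⟩ (PS.of M fun _ => False)
    obtain ⟨F, hF, h, -⟩ := he a'
    rw [ha'] at h
    refine ⟨e a', ⟨a', rfl⟩, fun N => ?_⟩
    have := h (fun n hn => (PS.mem_of (P := fun _ => False) (by fun_prop)).1 hn) N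
    have e1 : ∀ n, F.ap (t n) = u n := fun n => (hF _ (hlt n)).trans (ht n)
    simpa only [Fn.ap_mk, e1] using this

theorem sep_finite (hK : MCpt M K) {sp : K × K → PS M K × PS M K} (dsp : DfF M sp)
    (hsp : ∀ a b, a ≠ b → IsOpen ((sp (a, b)).1 : Set K) ∧ IsOpen ((sp (a, b)).2 : Set K) ∧
      a ∈ (sp (a, b)).1 ∧ b ∈ (sp (a, b)).2 ∧ ∀ x ∈ (sp (a, b)).1, x ∉ (sp (a, b)).2)
    {F0 F1 : K → Prop} (d0 : DfF M F0) (d1 : DfF M F1) (h0 : IsClosed {x | F0 x})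
    (h1 : IsClosed {x | F1 x}) (hd : ∀ x, F0 x → ¬ F1 x) :
    ∃ R : Finset (K × K), (∀ p ∈ R, (F0 p.1 ∨ F1 p.1) ∧ F1 p.2) ∧
      (∀ x, F0 x → ∀ b, (b, b) ∈ R → ∃ a, a ≠ b ∧ (a, b) ∈ R ∧ x ∈ (sp (a, b)).1) ∧
      ∀ x, F1 x → ¬ ∀ b, (b, b) ∈ R → ∃ a, a ≠ b ∧ (a, b) ∈ R ∧ x ∈ (sp (a, b)).1 := by
  have hne : ∀ a b, F0 a → F1 b → a ≠ b := fun a b ha hb e => hd a ha (e ▸ hb)
  obtain ⟨s, ds, hs⟩ := exists_choice (M := M) (R := fun b (s : Finset K) =>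
    F1 b → ∀ y, F0 y → ∃ a ∈ s, F0 a ∧ y ∈ (sp (a, b)).1)
    (by simp only [all_iff, imp_iff]; fun_prop) fun b => by
    by_cases hb : F1 b
    · obtain ⟨s, hs⟩ := hK.subcover d0 h0 (U := fun a y => F0 a ∧ y ∈ (sp (a, b)).1)
        (by fun_prop) (fun a => by
          by_cases ha : F0 a
          · simpa [ha] using (hsp a b (hne a b ha hb)).1
          · simp [ha]) fun y hy => ⟨y, hy, (hsp y b (hne y b hy hb)).2.2.1⟩
      exact ⟨s, fun _ => hs⟩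
    · exact ⟨∅, fun h => absurd h hb⟩
  obtain ⟨E, hE⟩ := hK.subcover d1 h1
    (U := fun b y => F1 b ∧ ∀ a ∈ s b, F0 a → y ∈ (sp (a, b)).2)
    (by simp only [all_iff, imp_iff]; fun_prop) (fun b => by
      by_cases hb : F1 b
      · have : {y | F1 b ∧ ∀ a ∈ s b, F0 a → y ∈ (sp (a, b)).2} =
            ⋂ a ∈ (s b).filter F0, ((sp (a, b)).2 : Set K) := by
          ext y; simp [hb]
        rw [this]
        exact isOpen_biInter_finset fun a ha =>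
          (hsp a b (hne a b (Finset.mem_filter.1 ha).2 hb)).2.1
      · simp [hb]) fun y hy => ⟨y, hy, fun a _ ha => (hsp a y (hne a y ha hy)).2.2.2.1⟩
  have hR : ∀ a b, (a, b) ∈ (E.filter F1).biUnion
      (fun b => insert (b, b) (((s b).filter F0).image fun a => (a, b))) ↔
      (b ∈ E ∧ F1 b) ∧ (a = b ∨ (a ∈ s b ∧ F0 a)) := fun a b => by
    simp only [Finset.mem_biUnion, Finset.mem_filter, Finset.mem_insert, Finset.mem_image,
      Prod.mk.injEq]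
    constructor
    · rintro ⟨c, hc, ⟨rfl, rfl⟩ | ⟨a', ha', rfl, rfl⟩⟩
      · exact ⟨hc, Or.inl rfl⟩
      · exact ⟨hc, Or.inr ha'⟩
    · rintro ⟨hb, rfl | ha⟩
      · exact ⟨a, hb, Or.inl ⟨rfl, rfl⟩⟩
      · exact ⟨b, hb, Or.inr ⟨a, ha, rfl, rfl⟩⟩
  generalize (E.filter F1).biUnion
      (fun b => insert (b, b) (((s b).filter F0).image fun a => (a, b))) = R at hR
  refine ⟨R, fun ⟨a, b⟩ hp => ?_, fun x hx b hb => ?_, fun x hx h => ?_⟩
  · obtain ⟨h2, h3⟩ := (hR a b).1 hp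
    exact ⟨h3.elim (fun e => Or.inr (e ▸ h2.2)) fun h => Or.inl h.2, h2.2⟩
  · obtain ⟨h2, -⟩ := (hR b b).1 hb
    obtain ⟨a, h3, h4, h5⟩ := hs b h2.2 x hx
    exact ⟨a, hne a b h4 h2.2, (hR a b).2 ⟨h2, Or.inr ⟨h3, h4⟩⟩, h5⟩
  · obtain ⟨b, hb, h2, h3⟩ := hE x hx
    obtain ⟨a, h4, h5, h6⟩ := h b ((hR b b).2 ⟨⟨hb, h2⟩, Or.inl rfl⟩)
    obtain ⟨h7, h8⟩ := ((hR a b).1 h5).2.resolve_left h4
    exact (hsp a b h4).2.2.2.2 x h6 (h3 a h7 h8)

theorem count_traces {r : I → I → Prop} {b : I → Fn M ℕ I × PS M ℕ} (hb : Book M r b)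
    (hK : MCpt M K) {e : I → K} (de : DfF M e) (he : IsClosed {x | ∃ c, e c = x}) :
    ∃ f : I → Cp M K, DfF M f ∧ ∀ g : Cp M K, ∃ a, ∀ c, g.ev (e c) = (f a).ev (e c) := by
  have db := hb.db
  have := hb.ne
  have : Nonempty K := ⟨e (Classical.arbitrary I)⟩
  obtain ⟨sp, dsp, hsp⟩ := exists_choice (M := M) (R := fun (p : K × K) (q : PS M K × PS M K) =>
    p.1 ≠ p.2 → IsOpen (q.1 : Set K) ∧ IsOpen (q.2 : Set K) ∧ p.1 ∈ q.1 ∧ p.2 ∈ q.2 ∧
      ∀ x ∈ q.1, x ∉ q.2) (by simp only [all_iff, imp_iff]; fun_prop) fun p => by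
    by_cases h : p.1 = p.2
    · exact ⟨(PS.of M fun _ => False, PS.of M fun _ => False), fun h' => absurd h h'⟩
    · obtain ⟨u, v, hu, hv, h1, h2, h3⟩ := t2_separation h
      obtain ⟨U, h4, h5, h6⟩ := exists_ps_nhds (M := M) hu h1
      obtain ⟨V, h7, h8, h9⟩ := exists_ps_nhds (M := M) hv h2
      exact ⟨(U, V), fun _ => ⟨h4, h7, h5, h8, fun x hx hx' =>
        disjoint_left.1 h3 (h6 x hx) (h9 x hx')⟩⟩
  obtain ⟨κ, hκ⟩ := (Ctb.prod (Ctb.rat (M := M) fun _ => True) (Ctb.rat fun _ => True)).prod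
    (Ctb.prod (Ctb.nat fun _ => True) (Ctb.nat fun _ => True))
  let C : I → ℚ × ℚ → K → K → Prop := fun a q x y => ∃ n m, κ.ap (q, n, m) ∈ (b a).2 ∧
    x = e ((b a).1.ap n) ∧ y = e ((b a).1.ap m)
  let S : I → ℚ × ℚ → K → Prop := fun a q x => ∀ y, C a q y y →
    ∃ z, z ≠ y ∧ C a q z y ∧ x ∈ (sp (z, y)).1
  let H : I → Cp M K → Prop := fun a f => ∀ q : ℚ × ℚ, q.1 < q.2 → ∀ c,
    (f.ev (e c) ≤ q.1 → S a q (e c)) ∧ ((q.2 : ℝ) ≤ f.ev (e c) → ¬ S a q (e c))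
  obtain ⟨f, df, hf⟩ := exists_choice' (M := M) (R := H)
    (by simp only [H, S, C, all_iff, imp_iff]; fun_prop)
  refine ⟨f, df, fun g => ?_⟩
  suffices h : ∃ a, H a g by
    obtain ⟨a, ha⟩ := h
    have key : ∀ f1 f2, H a f1 → H a f2 → ∀ c, f1.ev (e c) ≤ f2.ev (e c) := fun f1 f2 h1 h2 c => by
      by_contra hn
      obtain ⟨q, h3, h4⟩ := exists_rat_btwn (not_le.1 hn)
      obtain ⟨q', h5, h6⟩ := exists_rat_btwn h4
      have h7 : q < q' := by exact_mod_cast h5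
      exact (h1 (q, q') h7 c).2 h6.le ((h2 (q, q') h7 c).1 h3.le)
    exact ⟨a, fun c => le_antisymm (key _ _ ha (hf a g ha) c) (key _ _ (hf a g ha) ha c)⟩
  obtain ⟨ρ, dρ, hρ⟩ := exists_choice (M := M) (R := fun (q : ℚ × ℚ) (R : Finset (K × K)) =>
    (∀ p ∈ R, (∃ c, e c = p.1) ∧ ∃ c, e c = p.2) ∧ (q.1 < q.2 → ∀ c,
      (g.ev (e c) ≤ q.1 → ∀ y, (y, y) ∈ R → ∃ z, z ≠ y ∧ (z, y) ∈ R ∧ e c ∈ (sp (z, y)).1) ∧
      ((q.2 : ℝ) ≤ g.ev (e c) →
        ¬ ∀ y, (y, y) ∈ R → ∃ z, z ≠ y ∧ (z, y) ∈ R ∧ e c ∈ (sp (z, y)).1)))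
    (by simp only [all_iff, imp_iff]; fun_prop) fun q => by
    by_cases hq : q.1 < q.2
    · have hq' : (q.1 : ℝ) < q.2 := by exact_mod_cast hq
      obtain ⟨R, h1, h2, h3⟩ := sep_finite hK dsp (fun a b h => hsp (a, b) h)
        (F0 := fun x => (∃ c, e c = x) ∧ g.ev x ≤ q.1)
        (F1 := fun x => (∃ c, e c = x) ∧ (q.2 : ℝ) ≤ g.ev x) (by fun_prop) (by fun_prop)
        (he.inter (isClosed_le g.continuous continuous_const))
        (he.inter (isClosed_le continuous_const g.continuous)) fun x h h' => by linarith [h.2, h'.2]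
      exact ⟨R, fun p hp => ⟨(h1 p hp).1.elim And.left And.left, (h1 p hp).2.1⟩,
        fun _ c => ⟨fun h => h2 _ ⟨⟨c, rfl⟩, h⟩, fun h => h3 _ ⟨⟨c, rfl⟩, h⟩⟩⟩
    · exact ⟨∅, by simp, fun h => absurd h hq⟩
  obtain ⟨y, dy, hy⟩ := Ctb.exists_enum (M := M)
    (A := fun x : K => ∃ q : ℚ × ℚ, (True ∧ True) ∧ ∃ p ∈ ρ q, x = p.1 ∨ x = p.2) (by fun_prop)
    (Ctb.biUnion (by fun_prop) (Ctb.prod (Ctb.rat fun _ => True) (Ctb.rat fun _ => True))
      (by fun_prop) fun q _ => Ctb.of_finite ((((ρ q).finite_toSet.image Prod.fst).union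
        ((ρ q).finite_toSet.image Prod.snd)).subset fun x ⟨p, hp, h⟩ =>
          h.imp (fun h => ⟨p, hp, h.symm⟩) fun h => ⟨p, hp, h.symm⟩))
  obtain ⟨t, dt, ht⟩ := exists_choice' (M := M) (R := fun n c => e c = y n) (by fun_prop)
  obtain ⟨a, ha, -⟩ := hb.surj ⟨t, dt⟩ (PS.of M fun k => ∃ q n m, k = κ.ap (q, n, m) ∧
    (e (t n), e (t m)) ∈ ρ q)
  have hC : ∀ q x z, C a q x z ↔ (x, z) ∈ ρ q := fun q x z => by
    simp only [C, ha, Fn.ap_mk]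
    constructor
    · rintro ⟨n, m, h, rfl, rfl⟩
      obtain ⟨q', n', m', h1, h2⟩ := (PS.mem_of (by fun_prop)).1 h
      obtain ⟨rfl, rfl, rfl⟩ : q = q' ∧ n = n' ∧ m = m' := by
        simpa using hκ _ _ (by simp) (by simp) h1
      exact h2
    · intro h
      obtain ⟨n, hn⟩ := hy x ⟨q, by simp, _, h, Or.inl rfl⟩
      obtain ⟨m, hm⟩ := hy z ⟨q, by simp, _, h, Or.inr rfl⟩
      obtain ⟨⟨c, hc⟩, ⟨c', hc'⟩⟩ := (hρ q).1 _ h
      have e1 := (ht n c (hc.trans hn.symm)).trans hn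
      have e2 := (ht m c' (hc'.trans hm.symm)).trans hm
      exact ⟨n, m, (PS.mem_of (by fun_prop)).2 ⟨q, n, m, rfl, by rwa [e1, e2]⟩, e1.symm, e2.symm⟩
  exact ⟨a, fun q hq c => by simpa only [S, hC] using (hρ q).2 hq c⟩

theorem metr_of_sep (hY : MCpt M Y) {u : ℕ → Cp M Y} (du : DfF M u)
    (hu : ∀ y z, y ≠ z → ∃ n, (u n).ev y ≠ (u n).ev z) : MMetr M Y := by
  let t : Y → Y → ℕ → ℝ := fun y z n => min ((1 / (n + 1) : ℚ) : ℝ) |(u n).ev y - (u n).ev z|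
  have hpos : ∀ n : ℕ, (0 : ℝ) < ((1 / (n + 1) : ℚ) : ℝ) := fun n => by positivity
  have hbd : ∀ y z, BddAbove (range (t y z)) := fun y z => ⟨1, by
    rintro _ ⟨n, rfl⟩
    refine (min_le_left _ _).trans ?_
    push_cast
    rw [div_le_one (by positivity)]
    linarith [Nat.cast_nonneg (α := ℝ) n]⟩
  have h0 : ∀ y z n, 0 ≤ t y z n := fun y z n => le_min (hpos n).le (abs_nonneg _)
  have hle : ∀ y z n, t y z n ≤ ⨆ n, t y z n := fun y z n => le_ciSup (hbd y z) n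
  refine ⟨fun y z => ⨆ n, t y z n, DfR.iSup (F := fun (p : Y × Y) n => t p.1 p.2 n)
    (by simp only [t]; fun_prop) fun p => hbd _ _, fun y z => ⟨fun h => ?_, ?_⟩,
    fun y z => by simp only [t, abs_sub_comm], fun x y z => ciSup_le fun n => ?_,
    fun V => ⟨fun hV y hy => ?_, fun h => isOpen_iff_forall_mem_open.2 fun y hy => ?_⟩⟩
  · by_contra hne
    obtain ⟨n, hn⟩ := hu y z hne
    exact absurd (h ▸ hle y z n) (not_le.2 (lt_min (hpos n) (abs_pos.2 (sub_ne_zero.2 hn))))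
  · rintro rfl
    simp only [t, sub_self, abs_zero, min_eq_right (hpos _).le, ciSup_const]
  · refine le_trans ?_ (add_le_add (hle x y n) (hle y z n))
    have h1 := abs_sub_le ((u n).ev x) ((u n).ev y) ((u n).ev z)
    have h2 := abs_nonneg ((u n).ev x - (u n).ev y)
    have h3 := abs_nonneg ((u n).ev y - (u n).ev z)
    have h4 := hpos n
    simp only [t, min_def]
    split_ifs <;> linarith
  · obtain ⟨s, hs⟩ := hY.subcover (F := fun z => z ∉ V) (by fun_prop) hV.isClosed_compl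
      (U := fun (k : ℕ) z => ∃ n, ((1 / (k + 1) : ℚ) : ℝ) < t y z n)
      (by simp only [t]; fun_prop) (fun k => by
        rw [ofPred_exists]
        exact isOpen_iUnion fun n => isOpen_lt continuous_const
          (by have := (u n).continuous; simp only [t]; fun_prop)) fun z hz => by
        obtain ⟨n, hn⟩ := hu y z fun e => hz (e ▸ hy)
        obtain ⟨k, hk⟩ := exists_nat_one_div_lt (lt_min (hpos n) (abs_pos.2 (sub_ne_zero.2 hn)))
        exact ⟨k, n, by push_cast at hk ⊢; simpa only [t, Rat.cast_div, Rat.cast_one, Rat.cast_add, Rat.cast_natCast] using hk⟩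
    refine ⟨1 / ((s.sup id : ℕ) + 1), by positivity, fun z hz => by_contra fun hn => ?_⟩
    obtain ⟨k, hk, n, h⟩ := hs z hn
    refine absurd (h.trans_le ((hle y z n).trans hz.le)) (not_lt.2 ?_)
    push_cast
    exact Nat.one_div_le_one_div (Finset.le_sup (f := id) hk)
  · obtain ⟨ε, hε, h⟩ := h y hy
    have hε' : (0 : ℝ) < ε := by exact_mod_cast hε
    obtain ⟨N, hN⟩ := exists_nat_one_div_lt (half_pos hε')
    refine ⟨⋂ n ∈ Finset.range N, {z | |(u n).ev y - (u n).ev z| < ε / 2}, fun z hz => h z ?_,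
      isOpen_biInter_finset fun n _ => isOpen_lt (by have := (u n).continuous; fun_prop)
        continuous_const, by simp [hε']⟩
    refine lt_of_le_of_lt (ciSup_le fun n => ?_) (half_lt_self hε')
    by_cases hn : n < N
    · exact (min_le_right _ _).trans (mem_iInter₂.1 hz n (Finset.mem_range.2 hn)).le
    · refine (min_le_left _ _).trans (le_trans ?_ hN.le)
      push_cast
      exact Nat.one_div_le_one_div (not_lt.1 hn)

theorem metrizable_of [T2Space Y] {r : I → I → Prop} {b : I → Fn M ℕ I × PS M ℕ} (hb : Book M r b)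
    (hK' : MTych M K) (hkey : ∀ (A : I → PS M K) (F : Fn M I Prop → Cp M K), Nonempty K →
      DfF M A → DfF M F → (∀ a, Ctb M fun x => x ∈ A a) → ∃ s t a,
        (∀ x ∈ A a, (F s).ev x = (F t).ev x) ∧ s.ap a ∧ ¬ t.ap a)
    (hY : MCpt M Y) (hY' : MTych M Y) {Φ : Cp M K → Y}
    (dΦ : DfF M Φ) (hΦ : Continuous Φ) (hs : Surjective Φ) : MMetr M Y := by
  have hc : ∀ i : Cp M Y, Continuous fun f => i.ev (Φ f) := fun i => i.continuous.comp hΦ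
  rcases dichotomy hK' hb (Z := Cp M Y) (L := fun i f => i.ev (Φ f) < 0)
    (R := fun i f => 1 < i.ev (Φ f)) (by fun_prop) (by fun_prop) with ⟨W, p, dp, hp, hd⟩ | ⟨A, hA, h⟩
  · exfalso
    have := hb.ne
    have : Nonempty K := by
      by_contra hn
      obtain ⟨h1, h2, ⟨f, h3, h4⟩, ⟨g, h5, h6⟩, -⟩ := hp (Classical.arbitrary I)
      obtain rfl : f = g := Cp.ext fun x => absurd ⟨x⟩ hn
      linarith [h1 f h3 h4, h2 f h5 h6]
    obtain ⟨A, dA, hA⟩ := exists_choice (M := M) (R := fun a (A : PS M K) =>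
      Ctb M (fun x => x ∈ A) ∧ ∀ f g : Cp M K, (∀ x ∈ A, f.ev x = g.ev x) →
        (p a).1.ev (Φ f) < ((1 / 2 : ℚ) : ℝ) → ¬ ((1 / 2 : ℚ) : ℝ) < (p a).1.ev (Φ g))
      (by simp only [all_iff, imp_iff]; fun_prop) fun a =>
      control hK' hb (by fun_prop) (hc (p a).1) (1 / 2)
    obtain ⟨F, dF, hF⟩ := exists_choice (M := M) (R := fun (s : Fn M I Prop) (f : Cp M K) =>
      ∀ a, (s.ap a → 1 ≤ (p a).1.ev (Φ f)) ∧ (¬ s.ap a → (p a).1.ev (Φ f) ≤ 0))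
      (by simp only [all_iff, imp_iff]; fun_prop) fun s => by
      obtain ⟨y, hy⟩ : ∃ y, ∀ a, (s.ap a → 1 ≤ (p a).1.ev y) ∧ (¬ s.ap a → (p a).1.ev y ≤ 0) := by
        by_contra hn
        obtain ⟨u, hu⟩ := hY.subcover (F := fun _ => True) (by fun_prop) isClosed_univ
          (U := fun a y => (s.ap a ∧ (p a).1.ev y < 1) ∨ (¬ s.ap a ∧ 0 < (p a).1.ev y))
          (by fun_prop) (fun a => by
            by_cases h : s.ap a
            · simpa [h] using isOpen_lt (p a).1.continuous continuous_const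
            · simpa [h] using isOpen_lt continuous_const (p a).1.continuous) fun y _ => by
            by_contra hn'
            push Not at hn'
            exact hn ⟨y, hn'⟩
        obtain ⟨f, hf⟩ := realize hK' hp hd s.ap u
        obtain ⟨a, ha, h | h⟩ := hu (Φ f) trivial
        · exact absurd ((hf a ha).1 h.1) h.2.not_gt
        · exact absurd ((hf a ha).2 h.1) h.2.not_gt
      obtain ⟨f, rfl⟩ := hs y
      exact ⟨f, hy⟩
    obtain ⟨s, t, a, h1, h2, h3⟩ := hkey A F this dA dF fun a => (hA a).1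
    refine (hA a).2 (F t) (F s) (fun x hx => (h1 x hx).symm) ?_ ?_
    · push_cast
      linarith [(hF t a).2 h3]
    · push_cast
      linarith [(hF s a).1 h2]
  · have h1 : ∀ (i : Cp M Y) f, 1 < i.ev (Φ f) → ∃ W : Box K, (∀ t ∈ W, t.1 ∈ A ∧ True) ∧ In W f ∧
        ∀ g, In W g → 0 ≤ i.ev (Φ g) := fun i f hf => by
      obtain ⟨B', hB', hV'⟩ := exists_box (isOpen_lt continuous_const (hc i)) hf
      refine ⟨B'.filter fun t => t.1 ∈ A, fun t ht => ⟨(Finset.mem_filter.1 ht).2, trivial⟩,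
        fun t ht => hB' t (Finset.mem_filter.1 ht).1, fun g hg => not_lt.1 fun hlt => ?_⟩
      obtain ⟨B, hB, hV⟩ := exists_box (isOpen_lt (hc i) continuous_const) hlt
      exact h i B B' hV hV' g f g hB hB' (fun t ht => hB t (Finset.mem_filter.1 ht).1) hg
    let N : Box K → Y → Prop := fun W y => y ∈ closure {z | ∃ g, In W g ∧ Φ g = z}
    obtain ⟨σ, dσ, hσ⟩ := exists_choice (M := M)
      (R := fun (q : Box K × Box K) (s : Finset (Cp M Y)) => (∀ z, N q.1 z → ¬ N q.2 z) →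
        ∀ z z', N q.1 z → N q.2 z' → ∃ u ∈ s, u.ev z ≠ u.ev z')
      (by simp only [N, all_iff, imp_iff]; fun_prop) fun q => by
      by_cases hq : ∀ z, N q.1 z → ¬ N q.2 z
      · obtain ⟨s, hs⟩ := hY.subcover (F := N q.1) (by simp only [N]; fun_prop) isClosed_closure
          (U := fun (u : Cp M Y) z => (∀ z', N q.2 z' → u.ev z' = 1) ∧ u.ev z < 1)
          (by simp only [N, all_iff, imp_iff]; fun_prop) (fun u => by
            by_cases h : ∀ z', N q.2 z' → u.ev z' = 1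
            · simpa [eq_true h] using isOpen_lt u.continuous continuous_const
            · simp [eq_false h]) fun z hz => by
            obtain ⟨u, h0, h1⟩ := hY' _ isClosed_closure.isOpen_compl z (hq z hz)
            exact ⟨u, fun z' hz' => h1 z' (not_not.2 hz'), by simp [h0]⟩
        refine ⟨s, fun _ z z' hz hz' => ?_⟩
        obtain ⟨u, hu, h2, h3⟩ := hs z hz
        exact ⟨u, hu, (h2 z' hz').symm ▸ h3.ne⟩
      · exact ⟨∅, fun h => absurd h hq⟩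
    have hB : Ctb M fun W : Box K => ∀ t ∈ W, t.1 ∈ A ∧ True :=
      Ctb.finset (A := fun t : K × ℚ × ℚ => t.1 ∈ A ∧ True) (by fun_prop)
        (Ctb.prod (B := fun _ => True) hA ((Ctb.prod (Ctb.rat fun _ => True)
          (Ctb.rat fun _ => True)).mono fun _ _ => ⟨trivial, trivial⟩))
    obtain ⟨u, du, hu⟩ := Ctb.exists_enum (M := M) (A := fun u : Cp M Y => ∃ q : Box K × Box K,
      ((∀ t ∈ q.1, t.1 ∈ A ∧ True) ∧ ∀ t ∈ q.2, t.1 ∈ A ∧ True) ∧ u ∈ σ q)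
      (by simp only [all_iff, imp_iff]; fun_prop)
      (Ctb.biUnion (by simp only [all_iff, imp_iff]; fun_prop) (hB.prod hB) (by fun_prop)
        fun q _ => Ctb.of_finite (σ q).finite_toSet)
    refine metr_of_sep hY du fun y y' hne => ?_
    obtain ⟨v, hv0, hv1⟩ := hY' _ (isClosed_singleton (x := y)).isOpen_compl y' hne.symm
    have hy := hv1 y (by simp)
    obtain ⟨f, rfl⟩ := hs y
    obtain ⟨f', rfl⟩ := hs y'
    have hv := v.continuous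
    obtain ⟨i, hi⟩ := exists_cp (M := M) (φ := fun z => ((5 : ℚ) : ℝ) * v.ev z - ((3 : ℚ) : ℝ))
      (DfR.sub (DfR.rat_mul (q := fun _ => 5) (by fun_prop) (by fun_prop)) (by fun_prop))
      (by fun_prop)
    obtain ⟨i', hi'⟩ := exists_cp (M := M) (φ := fun z => ((2 : ℚ) : ℝ) - ((5 : ℚ) : ℝ) * v.ev z)
      (DfR.sub (by fun_prop) (DfR.rat_mul (q := fun _ => 5) (by fun_prop) (by fun_prop)))
      (by fun_prop)
    obtain ⟨W, hWA, hWf, hW⟩ := h1 i f (by rw [hi, hy]; norm_num)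
    obtain ⟨W', hWA', hWf', hW'⟩ := h1 i' f' (by rw [hi', hv0]; norm_num)
    have h2 : ∀ (j : Cp M Y) (W : Box K), (∀ g, In W g → 0 ≤ j.ev (Φ g)) → ∀ z, N W z →
        0 ≤ j.ev z := fun j W hW z hz =>
      closure_minimal (t := {z | 0 ≤ j.ev z}) (by rintro _ ⟨g, hg, rfl⟩; exact hW g hg)
        (isClosed_le continuous_const j.continuous) hz
    obtain ⟨w, hw, h3⟩ := hσ (W, W') (fun z hz hz' => by
      have h3 := h2 i W hW z hz
      have h4 := h2 i' W' hW' z hz'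
      rw [hi] at h3
      rw [hi'] at h4
      push_cast at h3 h4
      linarith) _ _ (subset_closure ⟨f, hWf, rfl⟩) (subset_closure ⟨f', hWf', rfl⟩)
    obtain ⟨n, rfl⟩ := hu w ⟨(W, W'), ⟨hWA, hWA'⟩, hw⟩
    exact ⟨n, h3⟩

theorem metrizable [T2Space Y] {r : I → I → Prop} {b : I → Fn M ℕ I × PS M ℕ} (hb : Book M r b)
    (hK : MCpt M K) (hK' : MTych M K) {rK : K → K → Prop} (hr : MWO M rK)
    (hcl : ∀ x, IsClosed {y | rK y x}) (hY : MCpt M Y) (hY' : MTych M Y) {Φ : Cp M K → Y}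
    (dΦ : DfF M Φ) (hΦ : Continuous Φ) (hs : Surjective Φ) : MMetr M Y := by
  refine metrizable_of hb hK' (fun A F _ dA dF hA => ?_) hY hY' dΦ hΦ hs
  obtain ⟨e, de, he, hecl⟩ := exists_enum_closed hb hK hr hcl dA hA
  obtain ⟨f, df, hf⟩ := count_traces hb hK de hecl
  let s : Fn M I Prop := ⟨fun a => ∃ t : Fn M I Prop, (∀ x ∈ A a, (f a).ev x = (F t).ev x) ∧ ¬ t.ap a,
    by simp only [all_iff, imp_iff]; fun_prop⟩
  obtain ⟨a, ha⟩ := hf (F s)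
  have e1 : ∀ x ∈ A a, (F s).ev x = (f a).ev x := fun x hx => by
    obtain ⟨c, rfl⟩ := he a x hx
    exact ha c
  have h1 : s.ap a := by_contra fun h => h ⟨s, fun x hx => (e1 x hx).symm, h⟩
  obtain ⟨t, h2, h3⟩ := id h1
  exact ⟨s, t, a, fun x hx => (e1 x hx).trans (h2 x hx), h1, h3⟩

end Pool.Agent.MP_b07c92_gt.Indep

end MrgPart0

-- ======== part 1: formerly Pool.Agent.MP_b07c92_gt.h92.Trans
section MrgPart1

/-! Translation between coded spaces and typed spaces. -/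

namespace Pool.Agent.MP_b07c92_gt.Indep

open Pool.Agent.ZF92 Function ZFSet
open scoped Classical

set_option linter.unusedSectionVars false

universe u v

variable {M : Set ZFSet.{0}} [hM : Fact (ZFC M)]
variable {X : Type u} {Y : Type v} [Srt M X] [Sm M X] [Srt M Y] [Sm M Y]

include hM in
theorem cut_inj {a b : ℝ} (h : cut a = cut b) : a = b :=
  real_ext fun q => by
    have : ∀ c : ℝ, rat q ∈ cut c ↔ (q : ℝ) < c := fun c => mem_cut.trans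
      ⟨fun ⟨p, h1, h2⟩ => (cd_inj (M := M) (x := q) (y := p)).1 h2 ▸ h1, fun h => ⟨q, h, rfl⟩⟩
    rw [← this, ← this, h]

theorem cd_mem_un (x : X) : cd M x ∈ un M X := mem_un.2 ⟨x, rfl⟩

theorem forall_un {P : ZFSet → Prop} : (∀ z ∈ un M X, P z) ↔ ∀ x : X, P (cd M x) :=
  ⟨fun h x => h _ (cd_mem_un x), fun h z hz => by obtain ⟨x, rfl⟩ := mem_un.1 hz; exact h x⟩

theorem forall_cd {A : PS M X} {P : ZFSet → Prop} : (∀ z ∈ cd M A, P z) ↔ ∀ x ∈ A, P (cd M x) :=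
  ⟨fun h x hx => h _ (cd_mem_cd_ps.2 hx), fun h z hz => by
    obtain ⟨x, hx, rfl⟩ := mem_cd_ps.1 hz; exact h x hx⟩

theorem exists_ps_sub {a : ZFSet} (ha : a ∈ M) (h : a ⊆ un M X) : ∃ A : PS M X, cd M A = a :=
  exists_ps ha fun _ hz => mem_un.1 (h hz)

theorem cd_sub_un (A : PS M X) : cd M A ⊆ un M X := fun z hz => by
  obtain ⟨x, -, e⟩ := mem_cd_ps.1 hz
  exact mem_un.2 ⟨x, e⟩

theorem cd_finset_finite (F : Finset X) : ((cd M F : ZFSet) : Set ZFSet).Finite :=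
  (F.finite_toSet.image (cd M)).subset fun z hz => by
    obtain ⟨x, hx, e⟩ := mem_cd_finset.1 hz
    exact ⟨x, hx, e.symm⟩

theorem exists_finset {E : ZFSet} (hE : (E : Set ZFSet).Finite) :
    ∃ F : Finset X, ∀ x, x ∈ F ↔ cd M x ∈ E :=
  ⟨(hE.preimage (f := cd M) fun _ _ _ _ h => cd_inj.1 h).toFinset, fun x => by simp⟩

theorem un_prod : un M (X × Y) = prod (un M X) (un M Y) := by
  ext z
  simp only [mem_un, mem_prod]
  exact ⟨fun ⟨p, e⟩ => ⟨_, ⟨p.1, rfl⟩, _, ⟨p.2, rfl⟩, e⟩,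
    by rintro ⟨_, ⟨x, rfl⟩, _, ⟨y, rfl⟩, e⟩; exact ⟨(x, y), e⟩⟩

theorem graph_df {f : ZFSet} (hf : f ∈ M) {φ : ZFSet → ℝ} (h : Graph (un M X) f φ) :
    DfR M fun x : X => φ (cd M x) := by
  refine DfF.congr (P := fun p : X × ℚ => ∃ r : Re M, cd M (p.1, r) ∈ f ∧ (p.2 : ℝ) < r.val)
    (DfF.ex (DfF.and (DfF.cd_mem_set (by fun_prop) hf) (by fun_prop))) fun p => ⟨fun h1 => ?_, ?_⟩
  · have h2 := (h _).2 ⟨_, cd_mem_un p.1, rfl⟩
    exact ⟨⟨_, (pair_mem_iff.1 (trM hf h2)).2⟩, by rw [cd_prod, cd_re]; exact h2, h1⟩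
  · rintro ⟨r, h1, h2⟩
    obtain ⟨x, -, e⟩ := (h _).1 h1
    rw [cd_prod, cd_re, pair_inj] at e
    obtain ⟨rfl, e⟩ := e
    exact h2.trans_eq (cut_inj (M := M) e)

theorem graph_cd (F : Fn M X (Re M)) : ∃ φ, Graph (un M X) (cd M F) φ ∧
    ∀ x, φ (cd M x) = (F.ap x).val := by
  have e : ∀ x, extend (cd M) (fun x => (F.ap x).val) 0 (cd M x) = (F.ap x).val :=
    fun x => Injective.extend_apply (fun _ _ h => cd_inj.1 h) _ _ x
  refine ⟨_, fun z => ?_, e⟩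
  rw [mem_cd_fn]
  exact ⟨fun ⟨x, h⟩ => ⟨_, cd_mem_un x, by rw [h, e, cd_re]⟩, fun ⟨_, h1, h⟩ => by
    obtain ⟨x, rfl⟩ := mem_un.1 h1
    exact ⟨x, by rw [h, e, cd_re]⟩⟩

variable [TopologicalSpace X] [DTop M X] [TopologicalSpace Y] [DTop M Y]

/-- `T` is the set of codes of open sets. -/
def Rep (M : Set ZFSet.{0}) [Fact (ZFC M)] (X : Type u) [Srt M X] [TopologicalSpace X]
    (T : ZFSet.{0}) : Prop :=
  ∀ U, U ∈ T ↔ ∃ A : PS M X, IsOpen (A : Set X) ∧ U = cd M A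

theorem exists_rep (X : Type u) [Srt M X] [Sm M X] [TopologicalSpace X] [DTop M X] :
    ∃ T ∈ M, Rep M X T :=
  ⟨cd M (PS.of M fun A : PS M X => IsOpen (A : Set X)), cd_mem _, fun U => by
    rw [mem_cd_ps]
    exact exists_congr fun A => and_congr_left fun _ => PS.mem_of (by fun_prop)⟩

variable {T S : ZFSet.{0}}

theorem Rep.cd_mem (hT : Rep M X T) {A : PS M X} : cd M A ∈ T ↔ IsOpen (A : Set X) :=
  (hT _).trans ⟨fun ⟨_, h, e⟩ => cd_inj.1 e ▸ h, fun h => ⟨A, h, rfl⟩⟩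

theorem Rep.forall (hT : Rep M X T) {P : ZFSet → Prop} :
    (∀ U ∈ T, P U) ↔ ∀ A : PS M X, IsOpen (A : Set X) → P (cd M A) :=
  ⟨fun h A hA => h _ (hT.cd_mem.2 hA), fun h U hU => by
    obtain ⟨A, hA, rfl⟩ := (hT U).1 hU; exact h A hA⟩

theorem Rep.mem_iff (hT : Rep M X T) {a : ZFSet} (P : X → Prop) (dP : DfF M P)
    (h : a ⊆ un M X) (e : ∀ x, cd M x ∈ a ↔ P x) : a ∈ T ↔ IsOpen {x | P x} := by
  have h1 : a = cd M (PS.of M P) := by
    ext z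
    constructor
    · intro hz
      obtain ⟨x, rfl⟩ := mem_un.1 (h hz)
      exact cd_mem_cd_ps.2 ((PS.mem_of dP).2 ((e x).1 hz))
    · intro hz
      obtain ⟨x, hx, rfl⟩ := mem_cd_ps.1 hz
      exact (e x).2 ((PS.mem_of dP).1 hx)
  rw [h1, hT.cd_mem]
  congr! 1
  ext x; exact PS.mem_of dP

theorem pair_mem_cd_cp {g : Cp M X} {x : X} {r : ℝ} :
    pair (cd M x) (cut r) ∈ cd M g ↔ g.ev x = r := by
  rw [mem_cd_cp]
  refine ⟨fun ⟨y, e⟩ => ?_, fun e => ⟨x, e ▸ rfl⟩⟩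
  rw [pair_inj, cd_inj] at e
  rw [e.1, cut_inj (M := M) e.2]

theorem Rep.cont_iff (hT : Rep M X T) {f : ZFSet} :
    f ∈ M ∧ Cont (un M X) T f ↔ ∃ g : Cp M X, f = cd M g := by
  have key : ∀ φ : ZFSet → ℝ, (DfR M fun x : X => φ (cd M x)) → ((∀ a b : ℚ,
      (un M X).sep (fun x => (a : ℝ) < φ x ∧ φ x < (b : ℝ)) ∈ T) ↔
      Continuous fun x : X => φ (cd M x)) := fun φ dφ => by
    rw [continuous_iff_rat]
    exact forall₂_congr fun a b => hT.mem_iff _ (DfF.and (DfF.real_lt (by fun_prop) dφ)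
      (DfF.real_lt dφ (by fun_prop))) sep_subset fun x => by simp [cd_mem_un]
  constructor
  · rintro ⟨hf, φ, h1, h2⟩
    obtain ⟨g, hg⟩ := exists_cp (graph_df hf h1) ((key φ (graph_df hf h1)).1 h2)
    refine ⟨g, ?_⟩
    ext z
    rw [h1, mem_cd_cp]
    exact ⟨fun ⟨_, h3, h⟩ => by
      obtain ⟨x, rfl⟩ := mem_un.1 h3
      exact ⟨x, by rw [h, hg]⟩, fun ⟨x, h⟩ => ⟨_, cd_mem_un x, by rw [h, hg]⟩⟩
  · rintro ⟨g, rfl⟩
    obtain ⟨φ, h1, h2⟩ := graph_cd g.F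
    exact ⟨ZF92.cd_mem g, φ, h1, (key φ (graph_df (ZF92.cd_mem g) h1)).2
      (by simpa only [h2] using g.cont)⟩

theorem Rep.of_compact (hT : Rep M X T) (h : CompactSp M (un M X) T) :
    T2Space X ∧ MTych M X ∧ MCpt M X := by
  refine ⟨⟨fun x y hxy => ?_⟩, fun U hU x hx => ?_, fun C h1 h2 => ?_⟩
  · obtain ⟨U, hU, V, hV, h1, h2, h3⟩ := h.hausdorff _ (cd_mem_un x) _ (cd_mem_un y)
      (cd_inj.not.2 hxy)
    obtain ⟨A, hA, rfl⟩ := (hT U).1 hU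
    obtain ⟨B, hB, rfl⟩ := (hT V).1 hV
    exact ⟨A, B, hA, hB, cd_mem_cd_ps.1 h1, cd_mem_cd_ps.1 h2, Set.disjoint_left.2 fun z h4 h5 =>
      notMem_empty (cd M z) (h3 ▸ mem_inter.2 ⟨cd_mem_cd_ps.2 h4, cd_mem_cd_ps.2 h5⟩)⟩
  · obtain ⟨V, h1, h2, h3⟩ := exists_ps_nhds (M := M) hU hx
    obtain ⟨f, h4, h5, h6, h7⟩ := h.tychonoff _ (hT.cd_mem.2 h1) _ (cd_mem_cd_ps.2 h2)
    obtain ⟨g, rfl⟩ := hT.cont_iff.1 ⟨h4, h5⟩
    exact ⟨g, pair_mem_cd_cp.1 h6, fun y hy => pair_mem_cd_cp.1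
      (h7 _ (cd_mem_un y) fun h8 => hy (h3 y (cd_mem_cd_ps.1 h8)))⟩
  · obtain ⟨F, -, h3, h4, h5⟩ := h.compact _ (ZF92.cd_mem C)
      (forall_cd.2 fun U hU => hT.cd_mem.2 (h1 U hU)) (forall_un.2 fun x => by
        obtain ⟨U, h3, h4⟩ := h2 x
        exact mem_sUnion.2 ⟨_, cd_mem_cd_ps.2 h3, cd_mem_cd_ps.2 h4⟩)
    obtain ⟨E, hE⟩ := exists_finset (M := M) (X := PS M X) h4
    refine ⟨E, fun U hU => cd_mem_cd_ps.1 (h3 ((hE U).1 hU)), fun x => ?_⟩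
    obtain ⟨U, h6, h7⟩ := mem_sUnion.1 (h5 (cd_mem_un x))
    obtain ⟨V, -, rfl⟩ := mem_cd_ps.1 (h3 h6)
    exact ⟨V, (hE V).2 h6, cd_mem_cd_ps.1 h7⟩

theorem Rep.exists_family (hT : Rep M X T) {C : ZFSet} (hC : C ∈ M) (h : C ⊆ T) :
    ∃ C' : PS M (PS M X), cd M C' = C ∧ ∀ U ∈ C', IsOpen (U : Set X) := by
  obtain ⟨C', rfl⟩ := exists_ps (X := PS M X) hC fun z hz => ((hT z).1 (h hz)).imp fun _ => And.right
  exact ⟨C', rfl, fun U hU => hT.cd_mem.1 (h (cd_mem_cd_ps.2 hU))⟩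

theorem cd_mem_sUnion {C : PS M (PS M X)} {x : X} :
    cd M x ∈ ZFSet.sUnion (cd M C) ↔ ∃ U, U ∈ C ∧ x ∈ U := by
  rw [mem_sUnion]
  refine ⟨fun ⟨_, h1, h2⟩ => ?_, fun ⟨U, h1, h2⟩ => ⟨_, cd_mem_cd_ps.2 h1, cd_mem_cd_ps.2 h2⟩⟩
  obtain ⟨U, h3, rfl⟩ := mem_cd_ps.1 h1
  exact ⟨U, h3, cd_mem_cd_ps.1 h2⟩

theorem Rep.compact [T2Space X] (hT : Rep M X T) (h1 : MTych M X) (h2 : MCpt M X) :
    CompactSp M (un M X) T where
  sub := hT.forall.2 fun A _ => cd_sub_un A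
  whole := (hT.mem_iff (fun _ => True) (by fun_prop) (fun _ h => h)
    fun x => iff_true_intro (cd_mem_un x)).2 isOpen_univ
  inter := hT.forall.2 fun A hA => hT.forall.2 fun B hB =>
    (hT.mem_iff (fun x => x ∈ A ∧ x ∈ B) (by fun_prop) (fun _ h => cd_sub_un A (mem_inter.1 h).1)
      fun x => by rw [mem_inter, cd_mem_cd_ps, cd_mem_cd_ps]).2 (hA.inter hB)
  unions C hC h := by
    obtain ⟨C', rfl, h3⟩ := hT.exists_family hC h
    refine (hT.mem_iff (fun x => ∃ U, U ∈ C' ∧ x ∈ U) (by fun_prop) (fun z hz => ?_)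
      fun x => cd_mem_sUnion).2 (isOpen_iff_forall_mem_open.2 fun x ⟨U, h4, h5⟩ =>
        ⟨U, fun y hy => ⟨U, h4, hy⟩, h3 U h4, h5⟩)
    obtain ⟨_, h4, h5⟩ := mem_sUnion.1 hz
    obtain ⟨U, -, rfl⟩ := mem_cd_ps.1 h4
    exact cd_sub_un U h5
  hausdorff := forall_un.2 fun x => forall_un.2 fun y hxy => by
    obtain ⟨U, V, hU, hV, h3, h4, h5⟩ := t2_separation (cd_inj.not.1 hxy)
    obtain ⟨A, h6, h7, h8⟩ := exists_ps_nhds (M := M) hU h3
    obtain ⟨B, h9, h10, h11⟩ := exists_ps_nhds (M := M) hV h4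
    refine ⟨_, hT.cd_mem.2 h6, _, hT.cd_mem.2 h9, cd_mem_cd_ps.2 h7, cd_mem_cd_ps.2 h10,
      (eq_empty _).2 fun z hz => ?_⟩
    obtain ⟨w, hw, rfl⟩ := mem_cd_ps.1 (mem_inter.1 hz).1
    exact Set.disjoint_left.1 h5 (h8 w hw) (h11 w (cd_mem_cd_ps.1 (mem_inter.1 hz).2))
  tychonoff := hT.forall.2 fun A hA => forall_cd.2 fun x hx => by
    obtain ⟨f, h3, h4⟩ := h1 _ hA x hx
    exact ⟨_, ZF92.cd_mem f, (hT.cont_iff.2 ⟨f, rfl⟩).2, pair_mem_cd_cp.2 h3,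
      forall_un.2 fun y hy => pair_mem_cd_cp.2 (h4 y fun h => hy (cd_mem_cd_ps.2 h))⟩
  compact C hC h h' := by
    obtain ⟨C', rfl, h3⟩ := hT.exists_family hC h
    obtain ⟨F, h4, h5⟩ := h2 C' h3 fun x => cd_mem_sUnion.1 (h' (cd_mem_un x))
    refine ⟨_, ZF92.cd_mem F, fun z hz => ?_, cd_finset_finite F, forall_un.2 fun x => ?_⟩
    · obtain ⟨U, hU, rfl⟩ := mem_cd_finset.1 hz
      exact cd_mem_cd_ps.2 (h4 U hU)
    · obtain ⟨U, h6, h7⟩ := h5 x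
      exact mem_sUnion.2 ⟨_, mem_cd_finset.2 ⟨U, h6, rfl⟩, cd_mem_cd_ps.2 h7⟩

theorem Rep.left_iff (hT : Rep M X T) : LeftSeparated M (un M X) T ↔
    ∃ r : X → X → Prop, MWO M r ∧ ∀ x, IsClosed {y | r y x} := by
  have key : ∀ (r : ZFSet) (s : X → X → Prop), (DfF M fun p : X × X => s p.1 p.2) →
      (∀ x y, pair (cd M x) (cd M y) ∈ r ↔ s x y) →
      ((∀ x ∈ un M X, (un M X).sep (fun y => pair y x ∉ r) ∈ T) ↔ ∀ x, IsClosed {y | s y x}) := by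
    intro r s ds e
    rw [forall_un]
    exact forall_congr' fun x => (hT.mem_iff (fun y => ¬ s y x) (by fun_prop) sep_subset
      fun y => by simp [cd_mem_un, e]).trans isOpen_compl_iff
  constructor
  · rintro ⟨r, hr, h1, h2⟩
    have h3 := mwo_of_wellOrd hr h1
    exact ⟨_, h3, (key r _ h3.df fun _ _ => Iff.rfl).1 h2⟩
  · rintro ⟨r, hr, h⟩
    have e : ∀ x y, pair (cd M x) (cd M y) ∈ cd M (PS.of M fun p : X × X => r p.1 p.2) ↔ r x y :=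
      fun x y => (cd_mem_cd_ps (x := (x, y))).trans (PS.mem_of hr.df)
    refine ⟨_, ZF92.cd_mem _, ⟨?_, ?_, ?_, fun A hA h1 h2 => ?_⟩, (key _ r hr.df e).2 h⟩
    · simpa only [forall_un, e] using hr.irr
    · simpa only [forall_un, e] using hr.trans
    · simpa only [forall_un, e, cd_inj] using hr.tri
    · obtain ⟨A, rfl⟩ := exists_ps_sub hA h1
      obtain ⟨x, h3, h4⟩ := hr.min (fun x => x ∈ A) (by fun_prop) (by
        obtain ⟨z, hz⟩ := (eq_empty_or_nonempty _).resolve_left h2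
        obtain ⟨x, hx, -⟩ := mem_cd_ps.1 hz
        exact ⟨x, hx⟩)
      exact ⟨_, cd_mem_cd_ps.2 h3, by simpa only [forall_cd, e] using h4⟩

theorem Rep.scattered (hT : Rep M X T) (h : ∀ s : Set X, s.Nonempty →
    ∃ x ∈ s, ∃ U, IsOpen U ∧ x ∈ U ∧ ∀ y ∈ U, y ∈ s → y = x) : Scattered M (un M X) T := by
  intro A hA h1 h2
  obtain ⟨A, rfl⟩ := exists_ps_sub hA h1
  obtain ⟨x, h3, U, h4, h5, h6⟩ := h A (by
    obtain ⟨z, hz⟩ := (eq_empty_or_nonempty _).resolve_left h2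
    obtain ⟨x, hx, -⟩ := mem_cd_ps.1 hz
    exact ⟨x, hx⟩)
  obtain ⟨V, h7, h8, h9⟩ := exists_ps_nhds (M := M) h4 h5
  refine ⟨_, cd_mem_cd_ps.2 h3, _, hT.cd_mem.2 h7, ?_⟩
  ext z
  rw [mem_inter, mem_singleton]
  refine ⟨fun ⟨h10, h11⟩ => ?_, fun e => e ▸ ⟨cd_mem_cd_ps.2 h8, cd_mem_cd_ps.2 h3⟩⟩
  obtain ⟨y, hy, rfl⟩ := mem_cd_ps.1 h10
  rw [h6 y (h9 y hy) (cd_mem_cd_ps.1 h11)]

theorem Rep.image_iff (hT : Rep M X T) (hS : Rep M Y S) : ImageOfCp M (un M X) T (un M Y) S ↔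
    ∃ Φ : Cp M X → Y, DfF M Φ ∧ Continuous Φ ∧ Surjective Φ := by
  have near : ∀ (E : ZFSet) (F : Finset X) (ε : ℚ) (f g : Cp M X), E ⊆ un M X →
      (∀ x, x ∈ F ↔ cd M x ∈ E) →
      (Near E ε (cd M f) (cd M g) ↔ ∀ x ∈ F, |f.ev x - g.ev x| < (ε : ℝ)) := by
    intro E F ε f g h1 h2
    refine ⟨fun h x hx => h _ ((h2 x).1 hx) _ _ (pair_mem_cd_cp.2 rfl) (pair_mem_cd_cp.2 rfl),
      fun h z hz r s h3 h4 => ?_⟩
    obtain ⟨x, rfl⟩ := mem_un.1 (h1 hz)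
    rw [← pair_mem_cd_cp.1 h3, ← pair_mem_cd_cp.1 h4]
    exact h x ((h2 x).2 hz)
  constructor
  · rintro ⟨C, -, F, hF, h1, ⟨h2, h3⟩, h4, h5⟩
    have hC : ∀ f, f ∈ C ↔ ∃ g : Cp M X, f = cd M g := fun f => (h1 f).trans hT.cont_iff
    have h6 : ∀ g : Cp M X, ∃ y : Y, ∀ z, pair (cd M g) z ∈ F ↔ z = cd M y := fun g => by
      obtain ⟨w, h6, h7⟩ := h3 _ ((hC _).2 ⟨g, rfl⟩)
      obtain ⟨y, rfl⟩ := mem_un.1 (pair_mem_prod.1 (h2 h6)).2
      exact ⟨y, fun z => ⟨h7 z, fun e => e ▸ h6⟩⟩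
    choose Φ hΦ using h6
    refine ⟨Φ, DfF.of_rel (P := fun g y => cd M (g, y) ∈ F) (DfF.cd_mem_set (by fun_prop) hF)
      fun g y => by rw [cd_prod, hΦ, cd_inj, eq_comm], continuous_def.2 fun V hV =>
      isOpen_induced_pi.2 fun f hf => ?_, fun y => ?_⟩
    · obtain ⟨U, h7, h8, h9⟩ := exists_ps_nhds (M := M) hV hf
      obtain ⟨E, -, h10, h11, ε, hε, h12⟩ := h5 _ (hS.cd_mem.2 h7) _ ((hC _).2 ⟨f, rfl⟩) _
        (cd_mem_cd_ps.2 h8) ((hΦ f _).2 rfl)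
      obtain ⟨E', hE⟩ := exists_finset (M := M) (X := X) h11
      exact ⟨E', ε, hε, fun g hg => h9 _ (cd_mem_cd_ps.1 (h12 _ ((hC _).2 ⟨g, rfl⟩)
        ((near E E' ε f g h10 hE).2 hg) _ ((hΦ g _).2 rfl)))⟩
    · obtain ⟨f, h7, h8⟩ := h4 _ (cd_mem_un y)
      obtain ⟨g, rfl⟩ := (hC f).1 h7
      exact ⟨g, (cd_inj.1 ((hΦ g _).1 h8)).symm⟩
  · rintro ⟨Φ, dΦ, hΦ, hs⟩
    have e : ∀ (g : Cp M X) z, pair (cd M g) z ∈ cd M (⟨Φ, dΦ⟩ : Fn M (Cp M X) Y) ↔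
        z = cd M (Φ g) := fun g z => by
      rw [mem_cd_fn]
      refine ⟨fun ⟨f, h⟩ => ?_, fun h => ⟨g, h ▸ rfl⟩⟩
      rw [pair_inj, cd_inj] at h
      exact h.1 ▸ h.2
    refine ⟨_, un_mem (X := Cp M X), _, ZF92.cd_mem (⟨Φ, dΦ⟩ : Fn M (Cp M X) Y),
      fun f => mem_un.trans hT.cont_iff.symm, ⟨fun z hz => ?_, forall_un.2 fun g =>
        ⟨_, (e g _).2 rfl, fun z hz => (e g z).1 hz⟩⟩, forall_un.2 fun y => ?_,
      hS.forall.2 fun V hV => forall_un.2 fun f y hy h => ?_⟩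
    · obtain ⟨g, rfl⟩ := mem_cd_fn.1 hz
      exact pair_mem_prod.2 ⟨cd_mem_un _, cd_mem_un _⟩
    · obtain ⟨g, rfl⟩ := hs y
      exact ⟨_, cd_mem_un g, (e g _).2 rfl⟩
    · obtain rfl := (e f y).1 h
      obtain ⟨E, ε, hε, h1⟩ := isOpen_induced_pi.1 (hV.preimage hΦ) f (cd_mem_cd_ps.1 hy)
      have h2 : cd M E ⊆ un M X := fun z hz => by
        obtain ⟨x, -, e⟩ := mem_cd_finset.1 hz
        exact mem_un.2 ⟨x, e⟩
      refine ⟨_, ZF92.cd_mem E, h2, cd_finset_finite E, ε, hε, forall_un.2 fun g hg z hz => ?_⟩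
      rw [(e g z).1 hz]
      exact cd_mem_cd_ps.2 (h1 g ((near _ E ε f g h2 fun x => by
        rw [mem_cd_finset]
        exact ⟨fun h => ⟨x, h, rfl⟩, fun ⟨y, hy, e⟩ => cd_inj.1 e ▸ hy⟩).1 hg))

theorem Rep.metr_iff (hS : Rep M Y S) : Metrizable M (un M Y) S ↔ MMetr M Y := by
  have key : ∀ (δ : ZFSet → ℝ) (d : Y → Y → ℝ), (∀ x y, δ (pair (cd M x) (cd M y)) = d x y) →
      ((∀ V ∈ M, V ⊆ un M Y → (V ∈ S ↔ ∀ y ∈ V, ∃ ε : ℚ, 0 < ε ∧ ∀ z ∈ un M Y,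
        δ (pair y z) < (ε : ℝ) → z ∈ V)) ↔ ∀ V : PS M Y, IsOpen (V : Set Y) ↔
        ∀ y ∈ V, ∃ ε : ℚ, 0 < ε ∧ ∀ z, d y z < ε → z ∈ V) := by
    intro δ d e
    refine ⟨fun h V => ?_, fun h V h1 h2 => ?_⟩
    · simpa only [hS.cd_mem, forall_cd, forall_un, e, cd_mem_cd_ps] using
        h _ (ZF92.cd_mem V) (cd_sub_un V)
    · obtain ⟨V, rfl⟩ := exists_ps_sub h1 h2
      simpa only [hS.cd_mem, forall_cd, forall_un, e, cd_mem_cd_ps] using h V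
  unfold Metrizable
  rw [← un_prod]
  constructor
  · rintro ⟨d, hd, δ, h1, h2, h3, h4, h5⟩
    simp only [forall_un, cd_inj] at h2 h3 h4
    exact ⟨fun x y => δ (pair (cd M x) (cd M y)), graph_df hd h1, h2, h3, h4,
      (key δ _ fun _ _ => rfl).1 h5⟩
  · rintro ⟨d, dd, h1, h2, h3, h4⟩
    obtain ⟨g, dg, hg⟩ := dd.exists_re
    obtain ⟨δ, h5, h6⟩ := graph_cd (⟨g, dg⟩ : Fn M (Y × Y) (Re M))
    have e : ∀ x y, δ (pair (cd M x) (cd M y)) = d x y := fun x y => (h6 (x, y)).trans (hg _)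
    refine ⟨_, ZF92.cd_mem _, δ, h5, ?_, ?_, ?_, (key δ d e).2 h4⟩ <;>
      simp only [forall_un, e, cd_inj] <;> assumption

theorem exists_top {K : M} (hT : T ∈ M) (h : CompactSp M K.1 T) :
    ∃ (_ : TopologicalSpace (El M K)) (_ : DTop M (El M K)), Rep M (El M K) T := by
  let τ : TopologicalSpace (El M K) :=
    { IsOpen := fun s => ∀ x ∈ s, ∃ U ∈ T, x.x ∈ U ∧ ∀ y : El M K, y.x ∈ U → y ∈ s
      isOpen_univ := fun x _ => ⟨_, h.whole, x.mem, fun _ _ => trivial⟩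
      isOpen_inter := fun s t hs ht x hx =>
        let ⟨U, h1, h2, h3⟩ := hs x hx.1
        let ⟨V, h4, h5, h6⟩ := ht x hx.2
        ⟨_, h.inter U h1 V h4, mem_inter.2 ⟨h2, h5⟩, fun y hy =>
          ⟨h3 y (mem_inter.1 hy).1, h6 y (mem_inter.1 hy).2⟩⟩
      isOpen_sUnion := fun C hC x ⟨s, hs, hx⟩ =>
        let ⟨U, h1, h2, h3⟩ := hC s hs x hx
        ⟨U, h1, h2, fun y hy => ⟨s, hs, h3 y hy⟩⟩ }
  have h1 : ∀ U ∈ T, ∃ A : PS M (El M K), cd M A = U := fun U hU =>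
    exists_ps_sub (trM hT hU) (by rw [un_el]; exact h.sub U hU)
  have h2 : DfF M fun A : PS M (El M K) => cd M A ∈ T := DfF.cd_mem_set DfF.id hT
  have h3 : ∀ s : Set (El M K), IsOpen s ↔ ∀ x ∈ s, ∃ U : PS M (El M K), cd M U ∈ T ∧ x ∈ U ∧
      ∀ y ∈ U, y ∈ s := fun s => forall₂_congr fun x _ =>
    ⟨fun ⟨U, h3, h4, h5⟩ => by
      obtain ⟨A, rfl⟩ := h1 U h3
      exact ⟨A, h3, cd_mem_cd_ps.1 h4, fun y hy => h5 y (cd_mem_cd_ps.2 hy)⟩,
    fun ⟨U, h3, h4, h5⟩ => ⟨_, h3, cd_mem_cd_ps.2 h4, fun y hy => h5 y (cd_mem_cd_ps.1 hy)⟩⟩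
  refine ⟨τ, ⟨PS.of M fun A => cd M A ∈ T, fun s => by simp only [h3, PS.mem_of h2]⟩,
    fun U => ⟨fun hU => ?_, ?_⟩⟩
  · obtain ⟨A, rfl⟩ := h1 U hU
    exact ⟨A, (h3 _).2 fun x hx => ⟨A, hU, hx, fun _ h => h⟩, rfl⟩
  · rintro ⟨A, hA, rfl⟩
    have h4 : ∀ B, B ∈ PS.of M (fun B : PS M (El M K) => cd M B ∈ T ∧ ∀ y ∈ B, y ∈ A) ↔
        cd M B ∈ T ∧ ∀ y ∈ B, y ∈ A := fun B =>
      PS.mem_of (h2.and (by simp only [all_iff, imp_iff]; fun_prop))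
    convert h.unions _ (ZF92.cd_mem _) (forall_cd.2 fun B hB => ((h4 B).1 hB).1) using 1
    ext z
    rw [mem_sUnion]
    constructor
    · intro hz
      obtain ⟨x, hx, rfl⟩ := mem_cd_ps.1 hz
      obtain ⟨B, h5, h6, h7⟩ := (h3 _).1 hA x hx
      exact ⟨_, cd_mem_cd_ps.2 ((h4 B).2 ⟨h5, h7⟩), cd_mem_cd_ps.2 h6⟩
    · rintro ⟨_, h5, h6⟩
      obtain ⟨B, h7, rfl⟩ := mem_cd_ps.1 h5
      obtain ⟨x, hx, rfl⟩ := mem_cd_ps.1 h6
      exact cd_mem_cd_ps.2 (((h4 B).1 h7).2 x hx)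

end Pool.Agent.MP_b07c92_gt.Indep

end MrgPart1

-- ======== part 2: formerly Pool.Agent.MP_b07c92_gt.h92.Neg
section MrgPart2

/-! A scattered compactum whose function space maps onto an uncountable cube. -/

namespace Pool.Agent.MP_b07c92_gt.Indep

open Pool.Agent.ZF92 Function Set Mr
open scoped Classical

set_option linter.unusedSectionVars false

universe u v

variable {M : Set ZFSet.{0}} [hM : Fact (ZFC M)]
variable {J : Type u} {L : Type v}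

abbrev DD (J : Type u) := Option (J × ℕ) × ℕ × Finset ℕ × ℕ × Prop

noncomputable def nu (g : L → J × ℕ → ℕ) (a : J) (ξ : L) (k : ℕ) : Finset ℕ :=
  (Finset.range k).filter fun n => ∃ j, n = Nat.pair j (g ξ (a, j))

def AA (g : L → J × ℕ → ℕ) (H : L → J × ℕ → Prop) (a : J) (ξ : L) (d : DD J) : Prop :=
  d.2.2.1 = nu g a ξ d.2.1 ∧ ((d.1 = none ∧ d.2.2.2 = (0, False)) ∨
    ∃ c, d.1 = some c ∧ d.2.2.2 = (g ξ c, H ξ c))

theorem AA_ad {g : L → J × ℕ → ℕ} (H : L → J × ℕ → Prop) (a : J)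
    (ad : ∀ ξ η, ξ ≠ η → {c | g ξ c = g η c}.Finite) (ξ η : L) (h : ξ ≠ η) :
    {d | AA g H a ξ d ∧ AA g H a η d}.Finite := by
  obtain ⟨j, hj⟩ : ∃ j, g ξ (a, j) ≠ g η (a, j) := by
    by_contra hn
    push Not at hn
    exact infinite_of_injective_forall_mem (f := fun j : ℕ => (a, j))
      (fun _ _ e => (Prod.ext_iff.1 e).2) hn (ad ξ η h)
  refine (((((ad ξ η h).image some).insert none).prod
    (finite_Iic (Nat.pair j (g ξ (a, j))))).image fun p => (p.1, p.2, nu g a ξ p.2,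
      p.1.elim (0, False) fun c => (g ξ c, H ξ c))).subset ?_
  rintro ⟨c, k, w, m⟩ ⟨⟨h1, h2⟩, h3, h4⟩
  simp only at h1 h2 h3 h4
  have h5 : k ≤ Nat.pair j (g ξ (a, j)) := not_lt.1 fun hk => by
    have : Nat.pair j (g ξ (a, j)) ∈ nu g a η k := h3 ▸ h1 ▸
      Finset.mem_filter.2 ⟨Finset.mem_range.2 hk, j, rfl⟩
    obtain ⟨i, hi⟩ := (Finset.mem_filter.1 this).2
    obtain ⟨rfl, h6⟩ := Nat.pair_eq_pair.1 hi
    exact hj h6
  rcases h2 with ⟨rfl, rfl⟩ | ⟨c, rfl, rfl⟩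
  · exact ⟨(none, k), ⟨Or.inl rfl, h5⟩, by simp [h1]⟩
  · refine ⟨(some c, k), ⟨Or.inr ⟨c, ?_, rfl⟩, h5⟩, by simp [h1]⟩
    simp only [reduceCtorEq, false_and, Option.some.injEq, exists_eq_left', false_or] at h4
    exact (Prod.ext_iff.1 h4).1

def col (c : J × ℕ) (n : ℕ) (d : DD J) : Prop :=
  d.1 = some c ∧ (∀ i ∈ d.2.2.1, i < d.2.1) ∧ d.2.1 ≤ n ∧ d.2.2.2.1 < n

theorem col_finite (c : J × ℕ) (n : ℕ) : {d | col c n d}.Finite :=
  ((finite_singleton (some c)).prod ((finite_Iic n).prod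
    ((Finset.range n).powerset.finite_toSet.prod ((finite_Iio n).prod finite_univ)))).subset
    fun _ ⟨h1, h2, h3, h4⟩ => ⟨h1, h3, Finset.mem_powerset.2
      fun i hi => Finset.mem_range.2 ((h2 i hi).trans_le h3), h4, trivial⟩

noncomputable def tt (f : DD J → ℝ) (c : J × ℕ) (n : ℕ) : ℝ :=
  min ((Finset.range (n + 1)).fold min 1 fun k => (Finset.range k).powerset.fold max 0
    fun w => f (none, k, w, 0, False) - 1 - 1)
    ((col_finite c n).toFinset.fold min (f (some c, 0, ∅, n, True) - 1 - 1) fun d => 1 - f d)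

noncomputable def phi (f : DD J → ℝ) (c : J × ℕ) : ℝ := ⨆ n, max 0 (tt f c n)

theorem tt_bdd (f : DD J → ℝ) (c : J × ℕ) : BddAbove (range fun n => max 0 (tt f c n)) :=
  ⟨1, by
    rintro _ ⟨n, rfl⟩
    exact max_le zero_le_one ((min_le_left _ _).trans ((Finset.fold_min_le _).2 (Or.inl le_rfl)))⟩

theorem continuous_tt (c : J × ℕ) (n : ℕ) : Continuous fun f : DD J → ℝ => tt f c n :=
  (continuous_fold_min _ continuous_const fun _ => continuous_fold_max _ continuous_const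
    fun _ => by fun_prop).min (continuous_fold_min _ (by fun_prop) fun _ => by fun_prop)

theorem continuousAt_phi {f : DD J → ℝ} {c : J × ℕ}
    (h : (∀ d : DD J, d.1 = some c → (∀ i ∈ d.2.2.1, i < d.2.1) → f d ≤ 1) → {d | 2 ≤ f d}.Finite) :
    ContinuousAt (fun f => phi f c) f := by
  obtain ⟨V, N, hV, hf, hN⟩ : ∃ (V : Set (DD J → ℝ)) (N : ℕ), IsOpen V ∧ f ∈ V ∧
      ∀ g ∈ V, ∀ n, N ≤ n → tt g c n ≤ 0 := by
    by_cases h1 : ∀ d : DD J, d.1 = some c → (∀ i ∈ d.2.2.1, i < d.2.1) → f d ≤ 1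
    · obtain ⟨k, hk⟩ := ((h h1).image fun d => d.2.1).exists_notMem
      refine ⟨⋂ w ∈ (Finset.range k).powerset, {g | g (none, k, w, 0, False) < 2}, k,
        isOpen_biInter_finset fun w _ => isOpen_lt (by fun_prop) continuous_const,
        mem_iInter₂.2 fun w _ => (not_le.1 fun h2 => hk ⟨(none, k, w, 0, False), h2, rfl⟩ :
          f (none, k, w, 0, False) < 2), fun g hg n hn =>
        (min_le_left _ _).trans ((Finset.fold_min_le _).2 (Or.inr ⟨k, Finset.mem_range.2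
          (Nat.lt_succ_of_le hn), (Finset.fold_max_le _).2 ⟨le_rfl, fun w hw => ?_⟩⟩))⟩
      have : g _ < 2 := mem_iInter₂.1 hg w hw
      linarith
    · push Not at h1
      obtain ⟨d, h1, h2, h3⟩ := h1
      refine ⟨{g | 1 < g d}, d.2.1 + d.2.2.2.1 + 1, isOpen_lt continuous_const (by fun_prop), h3,
        fun g hg n hn => (min_le_right _ _).trans ((Finset.fold_min_le _).2 (Or.inr ⟨d,
          (Finite.mem_toFinset _).2 ⟨h1, h2, by omega, by omega⟩, ?_⟩))⟩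
      have : 1 < g d := hg
      linarith
  have h2 : Continuous fun g : DD J → ℝ => (Finset.range N).fold max 0 fun n => tt g c n :=
    continuous_fold_max _ continuous_const (continuous_tt c)
  refine h2.continuousAt.congr (Filter.mem_of_superset (hV.mem_nhds hf) fun g hg => ?_)
  refine le_antisymm ((Finset.fold_max_le _).2 ⟨(le_max_left _ _).trans (le_ciSup (tt_bdd g c) 0),
    fun n _ => (le_max_right _ _).trans (le_ciSup (tt_bdd g c) n)⟩) (ciSup_le fun n => ?_)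
  refine max_le ((Finset.le_fold_max _).2 (Or.inl le_rfl)) ((Finset.le_fold_max _).2 ?_)
  by_cases hn : N ≤ n
  · exact Or.inl (hN g hg n hn)
  · exact Or.inr ⟨n, Finset.mem_range.2 (not_le.1 hn), le_rfl⟩

theorem phi_ind (g : L → J × ℕ → ℕ) (H : L → J × ℕ → Prop) (a : J) (ξ : L) (c : J × ℕ) :
    phi (fun d => if AA g H a ξ d then 3 else 0) c = if H ξ c then 1 else 0 := by
  split_ifs with h
  · refine le_antisymm (ciSup_le fun n => max_le zero_le_one ((min_le_left _ _).trans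
      ((Finset.fold_min_le _).2 (Or.inl le_rfl)))) (le_trans ?_ (le_ciSup (tt_bdd _ c) (g ξ c)))
    refine le_max_of_le_right (le_min ((Finset.le_fold_min _).2 ⟨le_rfl, fun k _ =>
      (Finset.le_fold_max _).2 (Or.inr ⟨nu g a ξ k, Finset.mem_powerset.2 (Finset.filter_subset _ _),
        ?_⟩)⟩) ((Finset.le_fold_min _).2 ⟨?_, fun d hd => ?_⟩))
    · beta_reduce
      rw [if_pos (by exact ⟨rfl, Or.inl ⟨rfl, rfl⟩⟩)]; norm_num
    · beta_reduce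
      rw [if_pos (by exact ⟨by simp [nu], Or.inr ⟨c, rfl, by simp [h]⟩⟩)]; norm_num
    · obtain ⟨h1, -, -, h2⟩ := (Finite.mem_toFinset _).1 hd
      beta_reduce
      rw [if_neg, sub_zero]
      rintro ⟨-, ⟨h3, -⟩ | ⟨c', h3, h4⟩⟩
      · simp [h1] at h3
      · obtain rfl : c = c' := by simpa [h1] using h3
        simp [h4] at h2
  · refine le_antisymm (ciSup_le fun n => max_le le_rfl ((min_le_right _ _).trans
      ((Finset.fold_min_le _).2 (Or.inl ?_)))) ((le_max_left _ _).trans (le_ciSup (tt_bdd _ c) 0))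
    beta_reduce
    rw [if_neg]
    · norm_num
    · rintro ⟨-, ⟨h3, -⟩ | ⟨c', h3, h4⟩⟩
      · simp at h3
      · obtain rfl : c = c' := by simpa using h3
        simp [h] at h4

variable [Srt M J] [Sm M J] [Srt M L] [Sm M L]

theorem df_phi {Z : Type*} [Srt M Z] {f : Z → DD J → ℝ} (hf : DfR M fun p : Z × DD J => f p.1 p.2) :
    DfR M fun p : Z × J × ℕ => phi (f p.1) p.2 := by
  refine DfR.iSup (F := fun (p : Z × J × ℕ) n => max 0 (tt (f p.1) p.2 n)) (DfR.max (by fun_prop)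
    (DfF.congr (P := fun p : ((Z × J × ℕ) × ℕ) × ℚ => ((p.2 : ℝ) < 1 ∧ ∀ k, k < p.1.2 + 1 →
      ((p.2 : ℝ) < 0 ∨ ∃ w : Finset ℕ, (∀ i ∈ w, i < k) ∧
        (p.2 : ℝ) < f p.1.1.1 (none, k, w, 0, False) - 1 - 1)) ∧
      (p.2 : ℝ) < f p.1.1.1 (some p.1.1.2, 0, ∅, p.1.2, True) - 1 - 1 ∧
        ∀ d, col p.1.1.2 p.1.2 d → (p.2 : ℝ) < 1 - f p.1.1.1 d)
      (by simp only [col, all_iff, imp_iff]; fun_prop) fun p => ?_)) fun p => tt_bdd _ _
  simp only [tt, lt_min_iff, Finset.lt_fold_min, Finset.lt_fold_max, Finset.mem_range,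
    Finset.mem_powerset, Finset.subset_iff, Finite.mem_toFinset, mem_ofPred_eq]

/-- The combinatorial hypothesis: strongly almost disjoint functions, as many as there are
subsets of an uncountable set. -/
structure SAD (M : Set ZFSet.{0}) [Fact (ZFC M)] {J : Type u} {L : Type v} [Srt M J] [Srt M L]
    (g : L → J × ℕ → ℕ) (H : L → J × ℕ → Prop) : Prop where
  dg : DfF M fun p : L × J × ℕ => g p.1 p.2
  dH : DfF M fun p : L × J × ℕ => H p.1 p.2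
  ad : ∀ ξ η, ξ ≠ η → {c | g ξ c = g η c}.Finite
  all : ∀ s : PS M (J × ℕ), ∃ ξ, ∀ c, H ξ c ↔ c ∈ s
  unc : ¬ Ctb M fun _ : J => True

theorem SAD.dA {g : L → J × ℕ → ℕ} {H : L → J × ℕ → Prop} (h : SAD M g H) (a : J) :
    DfF M fun p : L × DD J => AA g H a p.1 p.2 := by
  have := h.dg
  have := h.dH
  have : DfF M fun p : L × ℕ => nu g a p.1 p.2 := DfF.of_rel (P := fun p (s : Finset ℕ) =>
    All fun n => (n < p.2 ∧ ∃ j, n = Nat.pair j (g p.1 (a, j))) ↔ n ∈ s) (by fun_prop)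
    fun p s => by simp [nu, All, Finset.ext_iff]
  unfold AA
  fun_prop

theorem SAD.onto {g : L → J × ℕ → ℕ} {H : L → J × ℕ → Prop} (h : SAD M g H) (a : J)
    [DTop M (Mr (AA g H a))] : ∃ Φ : Cp M (Mr (AA g H a)) → Cube M J, DfF M Φ ∧ Continuous Φ ∧
      Surjective Φ := by
  obtain ⟨Φ, dΦ, hΦ⟩ := exists_cube_lam (M := M) (J := J)
    (φ := fun f : Cp M (Mr (AA g H a)) => bin (phi fun d => f.ev (dd d)))
    (DfR.bin (y := fun f : Cp M (Mr (AA g H a)) => phi fun d => f.ev (dd d)) (df_phi (f := fun (f : Cp M (Mr (AA g H a))) d => f.ev (dd d)) (by fun_prop)))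
    fun _ _ => bin_mem _ _
  refine ⟨Φ, dΦ, continuous_induced_rng.2 ?_, fun y => ?_⟩
  · simp only [comp_def, hΦ]
    refine continuous_bin.comp (continuous_pi fun c => continuous_iff_continuousAt.2 fun f => ?_)
    refine ContinuousAt.comp (g := fun f => phi f c) (continuousAt_phi fun h1 => ?_)
      (continuous_pi fun d => Cp.continuous_ev _).continuousAt
    refine mr_finite f.continuous one_lt_two (S := {d | d.1 = some c ∧ ∀ i ∈ d.2.2.1, i < d.2.1})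
      (fun d hd => h1 d hd.1 hd.2) (fun ξ => ?_) fun F => ?_
    · exact infinite_of_injective_forall_mem (f := fun k : ℕ => (some c, k, nu g a ξ k, g ξ c, H ξ c))
        (fun _ _ e => (Prod.ext_iff.1 (Prod.ext_iff.1 e).2).1) fun k =>
        ⟨⟨rfl, Or.inr ⟨c, rfl, rfl⟩⟩, rfl, fun i hi => Finset.mem_range.1 (Finset.mem_filter.1 hi).1⟩
    · refine infinite_of_injective_forall_mem
        (f := fun m : ℕ => (some c, 0, ∅, F.sup (fun ξ => g ξ c) + 1 + m, True))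
        (fun _ _ e => by simpa using e) fun m => ⟨⟨rfl, by simp⟩, ?_⟩
      rintro ξ hξ ⟨-, ⟨h3, -⟩ | ⟨c', h3, h4⟩⟩
      · simp at h3
      · obtain rfl : c = c' := by simpa using h3
        have h5 := Finset.le_sup (f := fun ξ => g ξ c) hξ
        have h6 := (Prod.ext_iff.1 h4).1
        simp only at h5 h6
        omega
  · obtain ⟨s, ds, hs⟩ := exists_bits (M := M) (y := y.ev) (by fun_prop) y.mem
    obtain ⟨ξ, hξ⟩ := h.all (PS.of M s)
    have := h.dA a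
    obtain ⟨f, hf⟩ := exists_cp_ind (M := M) (P := Kx (AA g H a) ξ) (by unfold Kx; fun_prop)
      (clopen_K (AA_ad H a h.ad) ξ) ((3 : ℚ) : ℝ) 0
    refine ⟨f, Cube.ext ?_⟩
    rw [hΦ, ← hs]
    congr 1
    funext c
    rw [← PS.mem_of (M := M) ds, ← hξ, ← phi_ind g H a ξ c]
    simp [hf, Kx]

end Pool.Agent.MP_b07c92_gt.Indep

end MrgPart2

-- ======== part 3: formerly Pool.Agent.MP_b07c92_gt.h92.Force2
section MrgPart3

/-! A transitive model of ZFC with the principle `SAD`. -/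

namespace Pool.Agent.MP_b07c92_gt.Indep

open Pool.Agent.ZF92 Pool.Agent.Forcing92 Function Set
open scoped Classical

abbrev PP := Cd (Set (Set ℕ)) (Set ℕ × ℕ)
abbrev IX := (ℕ → WW (Set ℕ × ℕ)) × Lc (Set ℕ × ℕ)

noncomputable def nJ (t : PP) : Set ℕ × ℕ → Name PP := prodN t (chk t) (natName t)

def R2 (t : PP) (ν : Set (Set ℕ) → Set ℕ × ℕ → IX →
      Option ((ℕ → Set (Set ℕ)) × Set ℕ × Set ℕ × Lc (Set ℕ × ℕ)))
    (c : Name PP → Set ℕ × ℕ → IX → Option PP) (Ξ : Name PP → Set (Set ℕ)) :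
    ℕ → (ℕ → Name PP) → Name PP → PP → Prop
  | 0, _, x, _ => x = relN (chk t : Set (Set ℕ) → _) fun _ _ => True
  | 1, _, x, _ => x = relN (chk t : Set ℕ → _) fun _ _ => True
  | 2, _, x, _ => x = relN (prodN t (prodN t (chk t) (nJ t)) (natName t)) fun a p =>
      a.1.1 ∈ p.F' ∧ a.1.2 ∈ p.a ∧ Nat.pair (p.e a.1.1 a.1.2) (p.m a.1.1 a.1.2) = a.2
  | 3, _, x, _ => x = relN (prodN t (chk t) (nJ t)) fun a p => ∃ i, ν a.1 a.2 i = some (full p)
  | 4, w, _, p => ∃ ξ α, w 0 = chk t ξ ∧ w 1 = nJ t α ∧ ξ ∈ p.F' ∧ α ∈ p.a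
  | 5, w, x, _ => x = chk t (Ξ (w 0))
  | 6, w, _, p => ∃ α, w 1 = nJ t α ∧ ∃ i p', c (w 0) α i = some p' ∧ le2 p p'
  | _ + 7, w, x, p => (∃ n a b, a ≠ b ∧ x = pairN t (chk t a) (chk t b) ∧
      fMem le2 (nJ t (a, n)) (w 0) p ∧ fMem le2 (nJ t (b, n)) (w 0) p) ∨
      ∃ a : Set ℕ, x = chk t a ∧ ∀ r, le2 r p → ∀ n, ¬ fMem le2 (nJ t (a, n)) (w 0) r

theorem unc_dense {A : Set ℕ → ℕ → PP → Prop} (hA : ∀ a n q r, le2 r q → A a n q → A a n r)
    {p : PP} (h : ∀ r, le2 r p → ∀ n a b, A a n r → A b n r → a = b) :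
    ∃ q, le2 q p ∧ ∃ a, ∀ r, le2 r q → ∀ n, ¬ A a n r := by
  obtain ⟨q, h1, C, h2, h3⟩ := proper (D := fun n r => (∃ a, A a n r) ∨ ∀ s, le2 s r → ∀ a, ¬ A a n s)
    (fun n r => by
      by_cases g : ∃ s, le2 s r ∧ ∃ a, A a n s
      · exact g.imp fun s hs => ⟨hs.1, Or.inl hs.2⟩
      · exact ⟨r, lrefl r, Or.inr fun s hs a ha => g ⟨s, hs, a, ha⟩⟩) p
  let f : PP × ℕ → Set ℕ := fun x => if h : ∃ a, A a x.2 x.1 then h.choose else ∅
  obtain ⟨a, ha⟩ : ∃ a, a ∉ f '' C ×ˢ univ := by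
    by_contra hn
    push Not at hn
    have : (univ : Set (Set ℕ)).Countable := ((h2.prod countable_univ).image f).mono fun a _ => hn a
    obtain ⟨g, hg⟩ := countable_iff_exists_subset_range.1 this
    exact cantor_surjective g fun a => hg (mem_univ a)
  refine ⟨q, h1, a, fun r hr n g => ha ?_⟩
  obtain ⟨r', h4, h5, s, h6, h7⟩ := h3 n r hr
  have h8 := h5.resolve_right fun g' => g' s h7 a (hA _ _ _ _ h6 g)
  exact ⟨(r', n), ⟨h4, trivial⟩, (dif_pos h8).trans (h s (ltrans h6 (ltrans hr h1)) n _ _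
    (hA _ _ _ _ h7 h8.choose_spec) (hA _ _ _ _ h6 g))⟩

theorem exists_sad : ∃ (M : Set ZFSet.{0}) (_ : Fact (ZFC M)) (J L : Type) (_ : Srt M J) (_ : Sm M J)
    (_ : Srt M L) (_ : Sm M L) (g : L → J × ℕ → ℕ) (H : L → J × ℕ → Prop), SAD M g H := by
  let t : PP := ⟨∅, ∅, 0, ∅, ∅, 0, countable_empty, countable_empty, finite_empty, finite_empty,
    Subset.rfl, Subset.rfl⟩
  have ht : ∀ p, le2 p t := fun p => ⟨⟨empty_subset _, empty_subset _, fun _ h => h.elim,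
    fun _ h => h.elim⟩, empty_subset _, empty_subset _, fun _ h => h.elim, fun _ h => h.elim⟩
  obtain ⟨ν, hν⟩ := exists_nu
  choose c hc1 hc2 using fun (τ : Name PP) α => chain_cond {p | fMem le2 (nJ t α) τ p}
  choose Ξ hΞ using fun τ => hν fun α i => (c τ α i).map full
  obtain ⟨N, G, -, h, h'⟩ := exists_gen_zfc le2 t (R2 t ν c Ξ) t
  have hM : Fact (ZFC (val N G '' N)) := ⟨h.zfc ht⟩
  have e0 := fin'_emp h.emp_mem
  obtain ⟨_, _, hL⟩ := h.exists_srt (h.vi_chk ht (Set (Set ℕ))) (h'.op 0 e0 fun _ _ => Iff.rfl)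
  obtain ⟨_, _, hI⟩ := h.exists_srt (h.vi_chk ht (Set ℕ)) (h'.op 1 e0 fun _ _ => Iff.rfl)
  have hN := h.emb_nat ht
  have hJ := h.emb_prod ht hI hN
  have vL := h.vi_chk ht (Set (Set ℕ))
  have vN := h.vi_nat ht
  have vJ : VI N G (nJ t) := h.vi_prod ht (h.vi_chk ht (Set ℕ)) vN
  have iJ : ∀ (α : Sub N (chk t : Set ℕ → _) × ℕ) β, nJ t (α.1.a, α.2) = nJ t β →
      β = (α.1.a, α.2) := fun α β e => vJ _ _ (by rw [← e]; exact (hJ α).1) (hJ α).1 (by rw [e])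
  have d2 := (h.emb_prod ht (h.emb_prod ht hL hJ) hN).df (h.vi_prod ht (h.vi_prod ht vL vJ) vN)
    (h'.op 2 e0 fun _ _ => Iff.rfl)
  have d3 := (h.emb_prod ht hL hJ).df (h.vi_prod ht vL vJ) (h'.op 3 e0 fun _ _ => Iff.rfl)
  have hext : ∀ (ξ : Sub N (chk t : Set (Set ℕ) → _)) (α : Sub N (chk t : Set ℕ → _) × ℕ),
      ∃ p ∈ G, ξ.a ∈ p.F' ∧ (α.1.a, α.2) ∈ p.a := fun ξ α => by
    obtain ⟨r, hr, -, -, η, β, h1, h2, h3, h4⟩ := h'.dense 4 (h.env2 ξ.mem (hJ α).1) (h.top_mem ht)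
      fun q _ => let ⟨s, h1, h2⟩ := exists_ext q ξ.a (α.1.a, α.2); ⟨s, h1, emp, _, _, rfl, rfl, h2⟩
    exact ⟨r, hr, chk_inj ht h1 ▸ h3, iJ α β h2 ▸ h4⟩
  obtain ⟨g, dg, hg⟩ := exists_choice (R := fun (x : Sub N (chk t : Set (Set ℕ) → _) ×
    Sub N (chk t : Set ℕ → _) × ℕ) (n : ℕ) => ∃ p ∈ G, x.1.a ∈ p.F' ∧ (x.2.1.a, x.2.2) ∈ p.a ∧
      Nat.pair (p.e x.1.a (x.2.1.a, x.2.2)) (p.m x.1.a (x.2.1.a, x.2.2)) = n) d2 fun x =>
    let ⟨p, h1, h2, h3⟩ := hext x.1 x.2; ⟨_, p, h1, h2, h3, rfl⟩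
  refine ⟨_, hM, Sub N (chk t : Set ℕ → _), Sub N (chk t : Set (Set ℕ) → _), inferInstance,
    inferInstance, inferInstance, inferInstance, fun ξ α => g (ξ, α),
    fun ξ α => ∃ p ∈ G, ∃ i, ν ξ.a (α.1.a, α.2) i = some (full p), dg, d3, fun ξ η hne => ?_,
    fun s => ?_, ?_⟩
  · refine (eq_empty_or_nonempty {c | g (ξ, c) = g (η, c)}).elim (fun e => e ▸ finite_empty)
      fun ⟨α, _⟩ => ?_
    obtain ⟨p1, h1, h2, -⟩ := hext ξ α
    obtain ⟨p2, h3, h4, -⟩ := hext η α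
    obtain ⟨p, hp, h5, h6⟩ := h.dir h1 h3
    refine (p.fa.preimage (f := fun α : Sub N (chk t : Set ℕ → _) × ℕ => (α.1.a, α.2))
      fun a _ b _ e => Prod.ext (Sub.ext (Prod.ext_iff.1 e).1) (Prod.ext_iff.1 e).2).subset
      fun β hβ => by_contra fun hn => ?_
    obtain ⟨q1, g1, g2, g3, g4⟩ := hg (ξ, β)
    obtain ⟨q2, g5, g6, g7, g8⟩ := hg (η, β)
    obtain ⟨q, -, g9, g10, g11⟩ := h.dir3 hp g1 g5
    have g12 := Nat.pair_eq_pair.1 (g4.trans (Eq.trans hβ g8.symm))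
    refine g9.2.hd _ (h5.2.hF h2) _ (h6.2.hF h4) (fun e => hne (Sub.ext e)) _ (g10.2.ha g3) hn ?_ ?_
    · rw [g10.1.he _ (q1.sF g2) _ (q1.sa g3), g11.1.he _ (q2.sF g6) _ (q2.sa g7), g12.1]
    · rw [g10.2.hm _ g2 _ g3, g11.2.hm _ g6 _ g7, g12.2]
  · obtain ⟨τ, hτ, e⟩ := h.exists_name_ps hJ s
    refine ⟨⟨Ξ τ, h'.op 5 (h.env1 hτ) fun _ _ => Iff.rfl⟩, fun α => ?_⟩
    simp only [e, hΞ, Option.map_eq_some_iff]
    constructor
    · rintro ⟨p, hp, i, p', h1, h2⟩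
      exact ⟨p, hp, fMem_mono (full_eq h2.symm) (hc1 _ _ _ _ h1)⟩
    · rintro ⟨p, hp, h1⟩
      obtain ⟨r, hr, -, -, β, h2, i, p', h3, h4⟩ := h'.dense 6 (h.env2 hτ (hJ α).1) hp fun q hq =>
        let ⟨i, p', h2, s, h3, h4⟩ := hc2 τ (α.1.a, α.2) q (fMem_mono hq h1)
        ⟨s, h3, emp, _, rfl, i, p', h2, h4⟩
      obtain rfl := iJ α β h2
      exact ⟨p', h.up hr h4, i, p', h3, rfl⟩
  · rintro ⟨u, hu⟩
    obtain ⟨τ, hτ, e⟩ := h.exists_name_ps hJ u.gr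
    obtain ⟨r, hr, x, hx, h1⟩ := h'.dense 7 (h.env1 hτ) (h.top_mem ht) fun q _ => by
      by_cases h1 : ∃ r, le2 r q ∧ ∃ n a b, fMem le2 (nJ t (a, n)) τ r ∧
        fMem le2 (nJ t (b, n)) τ r ∧ a ≠ b
      · obtain ⟨r, h1, n, a, b, h2, h3, h4⟩ := h1
        exact ⟨r, h1, _, Or.inl ⟨n, a, b, h4, rfl, h2, h3⟩⟩
      · push Not at h1
        obtain ⟨r, h2, a, h3⟩ := unc_dense (A := fun a n => fMem le2 (nJ t (a, n)) τ)
          (fun _ _ _ _ h => fMem_mono h) h1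
        exact ⟨r, h2, _, Or.inr ⟨a, rfl, h3⟩⟩
    rcases h1 with ⟨n, a, b, h1, rfl, h2, h3⟩ | ⟨a, rfl, h1⟩
    · obtain ⟨ha, hb⟩ := h.pairN_mem_iff.1 hx
      exact h1 (congrArg Sub.a (hu ⟨a, ha⟩ ⟨b, hb⟩ trivial trivial
        ((Fn.mem_gr.1 ((e (⟨a, ha⟩, n)).2 ⟨r, hr, h2⟩)).trans
          (Fn.mem_gr.1 ((e (⟨b, hb⟩, n)).2 ⟨r, hr, h3⟩)).symm)))
    · obtain ⟨p, hp, h2⟩ := (e (⟨a, hx⟩, u.ap ⟨a, hx⟩)).1 (Fn.mem_gr.2 rfl)
      obtain ⟨q, -, h3, h4⟩ := h.dir hr hp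
      exact h1 q h3 _ (fMem_mono h4 h2)

end Pool.Agent.MP_b07c92_gt.Indep

end MrgPart3

-- ======== part 4: formerly Pool.Agent.MP_b07c92_gt.h92.Main
section MrgPart4

/-! The two models for the question on left-separated compacta. -/

namespace Pool.Agent.MP_b07c92_gt.Indep

open Pool.Agent.ZF92

theorem left_model : ∃ M : Set ZFSet.{0}, ZFC M ∧ ∀ K ∈ M, ∀ T ∈ M, ∀ Y ∈ M, ∀ S ∈ M,
    CompactSp M K T → LeftSeparated M K T → CompactSp M Y S → ImageOfCp M K T Y S →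
      Metrizable M Y S := by
  obtain ⟨M, hM, I, _, _, r, b, hb⟩ := exists_book
  refine ⟨M, hM.out, fun K hK T hT Y hY S hS h1 h2 h3 h4 => ?_⟩
  obtain ⟨_, _, rT⟩ := exists_top (K := ⟨K, hK⟩) hT h1
  obtain ⟨_, _, rS⟩ := exists_top (K := ⟨Y, hY⟩) hS h3
  have e1 : K = un M (El M ⟨K, hK⟩) := (un_el ⟨K, hK⟩).symm
  have e2 : Y = un M (El M ⟨Y, hY⟩) := (un_el ⟨Y, hY⟩).symm
  rw [e1] at h1 h2
  rw [e2] at h3 ⊢
  rw [e1, e2] at h4
  obtain ⟨_, g1, g2⟩ := rT.of_compact h1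
  obtain ⟨_, g3, g4⟩ := rS.of_compact h3
  obtain ⟨rK, g5, g6⟩ := rT.left_iff.1 h2
  obtain ⟨Φ, g7, g8, g9⟩ := (rT.image_iff rS).1 h4
  exact rS.metr_iff.2 (metrizable hb g2 g1 g5 g6 g4 g3 g7 g8 g9)

theorem neg_model : ∃ M : Set ZFSet.{0}, ZFC M ∧ ∃ K ∈ M, ∃ T ∈ M, ∃ Y ∈ M, ∃ S ∈ M,
    CompactSp M K T ∧ LeftSeparated M K T ∧ Scattered M K T ∧ CompactSp M Y S ∧
      ImageOfCp M K T Y S ∧ ¬ Metrizable M Y S := by
  obtain ⟨M, hM, J, L, _, _, _, _, g, H, h⟩ := exists_sad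
  obtain ⟨a⟩ : Nonempty J := by
    by_contra hn
    exact h.unc (Ctb.of_finite (Set.finite_empty.subset fun x _ => hn ⟨x⟩))
  have ad := AA_ad H a h.ad
  have := mr_dtop (h.dA a) ad
  have := mr_t2 (h.dA a) ad
  obtain ⟨T, hT, rT⟩ := exists_rep (M := M) (Mr (AA g H a))
  obtain ⟨S, hS, rS⟩ := exists_rep (M := M) (Cube M J)
  exact ⟨M, hM.out, _, un_mem, T, hT, _, un_mem, S, hS,
    rT.compact (mr_tych (h.dA a) ad) mcpt_of_compact, rT.left_iff.2 mr_left,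
    rT.scattered (mr_scattered ad), rS.compact Cube.mtych Cube.mcpt,
    (rT.image_iff rS).2 (h.onto a), fun h' => Cube.not_mmetr h.unc (rS.metr_iff.1 h')⟩

end Pool.Agent.MP_b07c92_gt.Indep

end MrgPart4

-- marker of a merged file
example : 731051 + 235110 = 731051 + 235110 := rfl

end MrgPart4

-- marker of a merged file
example : 731051 + 235110 = 731051 + 235110 := rfl
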