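import Mathlib.Algebra.Ring.Nat
import Mathlib.Algebra.Order.Monoid.NatCast
import Mathlib.Algebra.Order.Group.Nat
import Mathlib.Data.Set.Countable
import Mathlib.Data.W.Basic
import Mathlib.Data.Rat.Encodable
import Mathlib.Data.Finset.Functor
import Pool.Agent.Lib.helper92.Forcing
import Pool.Agent.MP_b07c92_gt.h92.Main
import Pool.Agent.Lib.helper92.ZF.GenAPI

-- ======== part 0: formerly Pool.Agent.MP_b07c92_gt.h92.Add
section MrgPart0

/-! Countable conditions: supports of names, delta systems and a splitting dichotomy. -/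

namespace Pool.Agent.MP_b07c92_gt.Indep

open Pool.Agent.Forcing92 Function Set
open scoped Classical

variable {O V : Type}

structure Ad (O V : Type) where
  f : O → Option V
  c : {x | f x ≠ none}.Countable

def le3 (q p : Ad O V) : Prop := ∀ x v, p.f x = some v → q.f x = some v

instance : Pre (le3 (O := O) (V := V)) where
  refl _ _ _ h := h
  trans h h' x v e := h x v (h' x v e)

theorem exists_chain {S : Type*} {P : S → Prop} {R : ℕ → S → S → Prop} {s0 : S} (h0 : P s0)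
    (h : ∀ n s, P s → ∃ s', P s' ∧ R n s s') :
    ∃ s : ℕ → S, s 0 = s0 ∧ ∀ n, P (s n) ∧ R n (s n) (s (n + 1)) := by
  choose! F h1 h2 using h
  let s : ℕ → S := fun n => Nat.rec s0 F n
  have h3 : ∀ n, P (s n) := fun n => by
    induction n with
    | zero => exact h0
    | succ n ih => exact h1 n _ ih
  exact ⟨s, rfl, fun n => ⟨h3 n, h2 n _ (h3 n)⟩⟩

theorem lower3 {s : ℕ → Ad O V} (hs : ∀ n, le3 (s (n + 1)) (s n)) :
    ∃ q, (∀ n, le3 q (s n)) ∧ ∀ x, (∀ n, (s n).f x = none) → q.f x = none := by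
  have h1 : ∀ m n, m ≤ n → le3 (s n) (s m) := fun m n h => by
    induction h with
    | refl => exact lrefl _
    | step _ ih => exact ltrans (hs _) ih
  refine ⟨⟨fun x => if h : ∃ n, (s n).f x ≠ none then (s h.choose).f x else none,
    (countable_iUnion fun n => (s n).c).mono fun x hx => mem_iUnion.2 (by_contra fun h =>
      hx (dif_neg h))⟩, fun n x v e => ?_, fun x h => dif_neg fun ⟨n, hn⟩ => hn (h n)⟩
  have h2 : ∃ n, (s n).f x ≠ none := ⟨n, by simp [e]⟩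
  obtain ⟨w, hw⟩ := Option.ne_none_iff_exists'.1 h2.choose_spec
  refine (dif_pos h2).trans (hw.trans ?_)
  rw [← h1 _ _ (le_max_left n h2.choose) x v e, h1 _ _ (le_max_right n h2.choose) x w hw]

def Ad.un (p q : Ad O V) : Ad O V := ⟨fun x => (p.f x).or (q.f x), (p.c.union q.c).mono fun x hx => by
  by_contra h
  simp only [mem_union, mem_ofPred_eq, not_or, not_not] at h
  simp [h.1, h.2] at hx⟩

theorem un_left (p q : Ad O V) : le3 (p.un q) p := fun x v e => by simp [Ad.un, e]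

theorem un_right {p q : Ad O V} (h : ∀ x v w, p.f x = some v → q.f x = some w → v = w) :
    le3 (p.un q) q := fun x v e => by
  rcases h1 : p.f x with _ | w
  · simp [Ad.un, h1, e]
  · simp [Ad.un, h1, h x w v h1 e]

noncomputable def Ad.upd (p : Ad O V) (x : O) (v : V) : Ad O V :=
  ⟨update p.f x (some v), (p.c.insert x).mono fun y hy => by
    by_cases h : y = x
    · exact Or.inl h
    · exact Or.inr (by simpa [h] using hy)⟩

theorem upd_le {p : Ad O V} {x : O} (h : p.f x = none) (v : V) : le3 (p.upd x v) p :=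
  fun y w e => (update_of_ne (fun e' => by simp [← e', e] at h) _ _).trans e

theorem upd_self (p : Ad O V) (x : O) (v : V) : (p.upd x v).f x = some v := by simp [Ad.upd]

noncomputable def Ad.res (p : Ad O V) (B : Set O) : Ad O V :=
  ⟨fun x => if x ∈ B then p.f x else none, p.c.mono fun x hx (h : p.f x = none) => hx (by simp [h])⟩

abbrev WT (L T : Type) := WType fun o : Option L => {_t : T // o.isSome}

theorem exists_closed {T L : Type} [Nonempty O] (F : (T → O) → L → O) :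
    ∃ ev : WT L T → O, (range ev).Nonempty ∧
      ∀ σ : T → O, (∀ t, σ t ∈ range ev) → ∀ l, F σ l ∈ range ev := by
  let ev : WT L T → O := WType.elim O fun x => if h : x.1.isSome then
    F (fun t => x.2 ⟨t, h⟩) (x.1.get h) else Classical.arbitrary O
  refine ⟨ev, ⟨_, WType.mk none fun x => absurd x.2 (by simp), rfl⟩, fun σ h l => ?_⟩
  choose f hf using h
  exact ⟨WType.mk (some l) fun t => f t.1, by rw [← funext hf]; rfl⟩

theorem exists_support {E : Type} [Nonempty O] (U : E → Set (Ad O V))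
    (hm : ∀ e p q, le3 q p → p ∈ U e → q ∈ U e)
    (hd : ∀ e p, (∀ q, le3 q p → ∃ r, le3 r q ∧ r ∈ U e) → p ∈ U e) :
    ∃ ev : WT (E × (ℕ → Option V) × ℕ) ℕ → O, ∀ e w w', w ∈ U e →
      (∀ t, w'.f (ev t) = w.f (ev t)) → w' ∈ U e := by
  choose en hen using fun p : Ad O V => countable_iff_exists_subset_range.1 p.c
  obtain ⟨ev, ⟨x0, h0⟩, hev⟩ := exists_closed (T := ℕ) fun σ (l : E × (ℕ → Option V) × ℕ) =>
    if h : ∃ p ∈ U l.1, p.f ∘ σ = l.2.1 then en h.choose l.2.2 else σ 0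
  refine ⟨ev, fun e w w' hw h => hd e w' fun q hq => ?_⟩
  let r : Ad O V := w.un (q.res (range ev))
  obtain ⟨σ, hσ⟩ := countable_iff_exists_subset_range.1 r.c
  let τ : ℕ → O := fun n => if σ n ∈ range ev then σ n else x0
  have h1 : ∃ p ∈ U e, p.f ∘ τ = r.f ∘ τ := ⟨r, hm e _ _ (un_left _ _) hw, rfl⟩
  refine ⟨h1.choose.un q, un_right fun x u v h2 h3 => ?_, hm e _ _ (un_left _ _) h1.choose_spec.1⟩
  obtain ⟨k, hk⟩ := hen h1.choose (a := x) (by simp [h2])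
  have h4 := hev τ (fun n => by simp only [τ]; split_ifs <;> assumption) (e, r.f ∘ τ, k)
  simp only [dif_pos h1, hk] at h4
  have h5 : r.f x = some v := by
    refine un_right (fun y a b h5 h6 => ?_) x v ((if_pos h4).trans h3)
    simp only [Ad.res] at h6
    split_ifs at h6 with h7
    obtain ⟨t, rfl⟩ := h7
    exact Option.some.inj ((hq _ _ ((h t).trans h5)).symm.trans h6)
  obtain ⟨n, rfl⟩ := hσ (a := x) (by simp [h5])
  have h6 := congrFun h1.choose_spec.2 n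
  simp only [comp_apply, τ, if_pos h4, h2, h5] at h6
  exact Option.some.inj h6

theorem exists_delta {T K L : Type} [Nonempty O] (b : L → T → O) (cd : L → K) (c0 : T → O)
    (π : O → L) (hL : ∀ g : WT (Option (K × Set (T × T × ℕ)) × T) (T × ℕ) → L, ¬ Surjective g) :
    ∃ (ζ : ℕ → L) (J : Set T), (∀ n, cd (ζ n) = cd (ζ 0)) ∧ (∀ i ∈ J, ∀ n, b (ζ n) i = b (ζ 0) i) ∧
      (∀ i ∉ J, ∀ n, (∀ j, b (ζ n) i ≠ c0 j) ∧ ∀ m, m ≠ n → ∀ j, b (ζ n) i ≠ b (ζ m) j) ∧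
      ∀ i, (∀ ξ, π (b ξ i) = ξ) → i ∉ J := by
  have : Nonempty L := ⟨π (Classical.arbitrary O)⟩
  let tp : (T × ℕ → O) → L → K × Set (T × T × ℕ) := fun σ ξ => (cd ξ, {x | b ξ x.1 = σ x.2})
  obtain ⟨ev, ⟨x0, h0⟩, hev⟩ := exists_closed (T := T × ℕ)
    fun σ (l : Option (K × Set (T × T × ℕ)) × T) => l.1.elim (c0 l.2) fun k => b (invFun (tp σ) k) l.2
  obtain ⟨ξ, hξ⟩ := not_forall.1 (hL (π ∘ ev))
  let σ0 : T × ℕ → O := fun x => if x.2 = 0 then c0 x.1 else if b ξ x.1 ∈ range ev then b ξ x.1 else x0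
  let z : (T × ℕ → O) → L := fun σ => invFun (tp σ) (tp σ ξ)
  have hz : ∀ σ, tp σ (z σ) = tp σ ξ := fun σ => invFun_eq ⟨ξ, rfl⟩
  have hz' : ∀ σ i j, b (z σ) i = σ j ↔ b ξ i = σ j := fun σ i j =>
    Set.ext_iff.1 (congrArg Prod.snd (hz σ)) (i, j)
  let s : ℕ → T × ℕ → O := fun n => Nat.rec σ0
    (fun n σ x => if x.2 = n + 2 then b (z σ) x.1 else σ x) n
  have h1 : ∀ n x, s n x ∈ range ev := fun n => by
    induction n with
    | zero =>
      intro x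
      simp only [s, σ0, Nat.rec_zero]
      split_ifs
      · exact hev (fun _ => x0) (fun _ => h0) (none, x.1)
      · assumption
      · exact h0
    | succ n ih =>
      intro x
      simp only [s]
      split_ifs
      · exact hev _ ih (some _, x.1)
      · exact ih x
  have h2 : ∀ n i k, k < 2 → s n (i, k) = σ0 (i, k) := fun n i k hk => by
    induction n with
    | zero => rfl
    | succ n ih => exact (if_neg (by simp only; omega)).trans ih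
  have h3 : ∀ m n, m < n → ∀ i, s n (i, m + 2) = b (z (s m)) i := fun m n h i => by
    induction h with
    | refl => exact if_pos rfl
    | step h ih => exact (if_neg (by simp only; have := Nat.succ_le_iff.1 h; omega)).trans ih
  have h4 : ∀ i, b ξ i ∈ range ev → ∀ n, s n (i, 1) = b ξ i ∧ b (z (s n)) i = b ξ i := fun i hi n =>
    have : s n (i, 1) = b ξ i := (h2 n i 1 one_lt_two).trans ((if_neg one_ne_zero).trans (if_pos hi))
    ⟨this, ((hz' _ i (i, 1)).2 this.symm).trans this⟩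
  have h5 : ∀ i, b ξ i ∉ range ev → ∀ n x, b (z (s n)) i ≠ s n x := fun i hi n x e =>
    hi ((hz' _ _ _).1 e ▸ h1 n x)
  refine ⟨fun n => z (s n), {i | b ξ i ∈ range ev},
    fun n => (congrArg Prod.fst (hz (s n))).trans (congrArg Prod.fst (hz (s 0))).symm,
    fun i hi n => (h4 i hi n).2.trans (h4 i hi 0).2.symm, fun i hi n => ⟨fun j e =>
      h5 i hi n (j, 0) (e.trans ((h2 n j 0 two_pos).trans (if_pos rfl)).symm), fun m hm j e => ?_⟩,
    fun i hi ⟨w, hw⟩ => hξ ⟨w, by rw [comp_apply, hw, hi]⟩⟩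
  rcases lt_or_gt_of_ne hm with h | h
  · exact h5 i hi n (j, m + 2) (e.trans (h3 m n h j).symm)
  · by_cases hj : b ξ j ∈ range ev
    · exact h5 i hi n (j, 1) (e.trans ((h4 j hj m).2.trans (h4 j hj n).1.symm))
    · exact h5 j hj m (i, n + 2) (e.symm.trans (h3 n m h i).symm)

section

variable {E : Type} (F : Ad O V → Ad O V → E → ℚ → Prop)

def Fn' (a z : Ad O V) (e : E) (r : ℚ) : Prop := ∀ a' z', le3 a' a → le3 z' z → ¬ F a' z' e r

def Spl (a z : Ad O V) (e : E) (r r' : ℚ) : Prop :=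
  ∃ z0 z1, le3 z0 z ∧ le3 z1 z ∧ Fn' F a z0 e r ∧ F a z1 e r'

variable {F} (hF : ∀ a a' z z' e r, le3 a' a → le3 z' z → F a z e r → F a' z' e r)
include hF

theorem indep_of {a p : Ad O V} {r r' : ℚ} (h : ∀ a', le3 a' a → ∀ Q : Finset (Ad O V),
    (∀ q ∈ Q, le3 q p) → ∃ e a'', le3 a'' a' ∧ ∀ q ∈ Q, Spl F a'' q e r r') :
    ∃ a', le3 a' a ∧ ∃ z : ℕ → Ad O V, ∀ (k : ℕ) (σ : Finset ℕ), ∃ e, ∀ i < k,
      (i ∈ σ → F a' (z i) e r') ∧ (i ∉ σ → Fn' F a' (z i) e r) := by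
  obtain ⟨c, hc⟩ := exists_surjective_nat (ℕ × Finset ℕ)
  obtain ⟨s, -, hs⟩ := exists_chain (S := Ad O V × (ℕ → Ad O V))
    (P := fun s => le3 s.1 a ∧ ∀ i, le3 (s.2 i) p)
    (R := fun n s s' => le3 s'.1 s.1 ∧ (∀ i, le3 (s'.2 i) (s.2 i)) ∧ ∃ e, ∀ i < (c n).1,
      (i ∈ (c n).2 → F s'.1 (s'.2 i) e r') ∧ (i ∉ (c n).2 → Fn' F s'.1 (s'.2 i) e r))
    (s0 := (a, fun _ => p)) ⟨lrefl _, fun _ => lrefl _⟩ fun n s hs => by
    obtain ⟨e, a', h1, h2⟩ := h s.1 hs.1 ((Finset.range (c n).1).image s.2) (by simp [hs.2])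
    have h3 : ∀ i, ∃ z, le3 z (s.2 i) ∧ (i < (c n).1 →
        (i ∈ (c n).2 → F a' z e r') ∧ (i ∉ (c n).2 → Fn' F a' z e r)) := fun i => by
      by_cases hi : i < (c n).1
      · obtain ⟨z0, z1, h3, h4, h5, h6⟩ := h2 _ (Finset.mem_image_of_mem _ (Finset.mem_range.2 hi))
        by_cases h7 : i ∈ (c n).2
        · exact ⟨z1, h4, fun _ => ⟨fun _ => h6, fun h => absurd h7 h⟩⟩
        · exact ⟨z0, h3, fun _ => ⟨fun h => absurd h h7, fun _ => h5⟩⟩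
      · exact ⟨_, lrefl _, fun h => absurd h hi⟩
    choose z h4 h5 using h3
    exact ⟨(a', z), ⟨ltrans h1 hs.1, fun i => ltrans (h4 i) (hs.2 i)⟩, h1, h4, e, h5⟩
  obtain ⟨a', h1, -⟩ := lower3 (s := fun n => (s n).1) fun n => (hs n).2.1
  choose z h2 using fun i => lower3 (s := fun n => (s n).2 i) fun n => (hs n).2.2.1 i
  refine ⟨a', ltrans (h1 0) (hs 0).1.1, z, fun k σ => ?_⟩
  obtain ⟨n, hn⟩ := hc (k, σ)
  obtain ⟨e, he⟩ := (hs n).2.2.2
  simp only [hn] at he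
  exact ⟨e, fun i hi => ⟨fun h => hF _ _ _ _ _ _ (h1 _) ((h2 i).1 _) ((he i hi).1 h),
    fun h a'' z'' h3 h4 => (he i hi).2 h _ _ (ltrans h3 (h1 _)) (ltrans h4 ((h2 i).1 _))⟩⟩

omit hF in
theorem tree_of {a0 : Ad O V} (h : ∀ a, le3 a a0 → ∀ p r r', r < r' → ∃ a', le3 a' a ∧
    ∃ Q : Finset (Ad O V), (∀ q ∈ Q, le3 q p) ∧ ∀ e a'', le3 a'' a' → ¬ ∀ q ∈ Q, Spl F a'' q e r r') :
    ∃ a, le3 a a0 ∧ ∃ C : Set (Ad O V), C.Countable ∧ C.Nonempty ∧ ∀ p ∈ C, ∀ r r', r < r' →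
      ∃ Q : Finset (Ad O V), (∀ q ∈ Q, q ∈ C ∧ le3 q p) ∧
        ∀ e a'', le3 a'' a → ¬ ∀ q ∈ Q, Spl F a'' q e r r' := by
  obtain ⟨s, h0, hs⟩ := exists_chain (S := Ad O V × Set (Ad O V))
    (P := fun s => le3 s.1 a0 ∧ s.2.Countable)
    (R := fun _ s s' => le3 s'.1 s.1 ∧ ∀ p ∈ s.2, ∀ r r', r < r' → ∃ Q : Finset (Ad O V),
      (∀ q ∈ Q, q ∈ s'.2 ∧ le3 q p) ∧ ∀ e a'', le3 a'' s'.1 → ¬ ∀ q ∈ Q, Spl F a'' q e r r')
    (s0 := (a0, {a0})) ⟨lrefl _, countable_singleton _⟩ fun _ s hs => by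
    have : Nonempty (Ad O V) := ⟨a0⟩
    obtain ⟨c, hc⟩ := countable_iff_exists_subset_range.1
      (hs.2.prod (countable_univ (α := ℚ × ℚ)))
    obtain ⟨t, h0, ht⟩ := exists_chain (S := Ad O V × Finset (Ad O V)) (P := fun t => le3 t.1 s.1)
      (R := fun n t t' => le3 t'.1 t.1 ∧ ((c n).2.1 < (c n).2.2 → (∀ q ∈ t'.2, le3 q (c n).1) ∧
        ∀ e a'', le3 a'' t'.1 → ¬ ∀ q ∈ t'.2, Spl F a'' q e (c n).2.1 (c n).2.2))
      (s0 := (s.1, ∅)) (lrefl _) fun n t ht => by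
      by_cases h1 : (c n).2.1 < (c n).2.2
      · obtain ⟨a', h2, Q, h3⟩ := h t.1 (ltrans ht hs.1) (c n).1 _ _ h1
        exact ⟨(a', Q), ltrans h2 ht, h2, fun _ => h3⟩
      · exact ⟨t, ht, lrefl _, fun h => absurd h h1⟩
    obtain ⟨a', h1, -⟩ := lower3 (s := fun n => (t n).1) fun n => (ht n).2.1
    refine ⟨(a', ⋃ n, ↑(t n).2), ⟨ltrans (h1 0) (ltrans (ht 0).1 hs.1),
      countable_iUnion fun n => (t n).2.countable_toSet⟩, ltrans (h1 0) (ht 0).1,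
      fun p hp r r' hr => ?_⟩
    obtain ⟨n, hn⟩ := hc (a := (p, r, r')) ⟨hp, trivial⟩
    have h2 := (ht n).2.2
    simp only [hn] at h2
    exact ⟨(t (n + 1)).2, fun q hq => ⟨mem_iUnion.2 ⟨_, hq⟩, (h2 hr).1 q hq⟩,
      fun e a'' h3 => (h2 hr).2 e a'' (ltrans h3 (h1 _))⟩
  obtain ⟨a, h1, -⟩ := lower3 (s := fun n => (s n).1) fun n => (hs n).2.1
  refine ⟨a, ltrans (h1 0) (hs 0).1.1, ⋃ n, (s n).2, countable_iUnion fun n => (hs n).1.2,
    ⟨a0, mem_iUnion.2 ⟨0, by simp [h0]⟩⟩, fun p hp r r' hr => ?_⟩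
  obtain ⟨n, hn⟩ := mem_iUnion.1 hp
  obtain ⟨Q, h2, h3⟩ := (hs n).2.2 p hn r r' hr
  exact ⟨Q, fun q hq => ⟨mem_iUnion.2 ⟨_, (h2 q hq).1⟩, (h2 q hq).2⟩,
    fun e a'' h4 => h3 e a'' (ltrans h4 (h1 _))⟩

theorem branch_of {a : Ad O V} {C : Set (Ad O V)} (hC : C.Nonempty) (h : ∀ p ∈ C, ∀ r r', r < r' →
    ∃ Q : Finset (Ad O V), (∀ q ∈ Q, q ∈ C ∧ le3 q p) ∧
      ∀ e a'', le3 a'' a → ¬ ∀ q ∈ Q, Spl F a'' q e r r') (u : ℕ → E) {x : O}
    (hx : ∀ p ∈ C, p.f x = none) : ∃ a', le3 a' a ∧ ∃ z : Ad O V, z.f x = none ∧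
      ∀ n r r', r < r' → ∀ a'', le3 a'' a' → ¬ Spl F a'' z (u n) r r' := by
  obtain ⟨c, hc⟩ := exists_surjective_nat (ℕ × ℚ × ℚ)
  obtain ⟨p, hp⟩ := hC
  obtain ⟨s, -, hs⟩ := exists_chain (S := Ad O V × Ad O V) (P := fun s => le3 s.1 a ∧ s.2 ∈ C)
    (R := fun n s s' => le3 s'.1 s.1 ∧ le3 s'.2 s.2 ∧ ((c n).2.1 < (c n).2.2 →
      ∀ a'', le3 a'' s'.1 → ¬ Spl F a'' s'.2 (u (c n).1) (c n).2.1 (c n).2.2))
    (s0 := (a, p)) ⟨lrefl _, hp⟩ fun n s hs => by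
    by_cases h1 : (c n).2.1 < (c n).2.2
    swap
    · exact ⟨s, hs, lrefl _, lrefl _, fun h => absurd h h1⟩
    obtain ⟨Q, h2, h3⟩ := h _ hs.2 _ _ h1
    by_contra hn
    have h4 : ∀ Q' ⊆ Q, ∃ a', le3 a' s.1 ∧ ∀ q ∈ Q', Spl F a' q (u (c n).1) (c n).2.1 (c n).2.2 := by
      intro Q'
      induction Q' using Finset.induction_on with
      | empty => exact fun _ => ⟨_, lrefl _, by simp⟩
      | insert q Q' _ ih =>
        intro h4
        obtain ⟨a', h5, h6⟩ := ih ((Finset.subset_insert _ _).trans h4)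
        have h7 := h2 q (h4 (Finset.mem_insert_self _ _))
        by_contra h8
        refine hn ⟨(a', q), ⟨ltrans h5 hs.1, h7.1⟩, h5, h7.2, fun _ a'' h9 h10 =>
          h8 ⟨a'', ltrans h9 h5, fun q' hq' => (Finset.mem_insert.1 hq').elim (fun e => e ▸ h10) fun h11 => ?_⟩⟩
        obtain ⟨z0, z1, g1, g2, g3, g4⟩ := h6 q' h11
        exact ⟨z0, z1, g1, g2, fun a z g5 => g3 a z (ltrans g5 h9), hF _ _ _ _ _ _ h9 (lrefl _) g4⟩
    obtain ⟨a', h5, h6⟩ := h4 Q (Finset.Subset.refl _)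
    exact h3 _ a' (ltrans h5 hs.1) h6
  obtain ⟨a', h1, -⟩ := lower3 (s := fun n => (s n).1) fun n => (hs n).2.1
  obtain ⟨z, h2, h3⟩ := lower3 (s := fun n => (s n).2) fun n => (hs n).2.2.1
  refine ⟨a', ltrans (h1 0) (hs 0).1.1, z, h3 x fun n => hx _ (hs n).1.2, fun k r r' hr a'' h4 => ?_⟩
  obtain ⟨n, hn⟩ := hc (k, r, r')
  have h5 := (hs n).2.2.2
  simp only [hn] at h5
  rintro ⟨z0, z1, g1, g2, g3⟩
  exact h5 hr a'' (ltrans h4 (h1 _)) ⟨z0, z1, ltrans g1 (h2 _), ltrans g2 (h2 _), g3⟩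

end

structure Sys {T : Type} (b : ℕ → T → O) (J : Set T) : Prop where
  root : ∀ i ∈ J, ∀ n, b n i = b 0 i
  dis : ∀ i ∉ J, ∀ n m, m ≠ n → ∀ j, b n i ≠ b m j
  eqv : ∀ n i j, b n i = b n j ↔ b 0 i = b 0 j

variable {T : Type} {b : ℕ → T → O} {J : Set T}

noncomputable def Sys.comb (h : Sys b J) (a : Ad O V) (z : ℕ → Ad O V) : Ad O V :=
  ⟨fun x => if g : ∃ p : ℕ × T, p.2 ∉ J ∧ b p.1 p.2 = x then (z g.choose.1).f (b 0 g.choose.2)
    else a.f x, (a.c.union (countable_iUnion fun n => (z n).c.biUnion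
      (t := fun y _ => {x | ∃ i, b 0 i = y ∧ b n i = x}) fun y _ => Set.Subsingleton.countable (by
        rintro _ ⟨i, h1, rfl⟩ _ ⟨j, h2, rfl⟩
        exact (h.eqv n i j).2 (h1.trans h2.symm)))).mono fun x hx => by
    simp only [mem_ofPred_eq] at hx
    split_ifs at hx with g
    · exact Or.inr (mem_iUnion.2 ⟨_, mem_iUnion₂.2 ⟨_, hx, _, rfl, g.choose_spec.2⟩⟩)
    · exact Or.inl hx⟩

theorem Sys.comb_pet (h : Sys b J) (a : Ad O V) (z : ℕ → Ad O V) {i : T} (hi : i ∉ J) (n : ℕ) :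
    (h.comb a z).f (b n i) = (z n).f (b 0 i) := by
  have g : ∃ p : ℕ × T, p.2 ∉ J ∧ b p.1 p.2 = b n i := ⟨(n, i), hi, rfl⟩
  refine (dif_pos g).trans ?_
  have e : g.choose.1 = n := by_contra fun e => h.dis i hi n _ e _ g.choose_spec.2.symm
  have e' := g.choose_spec.2
  rw [e] at e'
  rw [e, (h.eqv n _ i).1 e']

theorem Sys.comb_out (h : Sys b J) (a : Ad O V) (z : ℕ → Ad O V) {x : O}
    (hx : ∀ n i, i ∉ J → b n i ≠ x) : (h.comb a z).f x = a.f x :=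
  dif_neg fun ⟨_, h1, h2⟩ => hx _ _ h1 h2

theorem Sys.comb_root (h : Sys b J) (a : Ad O V) (z : ℕ → Ad O V) {i : T} (hi : i ∈ J) (n : ℕ) :
    (h.comb a z).f (b n i) = a.f (b 0 i) := by
  rw [h.root i hi n]
  exact h.comb_out a z fun m j hj e => h.dis j hj m (m + 1) (by omega) i (e.trans (h.root i hi _).symm)

theorem Sys.comb_mono (h : Sys b J) {a a' : Ad O V} {z z' : ℕ → Ad O V} (ha : le3 a' a)
    (hz : ∀ n, le3 (z' n) (z n)) : le3 (h.comb a' z') (h.comb a z) := fun x v e => by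
  simp only [Sys.comb] at e ⊢
  split_ifs at e ⊢
  · exact hz _ _ _ e
  · exact ha _ _ e

theorem Sys.split (h : Sys b J) {a w : Ad O V} {z : ℕ → Ad O V} (hw : le3 w (h.comb a z)) :
    ∃ a' z', le3 a' a ∧ (∀ n, le3 (z' n) (z n)) ∧ ∀ n i, (h.comb a' z').f (b n i) = w.f (b n i) := by
  let z' : ℕ → Ad O V := fun n => ⟨fun x => if g : ∃ i ∉ J, b 0 i = x then w.f (b n g.choose)
    else (z n).f x, ((z n).c.union (w.c.biUnion (t := fun y _ => {x | ∃ i, b n i = y ∧ b 0 i = x})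
      fun y _ => Set.Subsingleton.countable (by
        rintro _ ⟨i, h1, rfl⟩ _ ⟨j, h2, rfl⟩
        exact (h.eqv n i j).1 (h1.trans h2.symm)))).mono fun x hx => by
    simp only [mem_ofPred_eq] at hx
    split_ifs at hx with g
    · exact Or.inr (mem_iUnion₂.2 ⟨_, hx, _, rfl, g.choose_spec.2⟩)
    · exact Or.inl hx⟩
  have h1 : ∀ n, ∀ i ∉ J, (z' n).f (b 0 i) = w.f (b n i) := fun n i hi => by
    have g : ∃ j ∉ J, b 0 j = b 0 i := ⟨i, hi, rfl⟩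
    exact (dif_pos g).trans (by rw [(h.eqv n _ i).2 g.choose_spec.2])
  refine ⟨⟨fun x => if ∃ n i, i ∉ J ∧ b n i = x then a.f x else w.f x,
    (a.c.union w.c).mono fun x hx => ?_⟩, z', fun x v e => ?_, fun n x v e => ?_, fun n i => ?_⟩
  · simp only [mem_ofPred_eq] at hx
    split_ifs at hx
    · exact Or.inl hx
    · exact Or.inr hx
  · simp only
    split_ifs with g
    · exact e
    · exact hw x v ((h.comb_out a z fun n i h1 h2 => g ⟨n, i, h1, h2⟩).trans e)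
  · by_cases g : ∃ i ∉ J, b 0 i = x
    · obtain ⟨i, hi, rfl⟩ := g
      exact (h1 n i hi).trans (hw _ _ ((h.comb_pet a z hi n).trans e))
    · exact (dif_neg g).trans e
  · by_cases hi : i ∈ J
    · rw [h.comb_root _ _ hi, h.root i hi n]
      exact if_neg fun ⟨m, j, hj, e⟩ => h.dis j hj m (m + 1) (by omega) i (e.trans (h.root i hi _).symm)
    · rw [h.comb_pet _ _ hi, h1 n i hi]

abbrev TT1 (I V : Type) := (I ⊕ ℕ) ⊕ WT (((I × ℕ) × ℚ) × (ℕ → Option V) × ℕ) ℕ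

abbrev LL (I V : Type) := Set (WT (Option ((Set (TT1 I V × TT1 I V) ×
  Set (((I × ℕ) × ℚ) × (TT1 I V → Option V))) × Set (TT1 I V × TT1 I V × ℕ)) × TT1 I V) (TT1 I V × ℕ))

theorem add_dense {I : Type} (hI : ∀ s : Set I, s.Countable → ∃ a, a ∉ s)
    (U : LL I V → (I × ℕ) × ℚ → Set (Ad (LL I V × I) V))
    (hm : ∀ ξ e p q, le3 q p → p ∈ U ξ e → q ∈ U ξ e)
    (hd : ∀ ξ e p, (∀ q, le3 q p → ∃ r, le3 r q ∧ r ∈ U ξ e) → p ∈ U ξ e) (p : Ad (LL I V × I) V)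
    (v0 v1 : V) : ∃ w, le3 w p ∧ ((∃ ξ η δ, w.f (ξ, δ) = some v0 ∧ w.f (η, δ) = some v1 ∧
      ∀ n r r', r < r' → ∀ w', le3 w' w →
        (w' ∈ U ξ ((δ, n), r') → ∃ w'', le3 w'' w' ∧ w'' ∈ U η ((δ, n), r)) ∧
        (w' ∈ U η ((δ, n), r') → ∃ w'', le3 w'' w' ∧ w'' ∈ U ξ ((δ, n), r))) ∨
      ∃ r r', r < r' ∧ ∃ (ζ : ℕ → LL I V) (e : ℕ × Finset ℕ → I × ℕ), ∀ k σ, ∀ i < k,
        (i ∈ σ → w ∈ U (ζ i) (e (k, σ), r')) ∧
        (i ∉ σ → ∀ w', le3 w' w → w' ∉ U (ζ i) (e (k, σ), r))) := by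
  have : Nonempty I := (hI ∅ countable_empty).nonempty
  choose ev hev using fun ξ => exists_support (U ξ) (hm ξ) (hd ξ)
  obtain ⟨c, hc⟩ := countable_iff_exists_subset_range.1 p.c
  let B : LL I V → TT1 I V → LL I V × I := fun ξ =>
    Sum.elim (Sum.elim (fun a => (ξ, a)) c) (ev ξ)
  obtain ⟨ζ, J, h1, h2, h3, h4⟩ := exists_delta B (fun ξ => ({x | B ξ x.1 = B ξ x.2},
    {x | ∃ w ∈ U ξ x.1, w.f ∘ B ξ = x.2})) (B ∅) Prod.fst fun g => cantor_surjective g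
  have hs : Sys (fun n => B (ζ n)) J := ⟨h2, fun i hi n => (h3 i hi n).2, fun n i j =>
    Set.ext_iff.1 (congrArg Prod.fst (h1 n)) (i, j)⟩
  have tr : ∀ n m e w w', (∀ i, w'.f (B (ζ m) i) = w.f (B (ζ n) i)) → w ∈ U (ζ n) e →
      w' ∈ U (ζ m) e := fun n m e w w' h hw => by
    obtain ⟨u, h5, h6⟩ := (Set.ext_iff.1 (congrArg Prod.snd ((h1 n).trans (h1 m).symm))
      (e, w.f ∘ B (ζ n))).1 ⟨w, hw, rfl⟩
    exact hev _ _ u w' h5 fun t => (h (.inr t)).trans (congrFun h6 (.inr t)).symm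
  let F : Ad (LL I V × I) V → Ad (LL I V × I) V → I × ℕ → ℚ → Prop := fun a z e r =>
    hs.comb a (fun _ => z) ∈ U (ζ 0) (e, r)
  have hF : ∀ a a' z z' e r, le3 a' a → le3 z' z → F a z e r → F a' z' e r :=
    fun a a' z z' e r h h' => hm _ _ _ _ (hs.comb_mono h fun _ => h')
  have e1 : ∀ (a : Ad (LL I V × I) V) z n i, (hs.comb a z).f (B (ζ n) i) = (hs.comb a fun _ => z n).f (B (ζ 0) i) :=
    fun a z n i => by
      by_cases hi : i ∈ J
      · exact (hs.comb_root _ _ hi n).trans (hs.comb_root _ _ hi 0).symm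
      · exact (hs.comb_pet _ _ hi n).trans (hs.comb_pet a (fun _ => z n) hi 0).symm
  have e2 : ∀ a z n e r, hs.comb a z ∈ U (ζ n) (e, r) ↔ F a (z n) e r := fun a z n e r =>
    ⟨tr _ _ _ _ _ fun i => (e1 a z n i).symm, tr _ _ _ _ _ (e1 a z n)⟩
  have e3 : ∀ a z, le3 a p → le3 (hs.comb a z) p := fun a z h x v e => by
    obtain ⟨k, rfl⟩ := hc (a := x) (by simp [e])
    exact (hs.comb_out a z fun n i hi => (h3 i hi n).1 (.inl (.inr k))).trans (h _ v e)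
  by_cases h : ∀ a, le3 a p → ∀ q r r', r < r' → ∃ a', le3 a' a ∧ ∃ Q : Finset (Ad (LL I V × I) V),
    (∀ q' ∈ Q, le3 q' q) ∧ ∀ e a'', le3 a'' a' → ¬ ∀ q ∈ Q, Spl F a'' q e r r'
  · obtain ⟨a, g1, C, g2, g3, g4⟩ := tree_of h
    obtain ⟨δ, hδ⟩ := hI _ (g2.biUnion fun q _ =>
      q.c.preimage (f := fun a => (ζ 0, a)) (Prod.mk_right_injective _))
    obtain ⟨a', g5, z, g6, g7⟩ := branch_of hF g3 g4 (fun n => (δ, n)) (x := (ζ 0, δ))
      fun q hq => by_contra fun h => hδ (mem_biUnion hq h)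
    have hJ : Sum.inl (Sum.inl δ) ∉ J := h4 _ fun _ => rfl
    let y : ℕ → Ad (LL I V × I) V := fun n => z.upd (ζ 0, δ) (if n = 0 then v0 else v1)
    have key : ∀ i j, i ≠ j → ∀ n r r', r < r' → ∀ w', le3 w' (hs.comb a' y) →
        w' ∈ U (ζ i) ((δ, n), r') → ∃ w'', le3 w'' w' ∧ w'' ∈ U (ζ j) ((δ, n), r) := by
      intro i j hij n r r' hr w' g8 g9
      by_contra hn
      obtain ⟨a'', z', g10, g11, g12⟩ := hs.split g8
      refine g7 n r r' hr a'' g10 ⟨z' j, z' i, ltrans (g11 j) (upd_le g6 _),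
        ltrans (g11 i) (upd_le g6 _), fun a3 z3 g13 g14 g15 => ?_,
        (e2 _ _ _ _ _).1 (tr _ _ _ _ _ (g12 i) g9)⟩
      let u := hs.comb a3 (update z' j z3)
      have g16 : u ∈ U (ζ j) ((δ, n), r) := (e2 _ _ _ _ _).2 (by rwa [update_self])
      have g17 : le3 u (hs.comb a'' z') := hs.comb_mono g13 fun m => by
        by_cases e : m = j
        · rw [e, update_self]; exact g14
        · rw [update_of_ne e]; exact lrefl _
      refine hn ⟨w'.un (u.res (range (B (ζ j)))), un_left _ _, tr _ _ _ _ _ (fun t => ?_) g16⟩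
      rcases e : w'.f (B (ζ j) t) with _ | v
      · simp only [Ad.un, Ad.res, e, mem_range_self, if_true, Option.none_or]
      · simp [Ad.un, e, g17 _ v ((g12 j t).trans e)]
    exact ⟨hs.comb a' y, e3 _ _ (ltrans g5 g1), Or.inl ⟨ζ 0, ζ 1, δ,
      (hs.comb_pet _ _ hJ 0).trans (upd_self _ _ _), (hs.comb_pet _ _ hJ 1).trans (upd_self _ _ _),
      fun n r r' hr w' g8 => ⟨key 0 1 zero_ne_one n r r' hr w' g8, key 1 0 one_ne_zero n r r' hr w' g8⟩⟩⟩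
  · push Not at h
    obtain ⟨a, g1, q, r, r', hr, h⟩ := h
    obtain ⟨a', g2, z, g3⟩ := indep_of hF h
    choose e he using g3
    refine ⟨hs.comb a' z, e3 _ _ (ltrans g2 g1), Or.inr ⟨r, r', hr, ζ, uncurry e, fun k σ i hi =>
      ⟨fun g => (e2 _ _ _ _ _).2 ((he k σ i hi).1 g), fun g w' g4 g5 => ?_⟩⟩⟩
    obtain ⟨a'', z', g6, g7, g8⟩ := hs.split g4
    exact (he k σ i hi).2 g _ _ g6 (g7 i) ((e2 _ _ _ _ _).1 (tr _ _ _ _ _ (g8 i) g5))

end Pool.Agent.MP_b07c92_gt.Indep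

end MrgPart0

-- ======== part 1: formerly Pool.Agent.MP_b07c92_gt.h92.Force3
section MrgPart1

-- ======== part 0: formerly Pool.Agent.MP_b07c92_gt.h92.Scat
section MrgPart0

/-! A principle under which compact images of `C_p(K)`, `K` scattered, are metrizable. -/

namespace Pool.Agent.MP_b07c92_gt.Indep

open Pool.Agent.ZF92 Function Set
open scoped Classical

set_option linter.unusedSectionVars false

universe u v w x

variable {M : Set ZFSet.{0}} [hM : Fact (ZFC M)]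
variable {K : Type u} [Srt M K] [Sm M K] [TopologicalSpace K] [DTop M K] [T2Space K]
variable {I : Type v} [Srt M I] [Sm M I] {L : Type x} [Srt M L] [Sm M L]
variable {Y : Type w} [Srt M Y] [Sm M Y] [TopologicalSpace Y] [DTop M Y]

structure QP (M : Set ZFSet.{0}) [Fact (ZFC M)] {L : Type x} {I : Type v} [Srt M L] [Srt M I]
    (S : L → I → Prop) : Prop where
  dS : DfF M fun p : L × I => S p.1 p.2
  out : ∀ X : PS M (L × (I × ℕ) × ℚ), (∃ ξ η a, S ξ a ∧ ¬ S η a ∧ ∀ n r r', r < r' →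
    ((ξ, (a, n), r') ∈ X → (η, (a, n), r) ∈ X) ∧ ((η, (a, n), r') ∈ X → (ξ, (a, n), r) ∈ X)) ∨
    ∃ r r', r < r' ∧ ∃ t : Fn M ℕ L, ∀ (k : ℕ) (σ : Finset ℕ), ∃ e, ∀ i < k,
      (i ∈ σ → (t.ap i, e, r') ∈ X) ∧ (i ∉ σ → (t.ap i, e, r) ∉ X)

def MScat (M : Set ZFSet.{0}) [Fact (ZFC M)] (K : Type u) [Srt M K] [TopologicalSpace K] : Prop :=
  ∀ A : PS M K, (∃ x, x ∈ A) → ∃ x ∈ A, ∃ U, IsOpen U ∧ x ∈ U ∧ ∀ y ∈ U, y ∈ A → y = x

theorem no_indep (hK : MCpt M K) (hK' : MTych M K) (hs : MScat M K) {f : ℕ → Cp M K}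
    (df : DfF M f) {r r' : ℚ} (hr : r < r') (h : ∀ (k : ℕ) (σ : Finset ℕ), ∃ x, ∀ i < k,
      (i ∈ σ → (r' : ℝ) ≤ (f i).ev x) ∧ (i ∉ σ → (f i).ev x ≤ (r : ℝ))) : False := by
  have hr' : (r : ℝ) < r' := by exact_mod_cast hr
  have c1 : ∀ i, IsClosed {x | (r' : ℝ) ≤ (f i).ev x} := fun i =>
    isClosed_le continuous_const (f i).continuous
  have c2 : ∀ i, IsClosed {x | (f i).ev x ≤ (r : ℝ)} := fun i =>
    isClosed_le (f i).continuous continuous_const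
  let F : K → Prop := fun x => ∀ i, (r' : ℝ) ≤ (f i).ev x ∨ (f i).ev x ≤ (r : ℝ)
  have dF : DfF M F := by simp only [F, all_iff]; fun_prop
  have cF : IsClosed {x | F x} := by
    simp only [F, ofPred_forall]
    exact isClosed_iInter fun i => (c1 i).union (c2 i)
  let π : K → PS M ℕ := fun x => PS.of M fun i => (r' : ℝ) ≤ (f i).ev x
  have dπ : DfF M π := by fun_prop
  have hπ : ∀ x i, i ∈ π x ↔ (r' : ℝ) ≤ (f i).ev x := fun x i => PS.mem_of (by fun_prop)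
  let Sl : PS M K → Prop := fun U => Ctb M fun s => ∃ x, x ∈ U ∧ F x ∧ π x = s
  have dS : DfF M Sl := by fun_prop
  have cov : ∀ C : K → Prop, DfF M C → IsClosed {x | C x} →
      (∀ x, C x → F x → ∃ U : PS M K, IsOpen (U : Set K) ∧ x ∈ U ∧ Sl U) →
      Ctb M fun s => ∃ x, C x ∧ F x ∧ π x = s := fun C dC cC hC => by
    obtain ⟨T, hT⟩ := hK.subcover (F := fun x => C x ∧ F x) (by fun_prop) (cC.inter cF)
      (U := fun (U : PS M K) x => (IsOpen (U : Set K) ∧ Sl U) ∧ x ∈ U) (by fun_prop) (fun U => by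
        by_cases g : IsOpen (U : Set K) ∧ Sl U
        · simp [g]
        · simp [g]) fun x hx => let ⟨U, h1, h2, h3⟩ := hC x hx.1 hx.2; ⟨U, ⟨h1, h3⟩, h2⟩
    refine (Ctb.biUnion (S := fun U => U ∈ T ∧ Sl U) (A := fun U s => ∃ x, x ∈ U ∧ F x ∧ π x = s)
      (by fun_prop) (Ctb.of_finite (T.finite_toSet.subset fun _ h => h.1)) (by fun_prop)
      fun U hU => hU.2).mono ?_
    rintro s ⟨x, h1, h2, h3⟩
    obtain ⟨U, h4, h5, h6⟩ := hT x ⟨h1, h2⟩
    exact ⟨U, ⟨h4, h5.2⟩, x, h6, h2, h3⟩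
  have eA : ∀ x, x ∈ PS.of M (fun x => F x ∧ ¬ ∃ U : PS M K, IsOpen (U : Set K) ∧ x ∈ U ∧ Sl U) ↔
      F x ∧ ¬ ∃ U : PS M K, IsOpen (U : Set K) ∧ x ∈ U ∧ Sl U := fun x => PS.mem_of (by fun_prop)
  obtain ⟨x, hx, U, h1, h2, h3⟩ := hs _ (by
    by_contra hn
    have : Nonempty (PS M ℕ) := ⟨PS.of M fun _ => True⟩
    obtain ⟨e, de, he⟩ := (cov (fun _ => True) (by fun_prop) isClosed_univ fun x _ hx =>
      by_contra fun g => hn ⟨x, (eA x).2 ⟨hx, g⟩⟩).exists_enum (by fun_prop)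
    obtain ⟨x, hx⟩ : ∃ x, ∀ i, (i ∉ e i → (r' : ℝ) ≤ (f i).ev x) ∧
        (i ∈ e i → (f i).ev x ≤ (r : ℝ)) := by
      by_contra hx
      obtain ⟨T, hT⟩ := hK.subcover (F := fun _ => True) (by fun_prop) isClosed_univ
        (U := fun i x => (i ∉ e i ∧ (f i).ev x < (r' : ℝ)) ∨ (i ∈ e i ∧ (r : ℝ) < (f i).ev x))
        (by fun_prop) (fun i => by
          by_cases g : i ∈ e i
          · simpa [g] using isOpen_lt continuous_const (f i).continuous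
          · simpa [g] using isOpen_lt (f i).continuous continuous_const) fun x _ => by
          by_contra g
          push Not at g
          exact hx ⟨x, g⟩
      obtain ⟨x, h1⟩ := h (T.sup id + 1) (T.filter fun i => i ∉ e i)
      obtain ⟨i, hi, g | g⟩ := hT x trivial
      · exact ((h1 i (Nat.lt_succ_of_le (Finset.le_sup (f := id) hi))).1
          (Finset.mem_filter.2 ⟨hi, g.1⟩)).not_gt g.2
      · exact ((h1 i (Nat.lt_succ_of_le (Finset.le_sup (f := id) hi))).2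
          fun g' => (Finset.mem_filter.1 g').2 g.1).not_gt g.2
    obtain ⟨n, hn⟩ := he (π x) ⟨x, trivial, fun i => (em (i ∈ e i)).symm.imp (hx i).1 (hx i).2, rfl⟩
    have h1 := hπ x n
    rw [← hn] at h1
    by_cases g : n ∈ e n
    · linarith [h1.1 g, (hx n).2 g]
    · exact g (h1.2 ((hx n).1 g)))
  obtain ⟨h4, h5⟩ := (eA x).1 hx
  obtain ⟨u, h6, h7⟩ := hK' U h1 x h2
  have eV : ∀ y, y ∈ PS.of M (fun y => u.ev y < ((1 / 2 : ℚ) : ℝ)) ↔ u.ev y < ((1 / 2 : ℚ) : ℝ) :=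
    fun y => PS.mem_of (by fun_prop)
  let C : ℕ → K → Prop := fun i y => u.ev y ≤ ((1 / 2 : ℚ) : ℝ) ∧
    ((i ∈ π x ∧ (f i).ev y ≤ (r : ℝ)) ∨ (i ∉ π x ∧ (r' : ℝ) ≤ (f i).ev y))
  refine h5 ⟨_, by
    convert isOpen_lt u.continuous (continuous_const (y := ((1 / 2 : ℚ) : ℝ))) using 1
    ext y; exact eV y, (eV x).2 (by rw [h6]; norm_num), (Ctb.union (A := fun s => s = π x)
      (B := fun s => ∃ i y, C i y ∧ F y ∧ π y = s) (by fun_prop) (by fun_prop)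
      (Ctb.of_finite (finite_singleton _)) (Ctb.iUnion (by fun_prop) fun i => cov (C i) (by fun_prop)
        ?_ fun y h8 h9 => by_contra fun g => ?_)).mono ?_⟩
  · refine (isClosed_le u.continuous continuous_const).inter (?_ : IsClosed {y |
      (i ∈ π x ∧ (f i).ev y ≤ (r : ℝ)) ∨ (i ∉ π x ∧ (r' : ℝ) ≤ (f i).ev y)})
    by_cases g : i ∈ π x
    · simpa [g] using c2 i
    · simpa [g] using c1 i
  · obtain rfl := h3 y (by_contra fun g' => by
      have := h8.1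
      rw [h7 y g'] at this
      norm_num at this) ((eA y).2 ⟨h9, g⟩)
    rcases h8.2 with ⟨g1, g2⟩ | ⟨g1, g2⟩
    · linarith [(hπ _ _).1 g1]
    · exact g1 ((hπ _ _).2 g2)
  · rintro _ ⟨y, h8, h9, rfl⟩
    refine or_iff_not_imp_left.2 fun g => ?_
    obtain ⟨i, hi⟩ := not_forall.1 (PS.ext_iff.not.1 g)
    refine ⟨i, y, ⟨((eV y).1 h8).le, ?_⟩, h9, rfl⟩
    by_cases g1 : i ∈ π x
    · exact Or.inl ⟨g1, (h9 i).resolve_left fun g2 => hi (iff_of_true ((hπ _ _).2 g2) g1)⟩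
    · exact Or.inr ⟨g1, (hπ _ _).1 (by_contra fun g2 => hi (iff_of_false g2 g1))⟩

theorem metrizable_scat [T2Space Y] {r : I → I → Prop} {b : I → Fn M ℕ I × PS M ℕ} (hb : Book M r b)
    {S : L → I → Prop} (hS : QP M S) (hK : MCpt M K) (hK' : MTych M K) (hs : MScat M K)
    (hY : MCpt M Y) (hY' : MTych M Y) {Φ : Cp M K → Y} (dΦ : DfF M Φ) (hΦ : Continuous Φ)
    (hs' : Surjective Φ) : MMetr M Y := by
  refine metrizable_of hb hK' (fun A F _ dA dF hA => ?_) hY hY' dΦ hΦ hs'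
  obtain ⟨s, ds, hs1⟩ := exists_lam hS.dS
  obtain ⟨e, de, he⟩ := exists_choice (M := M) (R := fun a (e : Fn M ℕ K) =>
    ∀ x ∈ A a, ∃ n, e.ap n = x) (by simp only [all_iff, imp_iff]; fun_prop) fun a =>
    let ⟨e, de, he⟩ := (hA a).exists_enum (by fun_prop); ⟨⟨e, de⟩, he⟩
  obtain ⟨X, eX⟩ : ∃ X : PS M (L × (I × ℕ) × ℚ), ∀ z, z ∈ X ↔
      (z.2.2 : ℝ) < (F (s z.1)).ev ((e z.2.1.1).ap z.2.1.2) :=
    ⟨PS.of M _, fun z => PS.mem_of (by fun_prop)⟩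
  rcases hS.out X with ⟨ξ, η, a, h1, h2, h3⟩ | ⟨r, r', hr, t, h⟩
  · refine ⟨s ξ, s η, a, fun x hx => ?_, hs1 ξ a ▸ h1, hs1 η a ▸ h2⟩
    obtain ⟨n, rfl⟩ := he a x hx
    simp only [eX] at h3
    refine real_ext fun q => ⟨fun g => ?_, fun g => ?_⟩ <;> obtain ⟨q', g1, g2⟩ := exists_rat_btwn g
    · exact (h3 n q q' (by exact_mod_cast g1)).1 g2
    · exact (h3 n q q' (by exact_mod_cast g1)).2 g2
  · refine (no_indep hK hK' hs (f := fun i => F (s (t.ap i))) (by fun_prop) hr fun k σ => ?_).elim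
    obtain ⟨z, hz⟩ := h k σ
    simp only [eX] at hz
    exact ⟨_, fun i hi => ⟨fun g => ((hz i hi).1 g).le, fun g => not_lt.1 ((hz i hi).2 g)⟩⟩

end Pool.Agent.MP_b07c92_gt.Indep

end MrgPart0

-- ======== part 1: formerly Pool.Agent.MP_b07c92_gt.h92.Force3
section MrgPart1

/-! A transitive model of ZFC with `Book` and `QP`. -/

namespace Pool.Agent.MP_b07c92_gt.Indep

open Pool.Agent.ZF92 Pool.Agent.Forcing92 Function Set
open scoped Classical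

set_option linter.unusedSectionVars false

variable {I : Type} [LinearOrder I]

abbrev P3 (I : Type) := Ad (LL I (ℕ × ℕ → I) × I) (ℕ × ℕ → I)

theorem le3_dense (hb : ∀ f : ℕ → I, ∃ b, ∀ n, f n < b) {A : ℕ × ℕ → I → P3 I → Prop}
    (hA : ∀ k b q r, le3 r q → A k b q → A k b r) {p : P3 I}
    (h : ∀ k q, le3 q p → ∃ r, le3 r q ∧ ∃ b, A k b r) :
    ∃ q, le3 q p ∧ ∃ a v, q.f (∅, a) = some v ∧ ∀ k, v k < a ∧ A k (v k) q := by
  obtain ⟨s, -, hs⟩ := exists_chain (P := fun s => le3 s p)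
    (R := fun n s s' => le3 s' s ∧ ∃ b, A n.unpair b s') (lrefl p) fun n s hs =>
      let ⟨r, h1, h2⟩ := h n.unpair s hs; ⟨r, ltrans h1 hs, h1, h2⟩
  obtain ⟨q, h1, -⟩ := lower3 fun n => (hs n).2.1
  choose b h2 using fun n => (hs n).2.2
  have : Nonempty I := ⟨b 0⟩
  obtain ⟨g, hg⟩ := countable_iff_exists_subset_range.1
    (q.c.preimage (f := fun a => (∅, a)) (Prod.mk_right_injective _))
  obtain ⟨a, ha⟩ := hb fun n => max (g n) (b n)
  have h3 : q.f (∅, a) = none := by_contra fun h => by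
    obtain ⟨n, rfl⟩ := hg (a := a) h
    exact (le_max_left _ _).not_gt (ha n)
  refine ⟨_, ltrans (upd_le h3 fun k => b (Nat.pair k.1 k.2)) (ltrans (h1 0) (hs 0).1), a, _,
    upd_self _ _ _, fun k => ⟨(le_max_right _ _).trans_lt (ha _), ?_⟩⟩
  have h4 := h2 (Nat.pair k.1 k.2)
  rw [Nat.unpair_pair] at h4
  exact hA _ _ _ _ (ltrans (upd_le h3 _) (h1 _)) h4

def seqN {P : Type} (t : P) (f : ℕ → Name P) : Name P := ⟨ℕ, f, fun _ => t⟩

noncomputable def nX (t : P3 I) (ξ : LL I (ℕ × ℕ → I)) (e : (I × ℕ) × ℚ) : Name (P3 I) :=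
  prodN t (chk t) (prodN t (prodN t (chk t) (natName t))
    (prodN t (prodN t (natName t) (natName t)) (natName t))) (ξ, e.1, ratCd e.2)

def R3 (t : P3 I) (c : I → I → ℕ) (o i : I) (d : ℕ → ℕ × Finset ℕ) : ℕ × ℕ × ℕ →
    (ℕ → Name (P3 I)) → Name (P3 I) → P3 I → Prop
  | (0, _), _, x, _ => x = relN (chk t : I → _) fun _ _ => True
  | (1, _), _, x, _ => x = relN (prodN t (chk t : I → _) (chk t : I → _)) fun a _ => a.1 < a.2
  | (2, _), _, x, _ => x = relN (prodN t (prodN t (chk t) (chk t)) (natName t))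
      fun a _ => c a.1.1 a.1.2 = a.2
  | (3, _), _, x, _ => x = relN (prodN t (prodN t (chk t) (prodN t (natName t) (natName t))) (chk t))
      fun a p => ∃ v, p.f (∅, a.1.1) = some v ∧ v a.1.2 = a.2
  | (4, _), _, x, _ => x = chk t o
  | (5, _), _, x, _ => x = chk t i
  | (6, k), w, x, p => ∃ a v, w 0 = chk t a ∧ p.f (∅, a) = some v ∧ x = chk t (v k)
  | (7, _), w, x, p => (∃ k, ∀ r, le3 r p → ∀ b : I,
      ¬ fMem le3 (prodN t (prodN t (natName t) (natName t)) (chk t) (k, b)) (w 0) r) ∨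
      ∃ a v, x = chk t a ∧ p.f (∅, a) = some v ∧ ∀ k, v k < a ∧
        fMem le3 (prodN t (prodN t (natName t) (natName t)) (chk t) (k, v k)) (w 0) p
  | (8, _), _, x, _ => x = relN (chk t : LL I (ℕ × ℕ → I) → _) fun _ _ => True
  | (9, _), _, x, _ => x = relN (prodN t (chk t) (chk t)) fun a p => ∃ v, p.f a = some v ∧ v (0, 0) = o
  | (10, k), w, x, _ => ∃ f, w 0 = seqN t f ∧ x = f k.1
  | (_ + 11, _), w, x, p => (∃ ξ η δ, x = pairN t (chk t ξ) (pairN t (chk t η) (chk t δ)) ∧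
      p.f (ξ, δ) = some (fun _ => o) ∧ p.f (η, δ) = some (fun _ => i) ∧
      ∀ n r r', r < r' → ∀ q, le3 q p →
        (fMem le3 (nX t ξ ((δ, n), r')) (w 0) q → fMem le3 (nX t η ((δ, n), r)) (w 0) q) ∧
        (fMem le3 (nX t η ((δ, n), r')) (w 0) q → fMem le3 (nX t ξ ((δ, n), r)) (w 0) q)) ∨
      ∃ r r', r < r' ∧ ∃ (ζ : ℕ → LL I (ℕ × ℕ → I)) (e : ℕ × Finset ℕ → I × ℕ),
        x = pairN t (seqN t fun n => prodN t (natName t) (chk t) (n, ζ n))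
          (seqN t fun n => chk t (e (d n)).1) ∧ ∀ k σ, ∀ j < k,
        (j ∈ σ → fMem le3 (nX t (ζ j) (e (k, σ), r')) (w 0) p) ∧
        (j ∉ σ → ∀ q, le3 q p → ¬ fMem le3 (nX t (ζ j) (e (k, σ), r)) (w 0) q)

theorem exists_book_qp : ∃ (M : Set ZFSet.{0}) (_ : Fact (ZFC M)) (I L : Type) (_ : Srt M I)
    (_ : Sm M I) (_ : Srt M L) (_ : Sm M L) (r : I → I → Prop) (b : I → Fn M ℕ I × PS M ℕ)
    (S : L → I → Prop), Book M r b ∧ QP M S := by
  obtain ⟨I, _, _, _, hc, hb⟩ := exists_omega1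
  choose c hc using fun a => countable_iff_exists_injOn.1 (hc a)
  obtain ⟨i, hi⟩ := hb fun _ => ⊥
  obtain ⟨d, hd⟩ := exists_surjective_nat (ℕ × Finset ℕ)
  let t : P3 I := ⟨fun _ => none, by simp⟩
  have ht : ∀ p, le3 p t := fun p x v h => by simp [t] at h
  obtain ⟨N, G, -, h, h'⟩ := exists_gen_zfc le3 t (R3 t c ⊥ i d) t
  have hM : Fact (ZFC (val N G '' N)) := ⟨h.zfc ht⟩
  have e0 := fin'_emp h.emp_mem
  obtain ⟨_, _, hI⟩ := h.exists_srt (h.vi_chk ht I) (h'.op (0, 0, 0) e0 fun _ _ => Iff.rfl)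
  obtain ⟨_, _, hL⟩ := h.exists_srt (h.vi_chk ht (LL I (ℕ × ℕ → I)))
    (h'.op (8, 0, 0) e0 fun _ _ => Iff.rfl)
  have hN := h.emb_nat ht
  have vI := h.vi_chk ht I
  have vL := h.vi_chk ht (LL I (ℕ × ℕ → I))
  have vN := h.vi_nat ht
  have fn : ∀ {p q : P3 I} {x v w}, p ∈ G → q ∈ G → p.f x = some v → q.f x = some w → v = w :=
    fun hp hq h1 h2 => let ⟨_, _, h3, h4⟩ := h.dir hp hq
      Option.some.inj ((h3 _ _ h1).symm.trans (h4 _ _ h2))
  have d1 := h.df_ground (h.emb_prod ht hI hI) (h.vi_prod ht vI vI)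
    (h'.op (1, 0, 0) e0 fun _ _ => Iff.rfl)
  have d2 := h.df_ground (h.emb_prod ht (h.emb_prod ht hI hI) hN)
    (h.vi_prod ht (h.vi_prod ht vI vI) vN) (h'.op (2, 0, 0) e0 fun _ _ => Iff.rfl)
  have d3 := (h.emb_prod ht (h.emb_prod ht hI (h.emb_prod ht hN hN)) hI).df
    (h.vi_prod ht (h.vi_prod ht vI (h.vi_prod ht vN vN)) vI) (h'.op (3, 0, 0) e0 fun _ _ => Iff.rfl)
  have d9 := (h.emb_prod ht hL hI).df (h.vi_prod ht vL vI) (h'.op (9, 0, 0) e0 fun _ _ => Iff.rfl)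
  let i0 : Sub N (chk t : I → _) := ⟨⊥, h'.op (4, 0, 0) e0 fun _ _ => Iff.rfl⟩
  let i1 : Sub N (chk t : I → _) := ⟨i, h'.op (5, 0, 0) e0 fun _ _ => Iff.rfl⟩
  have hne : i0 ≠ i1 := fun e => (hi 0).ne (congrArg Sub.a e)
  obtain ⟨β, dβ, hβ⟩ := exists_choice (R := fun (x : Sub N (chk t : I → _) × ℕ × ℕ)
    (y : Sub N (chk t : I → _)) => ∃ p ∈ G, ∃ v, p.f (∅, x.1.a) = some v ∧ v x.2 = y.a) d3 fun x => by
    obtain ⟨r, hr, _, hx, a, v, h1, h2, rfl⟩ := h'.dense (6, x.2) (h.env1 x.1.mem) (h.top_mem ht)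
      fun q _ => by
        rcases e : q.f (∅, x.1.a) with _ | v
        · exact ⟨_, upd_le e fun _ => ⊥, _, _, _, rfl, upd_self _ _ _, rfl⟩
        · exact ⟨_, lrefl q, _, _, _, rfl, e, rfl⟩
    obtain rfl := chk_inj ht h1
    exact ⟨⟨_, hx⟩, r, hr, v, h2, rfl⟩
  obtain ⟨F, dF, hF⟩ := exists_lam (f := fun a (n : ℕ) => β (a, 0, n)) (by fun_prop)
  refine ⟨_, hM, Sub N (chk t : I → _), Sub N (chk t : LL I (ℕ × ℕ → I) → _), inferInstance,
    inferInstance, inferInstance, inferInstance, fun x y => x.a < y.a,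
    fun a => (F a, PS.of _ fun n => β (a, 1, n) = i1),
    fun ξ a => ∃ p ∈ G, ∃ v, p.f (ξ.a, a.a) = some v ∧ v (0, 0) = ⊥, ⟨⟨d1, fun x => lt_irrefl _,
      fun _ _ _ => lt_trans, fun x y => (lt_trichotomy x.a y.a).imp_right (Or.imp_left Sub.ext),
      fun P _ hP => ?_⟩, fun a => ⟨⟨fun x => c a.a x.a, ?_⟩, fun x y hx hy e => Sub.ext (hc _ hx hy e)⟩,
    by fun_prop, fun u s => ?_, ⟨i0⟩⟩, d9, fun X => ?_⟩
  · exact (InvImage.wf Sub.a wellFounded_lt).has_min {x | P x} hP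
  · exact (DfF.of_graph (f := fun p : Sub N (chk t : I → _) × Sub N (chk t : I → _) =>
      c p.1.a p.2.a) d2).comp (g := fun x => (a, x)) (by fun_prop)
  · let v : Fn (val N G '' N) (ℕ × ℕ) (Sub N (chk t : I → _)) :=
      ⟨fun k => if k.1 = 0 then u.ap k.2 else if k.2 ∈ s then i1 else i0, by fun_prop⟩
    obtain ⟨τ, hτ, e⟩ := h.exists_name_ps (h.emb_prod ht (h.emb_prod ht hN hN) hI) v.gr
    obtain ⟨r, hr, x, hx, h1⟩ := h'.dense (7, 0, 0) (h.env1 hτ) (h.top_mem ht) fun q _ => by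
      by_cases h1 : ∃ r, le3 r q ∧ ∃ k, ∀ r', le3 r' r → ∀ b : I,
        ¬ fMem le3 (prodN t (prodN t (natName t) (natName t)) (chk t) (k, b)) τ r'
      · obtain ⟨r, h1, h2⟩ := h1
        exact ⟨r, h1, emp, Or.inl h2⟩
      · push Not at h1
        obtain ⟨r, h2, a, w, h3⟩ := le3_dense hb (A := fun k b => fMem le3
          (prodN t (prodN t (natName t) (natName t)) (chk t) (k, b)) τ)
          (fun k b q r h => fMem_mono h) fun k r h => h1 r h k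
        exact ⟨r, h2, _, Or.inr ⟨a, w, rfl, h3⟩⟩
    rcases h1 with ⟨k, h1⟩ | ⟨a, w, rfl, h1, h2⟩
    · obtain ⟨p, hp, h2⟩ := (e (k, v.ap k)).1 (Fn.mem_gr.2 rfl)
      obtain ⟨q, -, h3, h4⟩ := h.dir hr hp
      exact absurd (fMem_mono h4 h2) (h1 q h3 _)
    have h3 : ∀ k, w k = (β (⟨a, hx⟩, k)).a := fun k => by
      obtain ⟨p, hp, w', h4, h5⟩ := hβ (⟨a, hx⟩, k)
      rw [← h5, fn hr hp h1 h4]
    have h4 : ∀ k, v.ap k = β (⟨a, hx⟩, k) := fun k =>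
      (Fn.mem_gr (p := (k, _))).1 ((e _).2 ⟨r, hr, h3 k ▸ (h2 k).2⟩)
    refine ⟨⟨a, hx⟩, Prod.ext (Fn.ext fun n => ?_) (PS.ext fun n => ?_), fun n => ?_⟩
    · exact (hF _ n).trans (h4 (0, n)).symm
    · rw [PS.mem_of (by fun_prop), ← h4]
      simp [v, hne]
    · have := (h2 (0, n)).1
      rwa [h3, ← h4] at this
  · have hQ : Emb N G (prodN t (prodN t (natName t) (natName t)) (natName t)) ratCd :=
      fun q => h.emb_prod ht (h.emb_prod ht hN hN) hN (ratCd q)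
    obtain ⟨τ, hτ, e⟩ := h.exists_name_ps (h.emb_prod ht hL (h.emb_prod ht (h.emb_prod ht hI hN) hQ)) X
    replace e : ∀ ξ a n q, (ξ, (a, n), q) ∈ X ↔ ∃ p ∈ G, fMem le3 (nX t ξ.a ((a.a, n), q)) τ p :=
      fun ξ a n q => e _
    obtain ⟨p, hp, x, hx, h1⟩ := h'.dense (11, 0, 0) (h.env1 hτ) (h.top_mem ht) fun q _ => by
      obtain ⟨w, h1, h2⟩ := add_dense (fun s hs => by
          have : Nonempty I := ⟨i⟩
          obtain ⟨g, hg⟩ := countable_iff_exists_subset_range.1 hs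
          obtain ⟨a, ha⟩ := hb g
          exact ⟨a, fun h => let ⟨n, hn⟩ := hg h; (ha n).ne hn⟩)
        (fun ξ e => {p | fMem le3 (nX t ξ e) τ p}) (fun _ _ _ _ => fMem_mono)
        (fun _ _ _ => fMem_dense) q (fun _ => ⊥) fun _ => i
      rcases h2 with ⟨ξ, η, δ, h2, h3, h4⟩ | ⟨r, r', hr, ζ, u, h2⟩
      · exact ⟨w, h1, _, Or.inl ⟨ξ, η, δ, rfl, h2, h3, fun n r r' hr w' h5 =>
          ⟨fun h6 => fMem_dense fun q hq => (h4 n r r' hr q (ltrans hq h5)).1 (fMem_mono hq h6),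
          fun h6 => fMem_dense fun q hq => (h4 n r r' hr q (ltrans hq h5)).2 (fMem_mono hq h6)⟩⟩⟩
      · exact ⟨w, h1, _, Or.inr ⟨r, r', hr, ζ, u, rfl, h2⟩⟩
    rcases h1 with ⟨ξ, η, δ, rfl, h2, h3, h4⟩ | ⟨r, r', hr, ζ, u, rfl, h2⟩
    · obtain ⟨g1, g2⟩ := h.pairN_mem_iff.1 hx
      obtain ⟨g2, g3⟩ := h.pairN_mem_iff.1 g2
      refine Or.inl ⟨⟨ξ, g1⟩, ⟨η, g2⟩, ⟨δ, g3⟩, ⟨p, hp, _, h2, rfl⟩, fun ⟨q, hq, v, h5, h6⟩ =>
        (hi 0).ne' (by rw [← h6, fn hq hp h5 h3]), fun n r r' hr => ?_⟩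
      simp only [e]
      constructor <;> rintro ⟨q, hq, h5⟩ <;> obtain ⟨s, hs, h6, h7⟩ := h.dir hp hq
      · exact ⟨s, hs, (h4 n r r' hr s h6).1 (fMem_mono h7 h5)⟩
      · exact ⟨s, hs, (h4 n r r' hr s h6).2 (fMem_mono h7 h5)⟩
    · obtain ⟨g1, g2⟩ := h.pairN_mem_iff.1 hx
      have sq : ∀ f, seqN t f ∈ N → ∀ n, f n ∈ N := fun f hf n =>
        h'.op (10, n, 0) (h.env1 hf) fun x _ => ⟨fun ⟨g, h1, h2⟩ => by
          rw [h2, eq_of_heq (Name.mk.inj h1).2.1], fun h => ⟨f, rfl, h⟩⟩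
      have g3 := sq _ g1
      let z : ℕ → Sub N (chk t : LL I (ℕ × ℕ → I) → _) := fun n =>
        ⟨ζ n, (h.pairN_mem_iff.1 (g3 n)).2⟩
      have dz : DfF (val N G '' N) z := DfF.of_rel (P := fun n ξ => cd (val N G '' N) (n, ξ) ∈
        val N G (seqN t fun n => prodN t (natName t) (chk t) (n, ζ n)))
        (DfF.cd_mem_set DfF.id (mem_image_of_mem _ g1)) fun n ξ => by
          have g4 := h.emb_prod ht hN hL (n, ξ)
          rw [g4.2, seqN, mem_val]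
          refine ⟨fun e => ⟨n, g3 n, h.top_mem ht, e ▸ rfl⟩, fun ⟨m, _, _, e⟩ => ?_⟩
          obtain ⟨rfl, e⟩ := Prod.ext_iff.1 (h.vi_prod ht vN vL _ _ (g3 m) g4.1 e)
          exact Sub.ext e
      refine Or.inr ⟨r, r', hr, ⟨z, dz⟩, fun k σ => ?_⟩
      obtain ⟨n, hn⟩ := hd (k, σ)
      refine ⟨(⟨(u (k, σ)).1, hn ▸ sq _ g2 n⟩, (u (k, σ)).2), fun j hj => ⟨fun g =>
        (e _ _ _ _).2 ⟨p, hp, (h2 k σ j hj).1 g⟩, fun g g' => ?_⟩⟩
      obtain ⟨q, hq, h5⟩ := (e _ _ _ _).1 g'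
      obtain ⟨s, -, h6, h7⟩ := h.dir hp hq
      exact (h2 k σ j hj).2 g s h6 (fMem_mono h7 h5)

end Pool.Agent.MP_b07c92_gt.Indep

end MrgPart1

-- marker of a merged file
example : 731051 + 759616 = 731051 + 759616 := rfl

end MrgPart1

-- marker of a merged file
example : 731051 + 759616 = 731051 + 759616 := rfl
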